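import Pool.Agent.Helper684.GX.Ergo.Lap
set_option autoImplicit false

open Metric Set Filter Topology

namespace Pool.Agent.Helper684.GX.Ergo


theorem lap_eq_laplacian {U : ℂ → ℝ} {w : ℂ} (hU : ContDiffAt ℝ 2 U w) :
    lap U w = Laplacian.laplacian U w := by
  have hd : DifferentiableAt ℝ (fderiv ℝ U) w :=
    (hU.fderiv_right (m := 1) (by norm_num)).differentiableAt (by norm_num)
  have h1 : ∀ v : ℂ, fderiv ℝ (fun z => fderiv ℝ U z v) w v =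
      fderiv ℝ (fderiv ℝ U) w v v := by
    intro v
    have h2 := (hd.hasFDerivAt.clm_apply (hasFDerivAt_const v w)).fderiv
    rw [h2]
    simp
  rw [InnerProductSpace.laplacian_eq_iteratedFDeriv_complexPlane]
  unfold lap
  simp only [iteratedFDeriv_two_apply]
  rw [h1, h1]
  simp

theorem lap_log_norm {a : ℂ → ℂ} {w : ℂ} (ha : AnalyticAt ℂ a w) (h0 : a w ≠ 0) :
    ContDiffAt ℝ 2 (fun z => Real.log (‖a z‖ ^ 2)) w ∧
      lap (fun z => Real.log (‖a z‖ ^ 2)) w = 0 := by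
  have h1 : (fun z => Real.log (‖a z‖ ^ 2)) = (2 : ℝ) • (fun z => Real.log ‖a z‖) := by
    funext z
    rw [Real.log_pow]
    simp
  have h2 : InnerProductSpace.HarmonicAt ((2 : ℝ) • (fun z => Real.log ‖a z‖)) w :=
    (ha.harmonicAt_log_norm h0).const_smul
  rw [h1]
  refine ⟨h2.1, ?_⟩
  rw [lap_eq_laplacian h2.1]
  exact h2.2.self_of_nhds

theorem lap_log_one_sub : lap (fun z => Real.log ((1 - ‖z‖ ^ 2) ^ 2)) 0 = -8 := by
  have h1 : (fun z : ℂ => Real.log ((1 - ‖z‖ ^ 2) ^ 2)) =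
      fun z => 2 * Real.log (1 - ‖z‖ ^ 2) := by
    funext z
    rw [Real.log_pow]
    push_cast
    ring
  rw [h1]
  have hsq : ∀ z : ℂ, HasFDerivAt (fun z : ℂ => ‖z‖ ^ 2) (2 • (innerSL ℝ z)) z := fun z =>
    (hasStrictFDerivAt_norm_sq z).hasFDerivAt
  have hev : ∀ v : ℂ, (fun z : ℂ => fderiv ℝ (fun z : ℂ => 2 * Real.log (1 - ‖z‖ ^ 2)) z v)
      =ᶠ[𝓝 0] fun z => (-4 * (innerSL ℝ v z)) * (1 - ‖z‖ ^ 2)⁻¹ := by
    intro v
    have hball : ball (0 : ℂ) 1 ∈ 𝓝 (0 : ℂ) := ball_mem_nhds _ one_pos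
    filter_upwards [hball] with z hz
    have hz1 : ‖z‖ < 1 := by simpa using hz
    have hz2 : ‖z‖ ^ 2 < 1 := by
      have := norm_nonneg z
      nlinarith
    have hne : 1 - ‖z‖ ^ 2 ≠ 0 := by linarith
    have h2 := ((((hsq z).const_sub 1).log hne).const_mul 2).fderiv
    rw [h2]
    simp only [smul_apply, neg_apply, innerSL_apply_apply, smul_eq_mul, real_inner_comm]
    simp
    ring
  have hd : ∀ v : ℂ, fderiv ℝ (fun z : ℂ => fderiv ℝ (fun z : ℂ => 2 * Real.log (1 - ‖z‖ ^ 2)) z v)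
      0 v = -4 * ‖v‖ ^ 2 := by
    intro v
    rw [(hev v).fderiv_eq]
    have h3 : HasFDerivAt (fun z : ℂ => (-4 : ℝ) * (innerSL ℝ v z)) ((-4 : ℝ) • innerSL ℝ v) 0 :=
      ((innerSL ℝ v).hasFDerivAt).const_mul _
    have h5 : HasFDerivAt (fun z : ℂ => 1 - ‖z‖ ^ 2) (-(2 • (innerSL ℝ (0:ℂ)) : ℂ →L[ℝ] ℝ)) 0 :=
      (hsq 0).const_sub 1
    have h4 : HasFDerivAt (fun z : ℂ => (1 - ‖z‖ ^ 2)⁻¹)
        ((-((1 - ‖(0:ℂ)‖ ^ 2) ^ 2)⁻¹ : ℝ) • (-(2 • (innerSL ℝ (0:ℂ)) : ℂ →L[ℝ] ℝ))) 0 :=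
      (hasDerivAt_inv (by simp)).comp_hasFDerivAt (0:ℂ) h5
    have h6 := (h3.mul h4).fderiv
    have h7 : (fun z : ℂ => (-4 * (innerSL ℝ v z)) * (1 - ‖z‖ ^ 2)⁻¹) =
        (fun z : ℂ => (-4 : ℝ) * (innerSL ℝ v z)) * (fun z : ℂ => (1 - ‖z‖ ^ 2)⁻¹) := rfl
    rw [h7, h6]
    simp
  unfold lap
  rw [hd, hd]
  simp
  norm_num

end Pool.Agent.Helper684.GX.Ergo
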