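import Pool.Agent.Helper684.GX.NevDefs
import Pool.Agent.Helper684.GX.Ergo.Lap

attribute [local instance] Pool.Agent.Helper684.GX.Nev.leafInst

/-!
Definitions for the geometric ergodic theorem for singular holomorphic foliations by curves with
arbitrary singularities. The notions of holomorphic foliation, tangent disc, leaf topology and
universal covering of a leaf are those of `Pool.Agent.Helper684.GX.NevDefs`.
-/

set_option autoImplicit false

open scoped Manifold
open Metric MeasureTheory
open Pool.Agent.Helper684.GX.Nev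

namespace Pool.Agent.Helper684.GX.Ergo

variable {E M : Type*} [NormedAddCommGroup E] [NormedSpace ℂ E] [TopologicalSpace M]
  [ChartedSpace E M]

/-- A local generator of the foliation `F`: a holomorphic chart `e` together with a holomorphic
vector field `Z` in the coordinates `e`, which generates `F` outside the singular set of `F` and
whose zeros are exactly the points of the singular set. -/
structure Generator (F : Foliation E M) where
  e : OpenPartialHomeomorph M E
  mem : e ∈ IsManifold.maximalAtlas 𝓘(ℂ, E) 1 M
  Z : E → E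
  hol : DifferentiableOn ℂ Z e.target
  gen : GeneratedOn F.sing F.dir e Z

/-- Two local generators are compatible: on the intersection of their domains, the second vector
field is the product of the first one and a nowhere vanishing holomorphic function `g`. -/
def Generator.Compatible {F : Foliation E M} (G G' : Generator F) : Prop :=
  ∃ g : E → ℂ, DifferentiableOn ℂ g (G.e.symm.trans G'.e).source ∧
    ∀ y ∈ (G.e.symm.trans G'.e).source, g y ≠ 0 ∧
      fderiv ℂ (G.e.symm.trans G'.e) y (G.Z y) = g y • G'.Z (G.e.symm.trans G'.e y)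

/-- A singular holomorphic foliation by Riemann surfaces of the complex manifold `M`: it is given
by compatible local generators (holomorphic vector fields, equal on the overlaps up to
nowhere vanishing holomorphic functions) whose domains cover `M`. The singular points, i.e. the
zeros of the generators, are arbitrary; in particular they need not be linearizable. -/
structure SingularFoliation (E M : Type*) [NormedAddCommGroup E] [NormedSpace ℂ E]
    [TopologicalSpace M] [ChartedSpace E M] extends Foliation E M where
  gens : Set (Generator toFoliation)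
  cover : ∀ x : M, ∃ G ∈ gens, x ∈ G.e.source
  compat : ∀ G ∈ gens, ∀ G' ∈ gens, G.Compatible G'

/-- A real valued function of two tangent vectors at `x` is a (real) `(1,1)`-form at `x`: it is
real bilinear, alternating and invariant under `J`. -/
structure IsForm11At (x : M)
    (β : TangentSpace 𝓘(ℂ, E) x → TangentSpace 𝓘(ℂ, E) x → ℝ) : Prop where
  add_left : ∀ u v w, β (u + v) w = β u w + β v w
  smul_left : ∀ (a : ℝ) v w, β ((a : ℂ) • v) w = a * β v w
  antisymm : ∀ v w, β w v = - β v w
  inv : ∀ v w, β (J x v) (J x w) = β v w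

/-- A continuous real `(1,1)`-form on the complex manifold `M` modelled on `E`. Every smooth real
`(1,1)`-form is of this kind. -/
structure Form11 (E M : Type*) [NormedAddCommGroup E] [NormedSpace ℂ E] [TopologicalSpace M]
    [ChartedSpace E M] [IsManifold 𝓘(ℂ, E) 1 M] where
  form : ∀ x : M, TangentSpace 𝓘(ℂ, E) x → TangentSpace 𝓘(ℂ, E) x → ℝ
  isForm11At : ∀ x, IsForm11At x (form x)
  cont : Continuous fun p : TangentBundle 𝓘(ℂ, E) M => form p.1 p.2 (J p.1 p.2)

/-- The value of `dd^c f = (i/π) ∂∂̄ f` on the pair of tangent vectors `(v, J v)` at `x`, namely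
`1/(2π)` times the Laplacian at `0` of `ζ ↦ f (x + ζ v)` (in the preferred chart at `x`). -/
noncomputable def ddcForm (f : M → ℝ) (x : M) (v : TangentSpace 𝓘(ℂ, E) x) : ℝ :=
  1 / (2 * Real.pi) *
    lap (fun ζ => f ((chartAt E x).symm (chartAt E x x + ζ • (show E from v)))) 0

/-- A real current of bidimension `(1,1)` and of order `0` on the compact complex manifold `M`: a
linear functional on the real vector space of the continuous real `(1,1)`-forms. (All positive
currents are of this kind.) -/
structure Current (E M : Type*) [NormedAddCommGroup E] [NormedSpace ℂ E] [TopologicalSpace M]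
    [ChartedSpace E M] [IsManifold 𝓘(ℂ, E) 1 M] where
  val : Form11 E M → ℝ
  map_add : ∀ θ θ₁ θ₂ : Form11 E M,
    (∀ x u v, θ.form x u v = θ₁.form x u v + θ₂.form x u v) → val θ = val θ₁ + val θ₂
  map_smul : ∀ (c : ℝ) (θ θ₁ : Form11 E M),
    (∀ x u v, θ.form x u v = c * θ₁.form x u v) → val θ = c * val θ₁

section currents

variable [IsManifold 𝓘(ℂ, E) 1 M]

/-- `T` is a positive `dd^c`-closed current of bidimension `(1,1)` directed by the foliation
`F`. -/
structure IsDirectedDdcClosed (F : Foliation E M) (T : Current E M) : Prop where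
  /-- `T` is positive: `⟨T, θ⟩ ≥ 0` for all positive `(1,1)`-forms `θ`. -/
  pos : ∀ θ : Form11 E M, (∀ (x : M) (v : TangentSpace 𝓘(ℂ, E) x), 0 ≤ θ.form x v (J x v)) →
    0 ≤ T.val θ
  /-- `T` is directed by `F`: `⟨T, θ⟩ = 0` for all `(1,1)`-forms `θ` which vanish along the
  leaves. -/
  directed : ∀ θ : Form11 E M, (∀ x, x ∉ F.sing → ∀ v ∈ F.dir x, θ.form x v (J x v) = 0) →
    T.val θ = 0
  /-- `T` is `dd^c`-closed: `⟨T, dd^c f⟩ = 0` for all smooth functions `f`. -/
  closed : ∀ (f : M → ℝ) (θ : Form11 E M),
    ContMDiff 𝓘(ℝ, E) 𝓘(ℝ, ℝ) ((⊤ : ℕ∞) : WithTop ℕ∞) f →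
    (∀ (x : M) (v : TangentSpace 𝓘(ℂ, E) x), θ.form x v (J x v) = ddcForm f x v) → T.val θ = 0

/-- `T` is extremal among the positive `dd^c`-closed currents directed by `F`. -/
def IsExtremalDirected (F : Foliation E M) (T : Current E M) : Prop :=
  ∀ T₁ T₂ : Current E M, IsDirectedDdcClosed F T₁ → IsDirectedDdcClosed F T₂ →
    (∀ θ, T.val θ = T₁.val θ + T₂.val θ) → ∃ c : ℝ, ∀ θ, T₁.val θ = c * T.val θ

/-- `μ` is the trace measure `T ∧ ω` of the current `T`: `∫ f dμ = ⟨T, f ω⟩` for all continuous
functions `f`. (If `T` is positive, there is exactly one such Borel measure.) -/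
def IsTraceMeasure [MeasurableSpace M] (ω : PosForm E M) (T : Current E M)
    (μ : Measure M) : Prop :=
  ∀ (f : M → ℝ) (θ : Form11 E M), Continuous f →
    (∀ x u v, θ.form x u v = f x * ω.form x u v) → T.val θ = ∫ x, f x ∂μ

end currents

/-- The leaf of `x` is hyperbolic: it is covered by the unit disc. -/
def IsHyperbolic (F : Foliation E M) (x : M) : Prop :=
  ∃ φ : ℂ → M, F.IsUniversalCovering φ ∧ φ 0 = x

/-- The density of the pulled back form `φ^* θ` with respect to `dx ∧ dy`. -/
noncomputable def pull11 [IsManifold 𝓘(ℂ, E) 1 M] (θ : Form11 E M) (φ : ℂ → M) (ξ : ℂ) : ℝ :=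
  θ.form (φ ξ) (discDeriv φ ξ 1) (discDeriv φ ξ Complex.I)

/-- The value on `θ` of the Nevanlinna current
`τ_r = (1 / T(r)) ∫₀^r (dt / t) φ_* [𝔻(t)]`. -/
noncomputable def nevanlinna [IsManifold 𝓘(ℂ, E) 1 M] (ω : PosForm E M) (θ : Form11 E M)
    (φ : ℂ → M) (r : ℝ) : ℝ :=
  (∫ t in (0 : ℝ)..r, (∫ ξ in ball (0 : ℂ) t, pull11 θ φ ξ) / t) / charT ω φ r

end Pool.Agent.Helper684.GX.Ergo
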