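import Pool.Agent.Helper684.GX.Ergo.Sep
import Pool.Agent.Helper684.GX.Ergo.M2p

attribute [local instance] Pool.Agent.Helper684.GX.Nev.leafInst

/-!
`dd^c f` is a continuous `(1,1)`-form.
-/

set_option autoImplicit false

open scoped Manifold
open Metric MeasureTheory Set Filter Topology
open Pool.Agent.Helper684.GX.Nev

namespace Pool.Agent.Helper684.GX.Ergo

variable {E M : Type*} [NormedAddCommGroup E] [NormedSpace ℂ E] [TopologicalSpace M]
  [ChartedSpace E M] [IsManifold 𝓘(ℂ, E) 1 M] [FiniteDimensional ℂ E] [T2Space M]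
  [CompactSpace M]

/-- `dd^c f` read in an arbitrary holomorphic chart -/
theorem ddcForm_chart {f : M → ℝ}
    (hf : ContMDiff 𝓘(ℝ, E) 𝓘(ℝ, ℝ) ((⊤ : ℕ∞) : WithTop ℕ∞) f)
    {e : OpenPartialHomeomorph M E} {x : M} (he : IsHolChartAt e x)
    (v : TangentSpace 𝓘(ℂ, E) x) :
    ddcForm f x v = 1 / (2 * Real.pi) *
      (fderiv ℝ (fderiv ℝ (fun y => f (e.symm y))) (e x) (chartDeriv (E := E) e x v)
        (chartDeriv (E := E) e x v) +
       fderiv ℝ (fderiv ℝ (fun y => f (e.symm y))) (e x)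
        (Complex.I • chartDeriv (E := E) e x v) (Complex.I • chartDeriv (E := E) e x v)) := by
  set η : E := chartDeriv (E := E) e x v with hη
  set g : E → ℝ := fun y => f (e.symm y) with hg
  have hex : e x ∈ e.target := e.map_source he.2
  obtain ⟨r₀, hr₀, hball⟩ := Metric.isOpen_iff.1 e.open_target (e x) hex
  obtain ⟨r, hrpos, hrη⟩ : ∃ r : ℝ, 0 < r ∧ r * ‖η‖ < r₀ := by
    refine ⟨r₀ / (‖η‖ + 1), by positivity, ?_⟩
    rw [div_mul_eq_mul_div, div_lt_iff₀ (by positivity)]
    nlinarith [norm_nonneg η]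
  have hmem : ∀ ζ ∈ ball (0 : ℂ) 1, e x + ζ • ((r : ℂ) • η) ∈ e.target := by
    intro ζ hζ
    apply hball
    rw [mem_ball_iff_norm, add_sub_cancel_left, norm_smul, norm_smul, Complex.norm_real,
      Real.norm_eq_abs, abs_of_pos hrpos]
    rw [mem_ball_zero_iff] at hζ
    have h2 : 0 ≤ r * ‖η‖ := mul_nonneg hrpos.le (norm_nonneg η)
    nlinarith [norm_nonneg ζ]
  set ψ : ℂ → M := fun ζ => e.symm (e x + ζ • ((r : ℂ) • η)) with hψ
  have hd : ∀ ζ : ℂ, HasDerivAt (fun ζ : ℂ => e x + ζ • ((r : ℂ) • η)) ((r : ℂ) • η) ζ := by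
    intro ζ
    simpa using ((hasDerivAt_id ζ).smul_const ((r : ℂ) • η)).const_add (e x)
  have hψd : ∀ ζ ∈ ball (0 : ℂ) 1, MDifferentiableAt 𝓘(ℂ, ℂ) 𝓘(ℂ, E) ψ ζ := by
    intro ζ hζ
    have h1 := chart_symm_mdiff he.1 (hmem ζ hζ)
    have h2 : MDifferentiableAt 𝓘(ℂ, ℂ) 𝓘(ℂ, E) (fun ζ : ℂ => e x + ζ • ((r : ℂ) • η)) ζ :=
      mdifferentiableAt_iff_differentiableAt.2 (hd ζ).differentiableAt
    exact MDifferentiableAt.comp ζ h1 h2
  have hz0 : (0 : ℂ) ∈ ball (0 : ℂ) 1 := mem_ball_self one_pos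
  have hψ0 : ψ 0 = x := by
    show e.symm (e x + (0 : ℂ) • ((r : ℂ) • η)) = x
    rw [zero_smul, add_zero, e.left_inv he.2]
  have hchart : IsHolChartAt e (ψ 0) := by rw [hψ0]; exact he
  have h3 := hasDerivAt_chart (hψd 0 hz0) hchart
  have h4 : (fun z => e (ψ z)) =ᶠ[𝓝 0] fun ζ : ℂ => e x + ζ • ((r : ℂ) • η) := by
    filter_upwards [isOpen_ball.mem_nhds hz0] with z hz
    exact e.right_inv (hmem z hz)
  have h5 : chartDeriv (E := E) e (ψ 0) (discDeriv (E := E) ψ 0 1) = (r : ℂ) • η :=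
    h3.unique ((hd 0).congr_of_eventuallyEq h4)
  let A : E → E → E := fun y ξ => mfderiv 𝓘(ℂ, E) 𝓘(ℂ, E) e.symm y ξ
  have h6 : (discDeriv (E := E) ψ 0 1 : E) = (r : ℂ) • (v : E) := by
    have h7 : A (e (ψ 0)) (chartDeriv (E := E) e (ψ 0) (discDeriv (E := E) ψ 0 1)) =
        (discDeriv (E := E) ψ 0 1 : E) := chart_param hchart (discDeriv (E := E) ψ 0 1)
    rw [h5, hψ0] at h7
    have h8 : A (e x) η = (v : E) := chart_param he v
    rw [← h7, ← h8]
    exact (mfderiv 𝓘(ℂ, E) 𝓘(ℂ, E) e.symm (e x)).map_smul (r : ℂ) η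
  let G : M → E → ℝ := fun x v => ddcForm f x v
  have h9 := (lap_comp_disc' hf (fun z hz => (hψd z hz).mdifferentiableWithinAt) hz0).2
  have h10 : lap (fun z => f (ψ z)) 0 = 2 * Real.pi * G (ψ 0) (discDeriv (E := E) ψ 0 1 : E) := h9
  rw [h6, hψ0] at h10
  have h11 : G x ((r : ℂ) • (v : E)) = ‖(r : ℂ)‖ ^ 2 * G x (v : E) :=
    ddcForm_smul' hf x (r : ℂ) v
  have hg2 : ContDiffAt ℝ 2 g (e x) :=
    (contDiffAt_comp_symm he.1 hf hex).of_le (WithTop.coe_le_coe.2 (le_top : (2 : ℕ∞) ≤ ⊤))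
  have h12 : lap (fun z => f (ψ z)) 0 = ‖(r : ℂ)‖ ^ 2 *
      (fderiv ℝ (fderiv ℝ g) (e x) η η +
        fderiv ℝ (fderiv ℝ g) (e x) (Complex.I • η) (Complex.I • η)) := by
    rw [← lapK2_line hg2, ← lap_line_smul hg2]
  rw [h12, h11] at h10
  have hr2 : ‖(r : ℂ)‖ ^ 2 ≠ 0 := by
    rw [Complex.norm_real, Real.norm_eq_abs, sq_abs]
    positivity
  have h13 : fderiv ℝ (fderiv ℝ g) (e x) η η +
      fderiv ℝ (fderiv ℝ g) (e x) (Complex.I • η) (Complex.I • η) =
      2 * Real.pi * G x (v : E) := by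
    apply mul_left_cancel₀ hr2
    rw [h10]
    ring
  show G x (v : E) = _
  rw [h13]
  have := Real.pi_pos
  field_simp

/-- `dd^c f` is a continuous `(1,1)`-form -/
theorem exists_ddc {f : M → ℝ}
    (hf : ContMDiff 𝓘(ℝ, E) 𝓘(ℝ, ℝ) ((⊤ : ℕ∞) : WithTop ℕ∞) f) :
    ∃ θ : Form11 E M, ∀ (x : M) (v : TangentSpace 𝓘(ℂ, E) x),
      θ.form x v (J x v) = ddcForm f x v := by
  let D : M → (E →L[ℝ] E →L[ℝ] ℝ) := fun x =>
    fderiv ℝ (fderiv ℝ (fun y => f ((chartAt E x).symm y))) (chartAt E x x)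
  have hcd : ∀ x : M, ContDiffAt ℝ ((⊤ : ℕ∞) : WithTop ℕ∞)
      (fun y => f ((chartAt E x).symm y)) (chartAt E x x) := fun x =>
    contDiffAt_comp_symm (IsManifold.chart_mem_maximalAtlas x) hf (mem_chart_target E x)
  have hcd2 : ∀ x : M, ContDiffAt ℝ 2
      (fun y => f ((chartAt E x).symm y)) (chartAt E x x) := fun x =>
    (hcd x).of_le (WithTop.coe_le_coe.2 (le_top : (2 : ℕ∞) ≤ ⊤))
  have hsymm : ∀ (x : M) (u v : E), D x u v = D x v u := by
    intro x u v
    have h := (hcd2 x).isSymmSndFDerivAt (by simp)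
    exact h u v
  let S : M → E → E → ℝ := fun x u v =>
    1 / (2 * Real.pi) * (D x u v + D x (Complex.I • u) (Complex.I • v))
  have hSadd : ∀ x u v w, S x (u + v) w = S x u w + S x v w := by
    intro x u v w
    simp only [S, smul_add, map_add, ContinuousLinearMap.add_apply]
    ring
  have hSsmul : ∀ x (a : ℝ) v w, S x ((a : ℂ) • v) w = a * S x v w := by
    intro x a v w
    have h1 : ((a : ℂ) • v : E) = a • v := (RCLike.real_smul_eq_coe_smul a v).symm
    have h2 : Complex.I • (a • v : E) = a • (Complex.I • v) := smul_comm _ _ _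
    simp only [S, h1, h2, map_smul, ContinuousLinearMap.smul_apply, smul_eq_mul]
    ring
  have hSsymm : ∀ x u v, S x u v = S x v u := by
    intro x u v
    simp only [S]
    rw [hsymm x u v, hsymm x (Complex.I • u)]
  have hSneg : ∀ x u v, S x u (-v) = - S x u v := by
    intro x u v
    simp only [S, smul_neg, map_neg]
    ring
  have hI : ∀ v : E, Complex.I • (Complex.I • v) = -v := by
    intro v
    rw [smul_smul, Complex.I_mul_I, neg_smul, one_smul]
  have hSI : ∀ x u v, S x (Complex.I • u) (Complex.I • v) = S x u v := by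
    intro x u v
    simp only [S, hI, map_neg, ContinuousLinearMap.neg_apply, neg_neg]
    ring
  let B : M → E → E → ℝ := fun x u v => - S x u (Complex.I • v)
  have hBadd : ∀ x (u v w : E), B x (u + v) w = B x u w + B x v w := by
    intro x u v w
    simp only [B, hSadd]
    ring
  have hBsmul : ∀ x (a : ℝ) (v w : E), B x ((a : ℂ) • v) w = a * B x v w := by
    intro x a v w
    simp only [B, hSsmul]
    ring
  have hBanti : ∀ x (v w : E), B x w v = - B x v w := by
    intro x v w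
    have h1 : S x w (Complex.I • v) = - S x v (Complex.I • w) := by
      rw [← hSI x w (Complex.I • v), hI, hSneg, hSsymm]
    simp only [B, h1]
  have hBinv : ∀ x (v w : E), B x (Complex.I • v) (Complex.I • w) = B x v w := by
    intro x v w
    simp only [B]
    rw [hSI]
  have hval0 : ∀ (x : M) (v : E), B x v (Complex.I • v) = S x v v := by
    intro x v
    simp only [B]
    rw [hI, hSneg, neg_neg]
  have hval : ∀ (x : M) (v : TangentSpace 𝓘(ℂ, E) x), B x v (J x v) = ddcForm f x v := by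
    intro x v
    have h1 : B x v (J x v) = S x v v := hval0 x v
    rw [h1]
    unfold ddcForm
    have h2 := lapK2_line (E := E) (v := v) (hcd2 x)
    exact congrArg (fun t => 1 / (2 * Real.pi) * t) h2.symm
  refine ⟨{ form := fun x u v => B x u v
            isForm11At := fun x =>
              { add_left := fun u v w => hBadd x u v w
                smul_left := fun a v w => hBsmul x a v w
                antisymm := fun v w => hBanti x v w
                inv := fun v w => hBinv x v w }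
            cont := ?_ }, fun x v => hval x v⟩
  · have hfun : (fun p : TangentBundle 𝓘(ℂ, E) M => B p.1 p.2 (J p.1 p.2)) =
        fun p => ddcForm f p.1 p.2 := by
      funext p
      exact hval p.1 p.2
    rw [hfun, continuous_iff_continuousAt]
    intro p₀
    set e := chartAt E p₀.1 with he
    have hem : e ∈ IsManifold.maximalAtlas 𝓘(ℂ, E) 1 M := IsManifold.chart_mem_maximalAtlas _
    have hopen : IsOpen {p : TangentBundle 𝓘(ℂ, E) M | p.1 ∈ e.source} :=
      e.open_source.preimage (FiberBundle.continuous_proj E (TangentSpace 𝓘(ℂ, E) (M := M)))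
    have hmem : p₀ ∈ {p : TangentBundle 𝓘(ℂ, E) M | p.1 ∈ e.source} := mem_chart_source E p₀.1
    have h1 := (contMDiffOn_of_mem_maximalAtlas hem).continuousOn_tangentMapWithin le_rfl
      e.open_source.uniqueMDiffOn
    have h2 : Continuous (tangentBundleModelSpaceHomeomorph 𝓘(ℂ, E)) :=
      (tangentBundleModelSpaceHomeomorph 𝓘(ℂ, E)).continuous
    have h3 := h2.comp_continuousOn h1
    have h4 : ContinuousOn (fun p : TangentBundle 𝓘(ℂ, E) M =>
        ((e p.1, chartDeriv (E := E) e p.1 p.2) : E × E)) {p | p.1 ∈ e.source} := by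
      refine h3.congr fun p hp => ?_
      show (e p.1, chartDeriv (E := E) e p.1 p.2) =
        (e p.1, mfderivWithin 𝓘(ℂ, E) 𝓘(ℂ, E) e e.source p.1 p.2)
      rw [mfderivWithin_of_isOpen e.open_source hp]
      rfl
    have h5 := h4.continuousAt (hopen.mem_nhds hmem)
    set g : E → ℝ := fun y => f (e.symm y) with hg
    have hgc : ∀ y ∈ e.target, ContDiffAt ℝ ((⊤ : ℕ∞) : WithTop ℕ∞) g y := fun y hy =>
      contDiffAt_comp_symm hem hf hy
    have h6 : ContinuousAt (fderiv ℝ (fderiv ℝ g)) (e p₀.1) := by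
      have h7 : ContDiffAt ℝ 2 g (e p₀.1) :=
        (hgc _ (e.map_source hmem)).of_le (WithTop.coe_le_coe.2 (le_top : (2 : ℕ∞) ≤ ⊤))
      have h8 : ContDiffAt ℝ 1 (fderiv ℝ g) (e p₀.1) := h7.fderiv_right (m := 1) (by norm_num)
      have h9 : ContDiffAt ℝ 0 (fderiv ℝ (fderiv ℝ g)) (e p₀.1) :=
        h8.fderiv_right (m := 0) (by norm_num)
      exact h9.continuousAt
    have h7 : ContinuousAt (fun q : E × E => 1 / (2 * Real.pi) *
        (fderiv ℝ (fderiv ℝ g) q.1 q.2 q.2 +
          fderiv ℝ (fderiv ℝ g) q.1 (Complex.I • q.2) (Complex.I • q.2)))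
        (e p₀.1, chartDeriv (E := E) e p₀.1 p₀.2) := by
      have h8 : ContinuousAt (fun q : E × E => fderiv ℝ (fderiv ℝ g) q.1)
          (e p₀.1, chartDeriv (E := E) e p₀.1 p₀.2) :=
        ContinuousAt.comp (f := fun q : E × E => q.1) (g := fderiv ℝ (fderiv ℝ g)) h6
          continuousAt_fst
      have h9 : ContinuousAt (fun q : E × E => q.2)
          (e p₀.1, chartDeriv (E := E) e p₀.1 p₀.2) := continuousAt_snd
      have h10 : ContinuousAt (fun q : E × E => Complex.I • q.2)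
          (e p₀.1, chartDeriv (E := E) e p₀.1 p₀.2) := h9.const_smul _
      exact continuousAt_const.mul (((h8.clm_apply h9).clm_apply h9).add
        ((h8.clm_apply h10).clm_apply h10))
    have h8 := ContinuousAt.comp (f := fun p : TangentBundle 𝓘(ℂ, E) M =>
      ((e p.1, chartDeriv (E := E) e p.1 p.2) : E × E)) h7 h5
    refine h8.congr ?_
    filter_upwards [hopen.mem_nhds hmem] with p hp
    exact (ddcForm_chart hf ⟨hem, hp⟩ p.2).symm

end Pool.Agent.Helper684.GX.Ergo
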