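import Pool.Agent.Helper684.GX.Ergo.Lap
set_option autoImplicit false

open Metric Set Filter Topology

namespace Pool.Agent.Helper684.GX.Ergo


theorem lap_aux_cd {U : ℂ → ℝ} {w : ℂ} (h : ContDiffAt ℝ 2 U w) (v : ℂ) :
    ContDiffAt ℝ 1 (fun z => fderiv ℝ U z v) w := by
  have h1 : ContDiffAt ℝ 1 (fderiv ℝ U) w := h.fderiv_right (by norm_num)
  exact h1.clm_apply contDiffAt_const

theorem lap_aux_diff {U : ℂ → ℝ} {w : ℂ} (h : ContDiffAt ℝ 2 U w) (v : ℂ) :
    DifferentiableAt ℝ (fun z => fderiv ℝ U z v) w :=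
  (lap_aux_cd h v).differentiableAt (by norm_num)

theorem lap_aux_ev {U : ℂ → ℝ} {w : ℂ} (h : ContDiffAt ℝ 2 U w) :
    ∀ᶠ z in 𝓝 w, DifferentiableAt ℝ U z := by
  filter_upwards [h.eventually (by simp)] with z hz
  exact hz.differentiableAt (by norm_num)

theorem lap_aux_congr {U V : ℂ → ℝ} {w : ℂ} (h : U =ᶠ[𝓝 w] V) (v : ℂ) :
    fderiv ℝ (fun z => fderiv ℝ U z v) w = fderiv ℝ (fun z => fderiv ℝ V z v) w := by
  have h1 : (fun z => fderiv ℝ U z v) =ᶠ[𝓝 w] (fun z => fderiv ℝ V z v) := by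
    filter_upwards [h.fderiv (𝕜 := ℝ)] with z hz
    rw [hz]
  exact h1.fderiv_eq

theorem lap_congr {U V : ℂ → ℝ} {w : ℂ} (h : U =ᶠ[𝓝 w] V) : lap U w = lap V w := by
  unfold lap
  rw [lap_aux_congr h, lap_aux_congr h]

theorem lap_aux_cont {U : ℂ → ℝ} {w : ℂ} (h : ContDiffAt ℝ 2 U w) (v : ℂ) :
    ContinuousAt (fun x => fderiv ℝ (fun z => fderiv ℝ U z v) x v) w := by
  have h1 : ContDiffAt ℝ 0 (fderiv ℝ (fun z => fderiv ℝ U z v)) w :=
    (lap_aux_cd h v).fderiv_right (by norm_num)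
  exact h1.continuousAt.clm_apply continuousAt_const

theorem continuousAt_lap {U : ℂ → ℝ} {w : ℂ} (h : ContDiffAt ℝ 2 U w) :
    ContinuousAt (lap U) w := by
  have : lap U = fun x => fderiv ℝ (fun z => fderiv ℝ U z 1) x 1 +
    fderiv ℝ (fun z => fderiv ℝ U z Complex.I) x Complex.I := rfl
  rw [this]
  exact (lap_aux_cont h 1).add (lap_aux_cont h Complex.I)

theorem lap_aux_add {U V : ℂ → ℝ} {w : ℂ} (hU : ContDiffAt ℝ 2 U w) (hV : ContDiffAt ℝ 2 V w)
    (v : ℂ) : fderiv ℝ (fun z => fderiv ℝ (fun z => U z + V z) z v) w v =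
      fderiv ℝ (fun z => fderiv ℝ U z v) w v + fderiv ℝ (fun z => fderiv ℝ V z v) w v := by
  have h1 : (fun z => fderiv ℝ (fun z => U z + V z) z v) =ᶠ[𝓝 w]
      (fun z => fderiv ℝ U z v + fderiv ℝ V z v) := by
    filter_upwards [lap_aux_ev hU, lap_aux_ev hV] with z hz1 hz2
    rw [fderiv_fun_add hz1 hz2]
    rfl
  rw [h1.fderiv_eq, fderiv_fun_add (lap_aux_diff hU v) (lap_aux_diff hV v)]
  rfl

theorem lap_add {U V : ℂ → ℝ} {w : ℂ} (hU : ContDiffAt ℝ 2 U w) (hV : ContDiffAt ℝ 2 V w) :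
    lap (fun z => U z + V z) w = lap U w + lap V w := by
  unfold lap
  rw [lap_aux_add hU hV, lap_aux_add hU hV]
  ring

theorem lap_aux_mul {U V : ℂ → ℝ} {w : ℂ} (hU : ContDiffAt ℝ 2 U w) (hV : ContDiffAt ℝ 2 V w)
    (v : ℂ) : fderiv ℝ (fun z => fderiv ℝ (fun z => U z * V z) z v) w v =
      U w * fderiv ℝ (fun z => fderiv ℝ V z v) w v + V w * fderiv ℝ (fun z => fderiv ℝ U z v) w v +
      2 * (fderiv ℝ U w v * fderiv ℝ V w v) := by
  have h1 : (fun z => fderiv ℝ (fun z => U z * V z) z v) =ᶠ[𝓝 w]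
      (fun z => U z * fderiv ℝ V z v + V z * fderiv ℝ U z v) := by
    filter_upwards [lap_aux_ev hU, lap_aux_ev hV] with z hz1 hz2
    rw [fderiv_fun_mul hz1 hz2]
    simp
  have hUd : DifferentiableAt ℝ U w := hU.differentiableAt (by norm_num)
  have hVd : DifferentiableAt ℝ V w := hV.differentiableAt (by norm_num)
  rw [h1.fderiv_eq, fderiv_fun_add (hUd.fun_mul (lap_aux_diff hV v))
    (hVd.fun_mul (lap_aux_diff hU v)), fderiv_fun_mul hUd (lap_aux_diff hV v),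
    fderiv_fun_mul hVd (lap_aux_diff hU v)]
  simp only [add_apply, smul_apply, smul_eq_mul]
  ring

theorem lap_const_mul {U : ℂ → ℝ} {w : ℂ} (a : ℝ) (hU : ContDiffAt ℝ 2 U w) :
    lap (fun z => a * U z) w = a * lap U w := by
  have h1 : ∀ v, fderiv ℝ (fun z => fderiv ℝ (fun z => a * U z) z v) w v =
      a * fderiv ℝ (fun z => fderiv ℝ U z v) w v := by
    intro v
    have := lap_aux_mul (U := fun _ => a) contDiffAt_const hU v
    rw [this]
    simp
  unfold lap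
  rw [h1, h1]
  ring

theorem lap_const_sub {U : ℂ → ℝ} {w : ℂ} (a : ℝ) (hU : ContDiffAt ℝ 2 U w) :
    lap (fun z => a - U z) w = - lap U w := by
  have h2 : ∀ v, fderiv ℝ (fun z => fderiv ℝ (fun z => a - U z) z v) w v =
      - fderiv ℝ (fun z => fderiv ℝ U z v) w v := by
    intro v
    have h1 : (fun z => fderiv ℝ (fun z => a - U z) z v) =ᶠ[𝓝 w]
        (fun z => -fderiv ℝ U z v) := by
      filter_upwards [lap_aux_ev hU] with z hz1
      rw [fderiv_const_sub]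
      rfl
    rw [h1.fderiv_eq, fderiv_fun_neg]
    rfl
  unfold lap
  rw [h2, h2]
  ring

theorem abs_lap_mul_sub {U V : ℂ → ℝ} {w : ℂ} (hU : ContDiffAt ℝ 2 U w)
    (hV : ContDiffAt ℝ 2 V w) :
    |lap (fun z => U z * V z) w - (U w * lap V w + V w * lap U w)| ≤
      4 * (‖fderiv ℝ U w‖ * ‖fderiv ℝ V w‖) := by
  unfold lap
  rw [lap_aux_mul hU hV, lap_aux_mul hU hV]
  have hb : ∀ (W : ℂ → ℝ) (v : ℂ), ‖v‖ = 1 → |fderiv ℝ W w v| ≤ ‖fderiv ℝ W w‖ := by
    intro W v hv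
    have := (fderiv ℝ W w).le_opNorm v
    rwa [hv, mul_one] at this
  have key : ∀ v : ℂ, ‖v‖ = 1 → |fderiv ℝ U w v * fderiv ℝ V w v| ≤
      ‖fderiv ℝ U w‖ * ‖fderiv ℝ V w‖ := by
    intro v hv
    rw [abs_mul]
    exact mul_le_mul (hb U v hv) (hb V v hv) (abs_nonneg _) (norm_nonneg _)
  have k1 := abs_le.1 (key 1 (by simp))
  have k2 := abs_le.1 (key Complex.I (by simp))
  rw [abs_le]
  constructor
  · nlinarith [k1.1, k2.1]
  · nlinarith [k1.2, k2.2]

theorem lap_aux_comp {χ : ℝ → ℝ} {U : ℂ → ℝ} {w : ℂ} (hχ : ContDiffAt ℝ 2 χ (U w))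
    (hU : ContDiffAt ℝ 2 U w) (v : ℂ) :
    fderiv ℝ (fun z => fderiv ℝ (fun z => χ (U z)) z v) w v =
      deriv χ (U w) * fderiv ℝ (fun z => fderiv ℝ U z v) w v +
      deriv (deriv χ) (U w) * (fderiv ℝ U w v) ^ 2 := by
  have hχe : ∀ᶠ t in 𝓝 (U w), DifferentiableAt ℝ χ t := by
    filter_upwards [hχ.eventually (by simp)] with z hz
    exact hz.differentiableAt (by norm_num)
  have hχe' := hU.continuousAt.eventually hχe
  have h1 : (fun z => fderiv ℝ (fun z => χ (U z)) z v) =ᶠ[𝓝 w]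
      (fun z => deriv χ (U z) * fderiv ℝ U z v) := by
    filter_upwards [lap_aux_ev hU, hχe'] with z hz1 hz2
    have h3 := (hz2.hasDerivAt.comp_hasFDerivAt z hz1.hasFDerivAt).fderiv
    have h4 : (fun z => χ (U z)) = χ ∘ U := rfl
    rw [h4, h3]
    simp
  have hd2 : DifferentiableAt ℝ (deriv χ) (U w) := by
    have h5 : ContDiffAt ℝ 1 (deriv χ) (U w) := by
      have h6 : ContDiffAt ℝ 1 (fderiv ℝ χ) (U w) := hχ.fderiv_right (by norm_num)
      have h7 : ContDiffAt ℝ 1 (fun t => fderiv ℝ χ t 1) (U w) := h6.clm_apply contDiffAt_const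
      have h8 : (fun t => fderiv ℝ χ t 1) = deriv χ := by
        funext t
        exact fderiv_apply_one_eq_deriv
      rwa [h8] at h7
    exact h5.differentiableAt (by norm_num)
  have hUd : DifferentiableAt ℝ U w := hU.differentiableAt (by norm_num)
  have h9 := hd2.hasDerivAt.comp_hasFDerivAt w hUd.hasFDerivAt
  have h10 : DifferentiableAt ℝ (fun z => deriv χ (U z)) w := h9.differentiableAt
  have h11 : fderiv ℝ (fun z => deriv χ (U z)) w = deriv (deriv χ) (U w) • fderiv ℝ U w :=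
    h9.fderiv
  rw [h1.fderiv_eq, fderiv_fun_mul h10 (lap_aux_diff hU v), h11]
  simp only [add_apply, smul_apply, smul_eq_mul]
  ring

/-- second derivative test for a composition with a function of one variable -/
theorem lap_comp_real {χ : ℝ → ℝ} {U : ℂ → ℝ} {w : ℂ} (hχ : ContDiffAt ℝ 2 χ (U w))
    (hU : ContDiffAt ℝ 2 U w) :
    lap (fun z => χ (U z)) w = deriv χ (U w) * lap U w +
      deriv (deriv χ) (U w) * ((fderiv ℝ U w 1) ^ 2 + (fderiv ℝ U w Complex.I) ^ 2) := by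
  unfold lap
  rw [lap_aux_comp hχ hU, lap_aux_comp hχ hU]
  ring

end Pool.Agent.Helper684.GX.Ergo
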