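import Mathlib

/-!
Kernels on the unit disc.
-/

set_option autoImplicit false

open MeasureTheory Metric Set Filter Topology
open scoped ComplexConjugate ENNReal

namespace Pool.Agent.Helper684.GX.Ergo

/-- `h(z,w) = (1-|z|²)(1-|w|²)/|1-z̄w|²`, a function of the hyperbolic distance of `z` and `w`. -/
noncomputable def hh (z w : ℂ) : ℝ :=
  (1 - ‖z‖ ^ 2) * (1 - ‖w‖ ^ 2) / ‖1 - conj z * w‖ ^ 2

/-- disc automorphism -/
noncomputable def mob (a z : ℂ) : ℂ := (z + a) / (1 + conj a * z)

/-- hyperbolic area of the unit disc -/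
noncomputable def hypVol : Measure ℂ :=
  (volume.restrict (ball 0 1)).withDensity (fun w => ENNReal.ofReal (1 / (1 - ‖w‖ ^ 2) ^ 2))

/-- the Green kernel of the disc of radius `√x`, as a function of `u = 1-|w|²` -/
noncomputable def gK (x u : ℝ) : ℝ := max 0 (Real.log x - Real.log (1 - u))

/-- its average, as a function of `u = 1-|w|²` -/
noncomputable def gT (x u : ℝ) : ℝ := x * u ^ 2 / (1 - x * (1 - u))

/-- local logarithmic kernel -/
noncomputable def lK (u : ℝ) : ℝ := if 1 / 2 < u then - Real.log (1 - u) else 0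

/-- superposition of the kernels `gK` -/
noncomputable def thK (η u : ℝ) : ℝ≥0∞ :=
  ∫⁻ v in Ioo (0 : ℝ) 1, ENNReal.ofReal (gK (1 - v) u) * ENNReal.ofReal (η * v ^ (η - 1))

/-- superposition of the kernels `gT` -/
noncomputable def thT (η u : ℝ) : ℝ≥0∞ :=
  ∫⁻ v in Ioo (0 : ℝ) 1, ENNReal.ofReal (gT (1 - v) u) * ENNReal.ofReal (η * v ^ (η - 1))

end Pool.Agent.Helper684.GX.Ergo
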