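import Pool.Agent.Helper684.GX.Ergo.Leaf
import Pool.Agent.Helper684.GX.Ergo.Holo

attribute [local instance] Pool.Agent.Helper684.GX.Nev.leafInst

set_option autoImplicit false


open scoped Manifold
open Metric MeasureTheory Set Filter Topology
open Pool.Agent.Helper684.GX.Nev

namespace Pool.Agent.Helper684.GX.Ergo

variable {E M : Type*} [NormedAddCommGroup E] [NormedSpace ℂ E] [TopologicalSpace M]
  [ChartedSpace E M] [IsManifold 𝓘(ℂ, E) 1 M]

/-- the coordinate change is real smooth -/
theorem contDiffOn_real_of_charts [CompleteSpace E] {e e' : OpenPartialHomeomorph M E}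
    (he : e ∈ IsManifold.maximalAtlas 𝓘(ℂ, E) 1 M)
    (he' : e' ∈ IsManifold.maximalAtlas 𝓘(ℂ, E) 1 M) [FiniteDimensional ℂ E] :
    ContDiffOn ℝ ((⊤ : ℕ∞) : WithTop ℕ∞) (e.symm.trans e') (e.symm.trans e').source := by
  have h := (contDiffGroupoid 1 𝓘(ℂ, E)).compatible_of_mem_maximalAtlas he he'
  have h1 := (mem_groupoid_of_pregroupoid.1 h).1
  have h2 : ContDiffOn ℂ 1 (e.symm.trans e') (e.symm.trans e').source := by
    simpa [contDiffPregroupoid] using h1
  have h3 : DifferentiableOn ℂ (e.symm.trans e') (e.symm.trans e').source :=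
    h2.differentiableOn (by norm_num)
  have h4 : ContDiffOn ℂ ((⊤ : ℕ∞) : WithTop ℕ∞) (e.symm.trans e') (e.symm.trans e').source := by
    rw [contDiffOn_infty]
    intro n
    exact Holo.contDiffOn_of_differentiableOn (e.symm.trans e').open_source h3 n
  exact h4.restrict_scalars ℝ

/-- extension by zero of a smooth compactly supported function in a holomorphic chart -/
theorem contMDiff_extend [FiniteDimensional ℂ E] [T2Space M] {e : OpenPartialHomeomorph M E}
    (he : e ∈ IsManifold.maximalAtlas 𝓘(ℂ, E) 1 M) {g : E → ℝ}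
    (hg : ContDiff ℝ ((⊤ : ℕ∞) : WithTop ℕ∞) g) (hc : HasCompactSupport g)
    (hs : tsupport g ⊆ e.target) :
    ContMDiff 𝓘(ℝ, E) 𝓘(ℝ, ℝ) ((⊤ : ℕ∞) : WithTop ℕ∞)
      (fun x => open Classical in if x ∈ e.source then g (e x) else 0) := by
  classical
  haveI : CompleteSpace E := FiniteDimensional.complete ℂ E
  intro x
  by_cases hx : x ∈ e.source
  · have h1 : ContMDiffAt 𝓘(ℝ, E) 𝓘(ℝ, ℝ) ((⊤ : ℕ∞) : WithTop ℕ∞) (fun y => g (e y)) x := by
      rw [contMDiffAt_iff]
      refine ⟨?_, ?_⟩
      · exact hg.continuous.continuousAt.comp (e.continuousAt hx)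
      · have hch : chartAt E x ∈ IsManifold.maximalAtlas 𝓘(ℂ, E) 1 M :=
          IsManifold.chart_mem_maximalAtlas x
        have h2 := contDiffOn_real_of_charts hch he
        have hmem : chartAt E x x ∈ ((chartAt E x).symm.trans e).source := by
          rw [OpenPartialHomeomorph.trans_source]
          refine ⟨mem_chart_target E x, ?_⟩
          show (chartAt E x).symm (chartAt E x x) ∈ e.source
          rw [(chartAt E x).left_inv (mem_chart_source E x)]
          exact hx
        have h3 : ContDiffAt ℝ ((⊤ : ℕ∞) : WithTop ℕ∞) ((chartAt E x).symm.trans e) (chartAt E x x) :=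
          h2.contDiffAt (((chartAt E x).symm.trans e).open_source.mem_nhds hmem)
        have h4 : ContDiffAt ℝ ((⊤ : ℕ∞) : WithTop ℕ∞) (fun z => g (((chartAt E x).symm.trans e) z))
            (chartAt E x x) := hg.contDiffAt.comp _ h3
        have h5 := h4.contDiffWithinAt (s := Set.range 𝓘(ℝ, E))
        exact h5
    apply h1.congr_of_eventuallyEq
    filter_upwards [e.open_source.mem_nhds hx] with y hy
    rw [if_pos hy]
  · have hK : IsCompact (e.symm '' tsupport g) :=
      hc.isCompact.image_of_continuousOn (e.continuousOn_symm.mono hs)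
    have hxK : x ∉ e.symm '' tsupport g := by
      rintro ⟨z, hz, rfl⟩
      exact hx (e.map_target (hs hz))
    apply (contMDiffAt_const (c := (0 : ℝ))).congr_of_eventuallyEq
    filter_upwards [hK.isClosed.isOpen_compl.mem_nhds hxK] with y hy
    split_ifs with h
    · by_contra hne
      apply hy
      refine ⟨e y, subset_tsupport _ hne, e.left_inv h⟩
    · rfl

end Pool.Agent.Helper684.GX.Ergo
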