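import Pool.Agent.Helper684.GX.Ergo.Leaf

attribute [local instance] Pool.Agent.Helper684.GX.Nev.leafInst

set_option autoImplicit false


open scoped Manifold
open Metric MeasureTheory Set Filter Topology
open Pool.Agent.Helper684.GX.Nev

namespace Pool.Agent.Helper684.GX.Ergo

variable {E M : Type*} [NormedAddCommGroup E] [NormedSpace ℂ E] [TopologicalSpace M]
  [ChartedSpace E M] [IsManifold 𝓘(ℂ, E) 1 M]

/-- the tangent vectors of the foliation at a regular point form a complex line -/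
theorem exists_smul_of_dir {F : Foliation E M} {x : M} (hx : x ∉ F.sing)
    {v w : TangentSpace 𝓘(ℂ, E) x} (hv : v ∈ F.dir x) (hv0 : v ≠ 0) (hw : w ∈ F.dir x) :
    ∃ c : ℂ, w = c • v := by
  obtain ⟨e, he, u, hu, hgen⟩ := F.flowBox x hx
  have hx2 := (hgen x he.2).2 hx
  obtain ⟨a, ha⟩ := (hx2 v).1 hv
  obtain ⟨b, hb⟩ := (hx2 w).1 hw
  have hne := chartDeriv_ne_zero he hv0
  have ha0 : a ≠ 0 := by
    rintro rfl
    rw [zero_smul] at ha
    exact hne ha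
  refine ⟨b * a⁻¹, ?_⟩
  by_contra hne2
  have h1 : w - (b * a⁻¹) • v ≠ 0 := sub_ne_zero.2 hne2
  apply chartDeriv_ne_zero he h1
  have h2 : chartDeriv e x (w - (b * a⁻¹) • v) =
      chartDeriv e x w - (b * a⁻¹) • chartDeriv e x v := by
    unfold chartDeriv
    have h3 := (mfderiv 𝓘(ℂ, E) 𝓘(ℂ, E) e x).map_sub w ((b * a⁻¹) • v)
    have h4 := (mfderiv 𝓘(ℂ, E) 𝓘(ℂ, E) e x).map_smul (b * a⁻¹) v
    rw [h4] at h3
    exact h3
  rw [h2, ha, hb, smul_smul, mul_assoc, inv_mul_cancel₀ ha0, mul_one, sub_self]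

theorem smul_mem_dir {F : Foliation E M} {x : M} (hx : x ∉ F.sing)
    {v : TangentSpace 𝓘(ℂ, E) x} (hv : v ∈ F.dir x) (c : ℂ) : c • v ∈ F.dir x := by
  obtain ⟨e, he, u, hu, hgen⟩ := F.flowBox x hx
  have hx2 := (hgen x he.2).2 hx
  obtain ⟨a, ha⟩ := (hx2 v).1 hv
  refine (hx2 _).2 ⟨c * a, ?_⟩
  have h4 : chartDeriv e x (c • v) = c • chartDeriv e x v :=
    (mfderiv 𝓘(ℂ, E) 𝓘(ℂ, E) e x).map_smul c v
  rw [h4, ha, smul_smul]

/-- `leafQuot` does not depend on the tangent vector -/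
theorem leafQuot_eq (ω : PosForm E M) {F : Foliation E M}
    {q : ∀ x : M, TangentSpace 𝓘(ℂ, E) x → ℝ} {x : M}
    (hq : ∀ (c : ℂ) (v : TangentSpace 𝓘(ℂ, E) x), q x (c • v) = ‖c‖ ^ 2 * q x v)
    (hx : x ∉ F.sing) {v : TangentSpace 𝓘(ℂ, E) x} (hv : v ∈ F.dir x) (hv0 : v ≠ 0) :
    leafQuot ω F q x = q x v / ω.form x v (J x v) := by
  classical
  have h : x ∉ F.sing ∧ ∃ v, v ∈ F.dir x ∧ v ≠ 0 := ⟨hx, v, hv, hv0⟩
  have h1 : leafQuot ω F q x = q x h.2.choose / ω.form x h.2.choose (J x h.2.choose) := by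
    unfold leafQuot
    rw [dif_pos h]
  rw [h1]
  obtain ⟨hw, hw0⟩ := h.2.choose_spec
  set w := h.2.choose with hwdef
  obtain ⟨c, hc⟩ := exists_smul_of_dir hx hv hv0 hw
  have hc0 : c ≠ 0 := by
    rintro rfl
    rw [zero_smul] at hc
    exact hw0 hc
  have h2 : ω.form x (c • v) (J x (c • v)) = ‖c‖ ^ 2 * ω.form x v (J x v) := qf_smul ω x c v
  rw [hc, hq, h2]
  have h3 : (‖c‖ ^ 2 : ℝ) ≠ 0 := pow_ne_zero 2 (norm_ne_zero_iff.2 hc0)
  rw [mul_div_mul_left _ _ h3]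

/-- the quadratic function of a `(1,1)`-form -/
theorem form11_smul (θ : Form11 E M) (x : M) (c : ℂ) (v : TangentSpace 𝓘(ℂ, E) x) :
    θ.form x (c • v) (J x (c • v)) = ‖c‖ ^ 2 * θ.form x v (J x v) := by
  have h := θ.isForm11At x
  have hadd : ∀ u v w : TangentSpace 𝓘(ℂ, E) x,
      θ.form x u (v + w) = θ.form x u v + θ.form x u w := by
    intro u v w
    rw [h.antisymm (v + w) u, h.add_left, h.antisymm v u, h.antisymm w u]
    ring
  have hsm : ∀ (a : ℝ) (v w : TangentSpace 𝓘(ℂ, E) x),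
      θ.form x v ((a : ℂ) • w) = a * θ.form x v w := by
    intro a v w
    rw [h.antisymm ((a : ℂ) • w) v, h.smul_left, h.antisymm w v]
    ring
  have h0 : c • v = (c.re : ℂ) • v + (c.im : ℂ) • J x v := by
    show c • v = (c.re : ℂ) • v + (c.im : ℂ) • (Complex.I • v)
    rw [smul_smul, ← add_smul, Complex.re_add_im]
  have h1 : J x (c • v) = (c.re : ℂ) • J x v + ((-c.im : ℝ) : ℂ) • v := by
    show Complex.I • (c • v) = (c.re : ℂ) • (Complex.I • v) + ((-c.im : ℝ) : ℂ) • v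
    rw [smul_smul, smul_smul, ← add_smul]
    congr 1
    apply Complex.ext <;> simp
  rw [h1]
  have h2 : θ.form x (c • v) ((c.re : ℂ) • J x v + ((-c.im : ℝ) : ℂ) • v) =
      θ.form x ((c.re : ℂ) • v + (c.im : ℂ) • J x v)
        ((c.re : ℂ) • J x v + ((-c.im : ℝ) : ℂ) • v) := by
    rw [← h0]
  rw [h2, h.add_left, hadd, hadd, h.smul_left, h.smul_left, h.smul_left,
    h.smul_left, hsm, hsm, hsm, hsm]
  have h3 : θ.form x v v = 0 := by
    have := h.antisymm v v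
    linarith
  have h4 : θ.form x (J x v) (J x v) = 0 := by
    have := h.antisymm (J x v) (J x v)
    linarith
  have h5 : θ.form x (J x v) v = - θ.form x v (J x v) := h.antisymm v (J x v)
  rw [h3, h4, h5, ← Complex.normSq_eq_norm_sq, Complex.normSq_apply]
  ring

theorem pull11_eq (θ : Form11 E M) (φ : ℂ → M) (ξ : ℂ) :
    pull11 θ φ ξ = θ.form (φ ξ) (discDeriv φ ξ 1) (J (φ ξ) (discDeriv φ ξ 1)) := by
  unfold pull11
  have h : (discDeriv φ ξ Complex.I : TangentSpace 𝓘(ℂ, E) (φ ξ)) =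
      J (φ ξ) (discDeriv φ ξ 1) := by
    have := discDeriv_smul (E := E) φ ξ Complex.I 1
    rw [mul_one] at this
    exact this
  rw [h]

/-- on a tangent disc, `φ^* θ = (θ/ω) φ^* ω` -/
theorem pull11_eq_leafQuot (ω : PosForm E M) {F : Foliation E M} (θ : Form11 E M) {φ : ℂ → M}
    (hφ : F.IsTangentDisc φ) {ξ : ℂ} (hξ : ξ ∈ ball (0 : ℂ) 1)
    (h0 : discDeriv (E := E) φ ξ 1 ≠ 0) :
    pull11 θ φ ξ = leafQuot ω F (fun x v => θ.form x v (J x v)) (φ ξ) * pullback ω φ ξ := by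
  obtain ⟨h1, h2⟩ := hφ.2 ξ hξ
  have h3 := leafQuot_eq (F := F) ω (q := fun x v => θ.form x v (J x v))
    (fun c v => form11_smul θ (φ ξ) c v) h1 h2 h0
  have h4 : 0 < qf ω (φ ξ) (discDeriv (E := E) φ ξ 1) := qf_pos ω (φ ξ) h0
  have h5 : ω.form (φ ξ) (discDeriv φ ξ 1) (J (φ ξ) (discDeriv φ ξ 1)) =
      qf ω (φ ξ) (discDeriv (E := E) φ ξ 1) := rfl
  rw [h3, pull11_eq, pullback_eq, h5, div_mul_cancel₀ _ h4.ne']

/-- the pulled back density of an immersed disc is positive -/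
theorem pullback_pos (ω : PosForm E M) {φ : ℂ → M} {ξ : ℂ}
    (h0 : discDeriv (E := E) φ ξ 1 ≠ 0) : 0 < pullback ω φ ξ := by
  rw [pullback_eq]
  exact qf_pos ω (φ ξ) h0

end Pool.Agent.Helper684.GX.Ergo
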