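import Pool.Agent.Helper684.GX.Ergo.Leaf
import Pool.Agent.Helper684.GX.Ergo.M1
import Pool.Agent.Helper684.GX.Ergo.M2p
import Pool.Agent.Helper684.GX.Ergo.M3
import Pool.Agent.Helper684.GX.Ergo.Calc1
import Pool.Agent.Helper684.GX.Ergo.Calc2
import Pool.Agent.Helper684.GX.Ergo.Cover

attribute [local instance] Pool.Agent.Helper684.GX.Nev.leafInst

set_option autoImplicit false


open scoped Manifold
open Metric MeasureTheory Set Filter Topology
open Pool.Agent.Helper684.GX.Nev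

namespace Pool.Agent.Helper684.GX.Ergo

variable {E M : Type*} [NormedAddCommGroup E] [NormedSpace ℂ E] [TopologicalSpace M]
  [ChartedSpace E M] [IsManifold 𝓘(ℂ, E) 1 M]

/-- bump functions on `M`: equal to `1` near `x₀`, compactly supported in the open set `U`,
smooth along the coverings with bounds relative to `ω` -/
theorem exists_bump [FiniteDimensional ℂ E] [T2Space M] [CompactSpace M] [MeasurableSpace M]
    [BorelSpace M] (ω : PosForm E M) (F : Foliation E M) {x₀ : M} {U : Set M} (hU : IsOpen U)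
    (hx₀ : x₀ ∈ U) :
    ∃ (θ : M → ℝ) (S V : Set M) (C : ℝ), Measurable θ ∧ IsCompact S ∧ S ⊆ U ∧ IsOpen V ∧ x₀ ∈ V ∧
      (∀ x ∈ V, θ x = 1) ∧ (∀ x ∉ S, θ x = 0) ∧ (∀ x, 0 ≤ θ x ∧ θ x ≤ 1) ∧
      ∀ φ : ℂ → M, F.IsUniversalCovering φ → ContDiffOn ℝ 2 (fun z => θ (φ z)) (ball 0 1) ∧
        |lap (fun z => θ (φ z)) 0| ≤ C * pullback ω φ 0 ∧
        ‖fderiv ℝ (fun z => θ (φ z)) 0‖ ^ 2 ≤ C * pullback ω φ 0 := by
  classical
  haveI : ProperSpace E := FiniteDimensional.proper ℂ E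
  haveI : CompleteSpace E := FiniteDimensional.complete ℂ E
  haveI : FiniteDimensional ℝ E := FiniteDimensional.complexToReal E
  set e := chartAt E x₀ with he
  have heC : e ∈ IsManifold.maximalAtlas 𝓘(ℂ, E) 1 M := IsManifold.chart_mem_maximalAtlas _
  have hsrc : x₀ ∈ e.source := mem_chart_source E x₀
  have hW : IsOpen (e.target ∩ e.symm ⁻¹' U) := e.isOpen_inter_preimage_symm hU
  have hy₀ : e x₀ ∈ e.target ∩ e.symm ⁻¹' U := by
    refine ⟨e.map_source hsrc, ?_⟩
    show e.symm (e x₀) ∈ U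
    rw [e.left_inv hsrc]; exact hx₀
  obtain ⟨r, hr, hrW⟩ := Metric.nhds_basis_closedBall.mem_iff.1 (hW.mem_nhds hy₀)
  let β : ContDiffBump (e x₀) := ⟨r / 2, r, by positivity, by linarith⟩
  have hβs : ContDiff ℝ ((⊤ : ℕ∞) : WithTop ℕ∞) (β : E → ℝ) := β.contDiff
  have hts : tsupport (β : E → ℝ) = closedBall (e x₀) r := β.tsupport_eq
  have hT : closedBall (e x₀) r ⊆ e.target := fun y hy => (hrW hy).1
  have hθ := contMDiff_extend (M := M) heC hβs β.hasCompactSupport (by rw [hts]; exact hT)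
  set θ : M → ℝ := fun x => if x ∈ e.source then β (e x) else 0 with hθd
  have hK : IsCompact (closedBall (e x₀) r) := isCompact_closedBall _ _
  set S : Set M := e.symm '' closedBall (e x₀) r with hS
  have hSc : IsCompact S := hK.image_of_continuousOn (e.continuousOn_symm.mono hT)
  obtain ⟨c, hc, hcQ⟩ := exists_Qe_ge ω heC hK hT
  have hD1c : ContinuousOn (fun y => ‖fderiv ℝ (β : E → ℝ) y‖) (closedBall (e x₀) r) :=
    ((hβs.continuous_fderiv (by simp)).norm).continuousOn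
  have hD2c : ContinuousOn (fun y => ‖fderiv ℝ (fderiv ℝ (β : E → ℝ)) y‖) (closedBall (e x₀) r) := by
    have h1 : ContDiff ℝ 1 (fderiv ℝ (β : E → ℝ)) := by
      have : ContDiff ℝ 2 (β : E → ℝ) := β.contDiff
      exact this.fderiv_right (by norm_num)
    exact ((h1.continuous_fderiv (by simp)).norm).continuousOn
  obtain ⟨D1, hD1⟩ := hK.bddAbove_image hD1c
  obtain ⟨D2, hD2⟩ := hK.bddAbove_image hD2c
  have hD1' : ∀ y ∈ closedBall (e x₀) r, ‖fderiv ℝ (β : E → ℝ) y‖ ≤ D1 := fun y hy => hD1 ⟨y, hy, rfl⟩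
  have hD2' : ∀ y ∈ closedBall (e x₀) r, ‖fderiv ℝ (fderiv ℝ (β : E → ℝ)) y‖ ≤ D2 := fun y hy => hD2 ⟨y, hy, rfl⟩
  have hyc : e x₀ ∈ closedBall (e x₀) r := mem_closedBall_self hr.le
  have hD10 : 0 ≤ D1 := (norm_nonneg _).trans (hD1' _ hyc)
  have hD20 : 0 ≤ D2 := le_trans (ContinuousLinearMap.opNorm_nonneg _) (hD2' _ hyc)
  have hθ0 : ∀ x ∉ S, θ x = 0 := by
    intro x hx
    by_cases hxs : x ∈ e.source
    · have h1 : e x ∉ closedBall (e x₀) r := fun h => hx ⟨e x, h, e.left_inv hxs⟩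
      have h2 : e x ∉ Function.support (β : E → ℝ) := by
        rw [β.support_eq]
        intro h
        exact h1 (ball_subset_closedBall h)
      simp only [hθd, hxs, if_true]
      exact Function.notMem_support.1 h2
    · simp only [hθd, hxs, if_false]
  refine ⟨θ, S, e.source ∩ e ⁻¹' ball (e x₀) (r / 2), 2 * D2 / c + D1 ^ 2 / c, ?_, hSc, ?_, ?_, ?_, ?_, hθ0, ?_, ?_⟩
  · exact hθ.continuous.measurable
  · rintro _ ⟨y, hy, rfl⟩
    exact (hrW hy).2
  · exact e.isOpen_inter_preimage isOpen_ball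
  · exact ⟨hsrc, mem_ball_self (by positivity)⟩
  · rintro x ⟨hx1, hx2⟩
    simp only [hθd, hx1, if_true]
    exact β.one_of_mem_closedBall (ball_subset_closedBall hx2)
  · intro x
    by_cases hxs : x ∈ e.source
    · simp only [hθd, hxs, if_true]
      exact ⟨β.nonneg, β.le_one⟩
    · simp only [hθd, hxs, if_false]
      exact ⟨le_rfl, zero_le_one⟩
  · intro φ hφ
    have hz0 : (0 : ℂ) ∈ ball (0 : ℂ) 1 := mem_ball_self one_pos
    have hpn := pullback_nonneg ω φ 0
    refine ⟨fun z hz => (lap_comp_disc' hθ hφ.tangent.1 hz).1.contDiffWithinAt, ?_⟩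
    by_cases hφS : φ 0 ∈ S
    · obtain ⟨y, hy, hy'⟩ := hφS
      have hφsrc : φ 0 ∈ e.source := by rw [← hy']; exact e.map_target (hT hy)
      have hey : e (φ 0) = y := by rw [← hy']; exact e.right_inv (hT hy)
      have hch : IsHolChartAt e (φ 0) := ⟨heC, hφsrc⟩
      have hana : AnalyticAt ℂ (fun z => e (φ z)) 0 :=
        analyticAt_chart (fun z hz => hφ.tangent.mdiffAt hz) hz0 hch
      have heq : (fun z => θ (φ z)) =ᶠ[𝓝 0] (fun z => (β : E → ℝ) (e (φ z))) := by
        filter_upwards [(hφ.tangent.contAt hz0).preimage_mem_nhds (e.open_source.mem_nhds hφsrc)] with z hz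
        have hz' : φ z ∈ e.source := hz
        simp only [hθd, hz', if_true]
      have hpb := pullback_chart ω (hφ.tangent.mdiffAt hz0) hch
      have hge : c * ‖deriv (fun z => e (φ z)) 0‖ ^ 2 ≤ pullback ω φ 0 := by
        rw [hpb]
        exact hcQ _ (by rw [hey]; exact hy) _
      have hn2 : ‖deriv (fun z => e (φ z)) 0‖ ^ 2 ≤ pullback ω φ 0 / c := by
        rw [le_div_iff₀ hc, mul_comm]; exact hge
      have hβ2 : ContDiffAt ℝ 2 (β : E → ℝ) (e (φ 0)) := β.contDiff.contDiffAt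
      have hpc : 0 ≤ pullback ω φ 0 / c := div_nonneg hpn hc.le
      have hsplit : (2 * D2 / c + D1 ^ 2 / c) * pullback ω φ 0 =
          2 * D2 * (pullback ω φ 0 / c) + D1 ^ 2 * (pullback ω φ 0 / c) := by ring
      have ha : 0 ≤ 2 * D2 * (pullback ω φ 0 / c) := by positivity
      have hb : 0 ≤ D1 ^ 2 * (pullback ω φ 0 / c) := by positivity
      constructor
      · rw [lap_congr heq, lap_comp_curve hβ2 hana]
        have h1 := abs_lap_line_le (y := e (φ 0)) (v := deriv (fun z => e (φ z)) 0) hβ2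
        refine h1.trans ?_
        rw [hsplit]
        have h2 : ‖fderiv ℝ (fderiv ℝ (β : E → ℝ)) (e (φ 0))‖ ≤ D2 := hD2' _ (by rw [hey]; exact hy)
        have h3 : 2 * ‖fderiv ℝ (fderiv ℝ (β : E → ℝ)) (e (φ 0))‖ * ‖deriv (fun z => e (φ z)) 0‖ ^ 2 ≤
            2 * D2 * (pullback ω φ 0 / c) := by
          refine mul_le_mul ?_ hn2 (by positivity) (by positivity)
          linarith
        linarith
      · rw [heq.fderiv_eq]
        have hβd : DifferentiableAt ℝ (β : E → ℝ) (e (φ 0)) := hβ2.differentiableAt (by norm_num)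
        have hdC : DifferentiableAt ℂ (fun z => e (φ z)) 0 := hana.differentiableAt
        have hdR : DifferentiableAt ℝ (fun z => e (φ z)) 0 := hdC.restrictScalars ℝ
        have h1 : fderiv ℝ (fun z => (β : E → ℝ) (e (φ z))) 0 =
            (fderiv ℝ (β : E → ℝ) (e (φ 0))).comp (fderiv ℝ (fun z => e (φ z)) 0) :=
          fderiv_comp (𝕜 := ℝ) (g := (β : E → ℝ)) (f := fun z => e (φ z)) 0 hβd hdR
        have h2 : ‖fderiv ℝ (fun z => e (φ z)) 0‖ = ‖deriv (fun z => e (φ z)) 0‖ := by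
          rw [hdC.fderiv_restrictScalars ℝ, ContinuousLinearMap.norm_restrictScalars, norm_deriv_eq_norm_fderiv]
        have h3 : ‖fderiv ℝ (fun z => (β : E → ℝ) (e (φ z))) 0‖ ≤ D1 * ‖deriv (fun z => e (φ z)) 0‖ := by
          rw [h1, ← h2]
          refine (ContinuousLinearMap.opNorm_comp_le _ _).trans ?_
          exact mul_le_mul_of_nonneg_right (hD1' _ (by rw [hey]; exact hy)) (norm_nonneg _)
        have h4 : ‖fderiv ℝ (fun z => (β : E → ℝ) (e (φ z))) 0‖ ^ 2 ≤ D1 ^ 2 * (pullback ω φ 0 / c) := by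
          calc ‖fderiv ℝ (fun z => (β : E → ℝ) (e (φ z))) 0‖ ^ 2 ≤ (D1 * ‖deriv (fun z => e (φ z)) 0‖) ^ 2 := by
                gcongr
            _ = D1 ^ 2 * ‖deriv (fun z => e (φ z)) 0‖ ^ 2 := by ring
            _ ≤ _ := mul_le_mul_of_nonneg_left hn2 (by positivity)
        rw [hsplit]; linarith
    · have heq : (fun z => θ (φ z)) =ᶠ[𝓝 0] (fun _ => (0 : ℝ)) := by
        filter_upwards [(hφ.tangent.contAt hz0).preimage_mem_nhds (hSc.isClosed.isOpen_compl.mem_nhds hφS)] with z hz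
        exact hθ0 _ hz
      have hC : 0 ≤ (2 * D2 / c + D1 ^ 2 / c) * pullback ω φ 0 := by positivity
      constructor
      · rw [lap_congr heq]
        simpa [lap] using hC
      · rw [heq.fderiv_eq]
        simpa using hC


end Pool.Agent.Helper684.GX.Ergo
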