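import Pool.Agent.Helper684.GX.Ergo.Plaque
import Pool.Agent.Helper684.GX.Ergo.Bump
import Pool.Agent.Helper684.GX.Ergo.M1
import Pool.Agent.Helper684.GX.Ergo.M2p
import Pool.Agent.Helper684.GX.Ergo.M3
import Pool.Agent.Helper684.GX.Ergo.Calc1
import Pool.Agent.Helper684.GX.Ergo.Calc2
import Pool.Agent.Helper684.GX.Ergo.Cover

attribute [local instance] Pool.Agent.Helper684.GX.Nev.leafInst

set_option autoImplicit false


open scoped Manifold
open Metric MeasureTheory Set Filter Topology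
open Pool.Agent.Helper684.GX.Nev

namespace Pool.Agent.Helper684.GX.Ergo

variable {E M : Type*} [NormedAddCommGroup E] [NormedSpace ℂ E] [TopologicalSpace M]
  [ChartedSpace E M] [IsManifold 𝓘(ℂ, E) 1 M]



/-- auxiliary: one-variable product bounds -/
theorem prod_bounds_aux {u v : ℂ → ℝ} {p B C : ℝ} (hp : 0 ≤ p) (hB : 0 ≤ B) (hC : 0 ≤ C)
    (hu : ContDiffOn ℝ 2 u (ball 0 1)) (hv : ContDiffOn ℝ 2 v (ball 0 1))
    (hu01 : 0 ≤ u 0 ∧ u 0 ≤ 1) (hvB : |v 0| ≤ B)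
    (hul : |lap u 0| ≤ C * p) (hud : ‖fderiv ℝ u 0‖ ^ 2 ≤ C * p)
    (hvl : |lap v 0| ≤ B * p) (hvd : ‖fderiv ℝ v 0‖ ^ 2 ≤ B * p) :
    ContDiffOn ℝ 2 (fun z => u z * v z) (ball 0 1) ∧
      |lap (fun z => u z * v z) 0| ≤ ((B + B * C + 2 * (C + B)) + 2 * (B + B ^ 2 * C)) * p ∧
      ‖fderiv ℝ (fun z => u z * v z) 0‖ ^ 2 ≤
        ((B + B * C + 2 * (C + B)) + 2 * (B + B ^ 2 * C)) * p := by
  have hmem : ball (0 : ℂ) 1 ∈ 𝓝 (0 : ℂ) := isOpen_ball.mem_nhds (mem_ball_self one_pos)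
  have hu0 : ContDiffAt ℝ 2 u 0 := hu.contDiffAt hmem
  have hv0 : ContDiffAt ℝ 2 v 0 := hv.contDiffAt hmem
  have hBC : 0 ≤ B * C * p := by positivity
  have hBBC : 0 ≤ B ^ 2 * C * p := by positivity
  have hBp : 0 ≤ B * p := by positivity
  have hCp : 0 ≤ C * p := by positivity
  refine ⟨hu.mul hv, ?_, ?_⟩
  · have h1 := abs_lap_mul_sub hu0 hv0
    have h2 : 4 * (‖fderiv ℝ u 0‖ * ‖fderiv ℝ v 0‖) ≤ 2 * (C * p + B * p) := by
      nlinarith [sq_nonneg (‖fderiv ℝ u 0‖ - ‖fderiv ℝ v 0‖)]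
    have h3 : |u 0 * lap v 0| ≤ B * p := by
      rw [abs_mul, abs_of_nonneg hu01.1]
      calc u 0 * |lap v 0| ≤ 1 * |lap v 0| :=
            mul_le_mul_of_nonneg_right hu01.2 (abs_nonneg _)
        _ ≤ B * p := by rw [one_mul]; exact hvl
    have h4 : |v 0 * lap u 0| ≤ B * (C * p) := by
      rw [abs_mul]
      exact mul_le_mul hvB hul (abs_nonneg _) hB
    have h5 : |lap (fun z => u z * v z) 0| ≤
        |lap (fun z => u z * v z) 0 - (u 0 * lap v 0 + v 0 * lap u 0)| +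
          (|u 0 * lap v 0| + |v 0 * lap u 0|) := by
      calc |lap (fun z => u z * v z) 0| =
          |(lap (fun z => u z * v z) 0 - (u 0 * lap v 0 + v 0 * lap u 0)) +
            (u 0 * lap v 0 + v 0 * lap u 0)| := by congr 1; ring
        _ ≤ |lap (fun z => u z * v z) 0 - (u 0 * lap v 0 + v 0 * lap u 0)| +
            |u 0 * lap v 0 + v 0 * lap u 0| := abs_add_le _ _
        _ ≤ _ := by gcongr; exact abs_add_le _ _
    nlinarith
  · have hud' : DifferentiableAt ℝ u 0 := hu0.differentiableAt (by norm_num)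
    have hvd' : DifferentiableAt ℝ v 0 := hv0.differentiableAt (by norm_num)
    have h1 : fderiv ℝ (fun z => u z * v z) 0 = u 0 • fderiv ℝ v 0 + v 0 • fderiv ℝ u 0 :=
      fderiv_fun_mul hud' hvd'
    have h2 : ‖fderiv ℝ (fun z => u z * v z) 0‖ ≤ ‖fderiv ℝ v 0‖ + B * ‖fderiv ℝ u 0‖ := by
      rw [h1]
      refine (norm_add_le _ _).trans ?_
      rw [norm_smul, norm_smul]
      have h3 : ‖u 0‖ ≤ 1 := by rw [Real.norm_eq_abs, abs_of_nonneg hu01.1]; exact hu01.2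
      have h4 : ‖v 0‖ ≤ B := hvB
      have h5 := mul_le_mul_of_nonneg_right h3 (norm_nonneg (fderiv ℝ v 0))
      have h6 := mul_le_mul_of_nonneg_right h4 (norm_nonneg (fderiv ℝ u 0))
      linarith
    have h3 : ‖fderiv ℝ (fun z => u z * v z) 0‖ ^ 2 ≤
        (‖fderiv ℝ v 0‖ + B * ‖fderiv ℝ u 0‖) ^ 2 :=
      pow_le_pow_left₀ (norm_nonneg _) h2 2
    have h4 : (‖fderiv ℝ v 0‖ + B * ‖fderiv ℝ u 0‖) ^ 2 ≤
        2 * (‖fderiv ℝ v 0‖ ^ 2 + B ^ 2 * ‖fderiv ℝ u 0‖ ^ 2) := by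
      nlinarith [sq_nonneg (‖fderiv ℝ v 0‖ - B * ‖fderiv ℝ u 0‖)]
    have h5 : B ^ 2 * ‖fderiv ℝ u 0‖ ^ 2 ≤ B ^ 2 * (C * p) :=
      mul_le_mul_of_nonneg_left hud (sq_nonneg B)
    nlinarith

/-- the leafwise Laplacian is additive at hyperbolic points -/
theorem leafLap_add_aux (ω : PosForm E M) {F : Foliation E M} {w w₁ w₂ : M → ℝ} {φ : ℂ → M}
    (hφ : F.IsUniversalCovering φ) (hw : ∀ x, w x = w₁ x + w₂ x)
    (h₁ : ContDiffOn ℝ 2 (fun z => w₁ (φ z)) (ball 0 1))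
    (h₂ : ContDiffOn ℝ 2 (fun z => w₂ (φ z)) (ball 0 1)) :
    leafLap ω F w (φ 0) = leafLap ω F w₁ (φ 0) + leafLap ω F w₂ (φ 0) := by
  have hmem : ball (0 : ℂ) 1 ∈ 𝓝 (0 : ℂ) := isOpen_ball.mem_nhds (mem_ball_self one_pos)
  have hw' : w = fun x => w₁ x + w₂ x := funext hw
  have h3 : ContDiffAt ℝ 2 (fun z => w (φ z)) 0 := by
    rw [hw']
    exact (h₁.contDiffAt hmem).add (h₂.contDiffAt hmem)
  rw [leafLap_eq ω hφ h3, leafLap_eq ω hφ (h₁.contDiffAt hmem), leafLap_eq ω hφ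
    (h₂.contDiffAt hmem), ← add_div, hw', lap_add (h₁.contDiffAt hmem) (h₂.contDiffAt hmem)]

/-- Global test lemma, from the local one. -/
theorem global_test [FiniteDimensional ℂ E] [T2Space M] [CompactSpace M] [MeasurableSpace M]
    [BorelSpace M] (ω : PosForm E M) {F : Foliation E M} {μ : Measure M} [IsFiniteMeasure μ]
    (hhyp : ∀ᵐ x ∂μ, ∃ φ : ℂ → M, F.IsUniversalCovering φ ∧ φ 0 = x)
    (hloc : ∀ x₀ : M, x₀ ∉ F.sing →
      ∃ U : Set M, IsOpen U ∧ x₀ ∈ U ∧ ∀ (w : M → ℝ) (K : Set M) (B : ℝ), Measurable w →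
      IsCompact K → K ⊆ U → (∀ x ∉ K, w x = 0) → (∀ x, |w x| ≤ B) →
      (∀ φ : ℂ → M, F.IsUniversalCovering φ → ContDiffOn ℝ 2 (fun z => w (φ z)) (ball 0 1) ∧
        |lap (fun z => w (φ z)) 0| ≤ B * pullback ω φ 0) →
      Integrable (leafLap ω F w) μ ∧ ∫ x, leafLap ω F w x ∂μ = 0) :
    ∀ (w : M → ℝ) (K : Set M) (B : ℝ), Measurable w → IsCompact K → Disjoint K F.sing →
      (∀ x ∉ K, w x = 0) → (∀ x, |w x| ≤ B) →
      (∀ φ : ℂ → M, F.IsUniversalCovering φ → ContDiffOn ℝ 2 (fun z => w (φ z)) (ball 0 1) ∧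
        |lap (fun z => w (φ z)) 0| ≤ B * pullback ω φ 0 ∧
        ‖fderiv ℝ (fun z => w (φ z)) 0‖ ^ 2 ≤ B * pullback ω φ 0) →
      Integrable (leafLap ω F w) μ ∧ ∫ x, leafLap ω F w x ∂μ = 0 := by
  classical
  intro w K B hw hK hdis hsupp hB hφw
  -- the data of the bumps
  have hdata : ∀ x₀ : K, ∃ V : Set M, IsOpen V ∧ (x₀ : M) ∈ V ∧ ∃ (θ : M → ℝ) (S U : Set M) (C : ℝ),
      Measurable θ ∧ IsCompact S ∧ S ⊆ U ∧
      (∀ x ∈ V, θ x = 1) ∧ (∀ x ∉ S, θ x = 0) ∧ (∀ x, 0 ≤ θ x ∧ θ x ≤ 1) ∧ 0 ≤ C ∧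
      (∀ φ : ℂ → M, F.IsUniversalCovering φ → ContDiffOn ℝ 2 (fun z => θ (φ z)) (ball 0 1) ∧
        |lap (fun z => θ (φ z)) 0| ≤ C * pullback ω φ 0 ∧
        ‖fderiv ℝ (fun z => θ (φ z)) 0‖ ^ 2 ≤ C * pullback ω φ 0) ∧
      ∀ (w : M → ℝ) (K : Set M) (B : ℝ), Measurable w →
      IsCompact K → K ⊆ U → (∀ x ∉ K, w x = 0) → (∀ x, |w x| ≤ B) →
      (∀ φ : ℂ → M, F.IsUniversalCovering φ → ContDiffOn ℝ 2 (fun z => w (φ z)) (ball 0 1) ∧
        |lap (fun z => w (φ z)) 0| ≤ B * pullback ω φ 0) →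
      Integrable (leafLap ω F w) μ ∧ ∫ x, leafLap ω F w x ∂μ = 0 := by
    intro x₀
    obtain ⟨U, hU, hxU, hUl⟩ := hloc x₀ (Set.disjoint_left.1 hdis x₀.2)
    obtain ⟨θ, S, V, C, h1, h2, h3, h4, h5, h6, h7, h8, h9⟩ := exists_bump ω F hU hxU
    refine ⟨V, h4, h5, θ, S, U, |C|, h1, h2, h3, h6, h7, h8, abs_nonneg _, ?_, hUl⟩
    intro φ hφ
    obtain ⟨a, b, c⟩ := h9 φ hφ
    have hp := pullback_nonneg ω φ 0
    have hC : C * pullback ω φ 0 ≤ |C| * pullback ω φ 0 :=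
      mul_le_mul_of_nonneg_right (le_abs_self C) hp
    exact ⟨a, b.trans hC, c.trans hC⟩
  choose V hVo hxV θ S U C hθm hS hSU hθV hθS hθ01 hC hθφ hUloc using hdata
  -- induction on the finite cover
  have claim : ∀ (t : Finset K) (w : M → ℝ) (K' : Set M) (B : ℝ), Measurable w → IsCompact K' →
      K' ⊆ ⋃ i ∈ t, V i → (∀ x ∉ K', w x = 0) → 0 ≤ B → (∀ x, |w x| ≤ B) →
      (∀ φ : ℂ → M, F.IsUniversalCovering φ → ContDiffOn ℝ 2 (fun z => w (φ z)) (ball 0 1) ∧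
        |lap (fun z => w (φ z)) 0| ≤ B * pullback ω φ 0 ∧
        ‖fderiv ℝ (fun z => w (φ z)) 0‖ ^ 2 ≤ B * pullback ω φ 0) →
      Integrable (leafLap ω F w) μ ∧ ∫ x, leafLap ω F w x ∂μ = 0 := by
    intro t
    induction t using Finset.induction_on with
    | empty =>
      intro w K' B _ _ hcov hsupp _ _ _
      have hK' : K' = ∅ := by
        apply Set.eq_empty_of_subset_empty
        simpa using hcov
      have hw0 : w = fun _ => (0 : ℝ) := by
        funext x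
        exact hsupp x (by rw [hK']; exact Set.notMem_empty x)
      have h0 : leafLap ω F w =ᵐ[μ] fun _ => (0 : ℝ) := by
        filter_upwards [hhyp] with x hx
        obtain ⟨φ, hφ, rfl⟩ := hx
        have hcd : ContDiffAt ℝ 2 (fun z : ℂ => w (φ z)) 0 := by
          rw [hw0]; exact contDiffAt_const
        rw [leafLap_eq ω hφ hcd, hw0]
        have : lap (fun _ : ℂ => (0 : ℝ)) 0 = 0 := by
          simp [lap]
        rw [this, zero_div]
      exact ⟨(integrable_zero M ℝ μ).congr h0.symm, by rw [integral_congr_ae h0]; simp⟩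
    | insert i s hi ih =>
      intro w K' B hw hK' hcov hsupp hB0 hB hφw
      set B' : ℝ := (B + B * C i + 2 * (C i + B)) + 2 * (B + B ^ 2 * C i) with hB'
      have hCi := hC i
      have hBC : 0 ≤ B * C i := mul_nonneg hB0 hCi
      have hBBC : 0 ≤ B ^ 2 * C i := mul_nonneg (sq_nonneg B) hCi
      have hB'0 : 0 ≤ B' := by rw [hB']; linarith
      have hBB' : B ≤ B' := by rw [hB']; linarith
      -- first part
      have hprod : ∀ u : M → ℝ, (∀ x, 0 ≤ u x ∧ u x ≤ 1) →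
          (∀ φ : ℂ → M, F.IsUniversalCovering φ → ContDiffOn ℝ 2 (fun z => u (φ z)) (ball 0 1) ∧
            |lap (fun z => u (φ z)) 0| ≤ C i * pullback ω φ 0 ∧
            ‖fderiv ℝ (fun z => u (φ z)) 0‖ ^ 2 ≤ C i * pullback ω φ 0) →
          (∀ x, |u x * w x| ≤ B') ∧
          ∀ φ : ℂ → M, F.IsUniversalCovering φ →
            ContDiffOn ℝ 2 (fun z => u (φ z) * w (φ z)) (ball 0 1) ∧
            |lap (fun z => u (φ z) * w (φ z)) 0| ≤ B' * pullback ω φ 0 ∧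
            ‖fderiv ℝ (fun z => u (φ z) * w (φ z)) 0‖ ^ 2 ≤ B' * pullback ω φ 0 := by
        intro u hu01 hu
        refine ⟨fun x => ?_, fun φ hφ => ?_⟩
        · rw [abs_mul, abs_of_nonneg (hu01 x).1]
          calc u x * |w x| ≤ 1 * |w x| := mul_le_mul_of_nonneg_right (hu01 x).2 (abs_nonneg _)
            _ ≤ B' := by rw [one_mul]; exact (hB x).trans hBB'
        · obtain ⟨a, b, c⟩ := hu φ hφ
          obtain ⟨a', b', c'⟩ := hφw φ hφ
          exact prod_bounds_aux (pullback_nonneg ω φ 0) hB0 hCi a a' (hu01 _) (hB _) b c b' c'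
      obtain ⟨p1, p2⟩ := hprod (θ i) (hθ01 i) (hθφ i)
      have hone : ∀ φ : ℂ → M, F.IsUniversalCovering φ →
          ContDiffOn ℝ 2 (fun z => 1 - θ i (φ z)) (ball 0 1) ∧
            |lap (fun z => 1 - θ i (φ z)) 0| ≤ C i * pullback ω φ 0 ∧
            ‖fderiv ℝ (fun z => 1 - θ i (φ z)) 0‖ ^ 2 ≤ C i * pullback ω φ 0 := by
        intro φ hφ
        obtain ⟨a, b, c⟩ := hθφ i φ hφ
        have hmem : ball (0 : ℂ) 1 ∈ 𝓝 (0 : ℂ) := isOpen_ball.mem_nhds (mem_ball_self one_pos)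
        refine ⟨contDiffOn_const.sub a, ?_, ?_⟩
        · rw [lap_const_sub 1 (a.contDiffAt hmem), abs_neg]
          exact b
        · rw [fderiv_const_sub, norm_neg]
          exact c
      obtain ⟨q1, q2⟩ := hprod (fun x => 1 - θ i x)
        (fun x => ⟨by linarith [(hθ01 i x).2], by linarith [(hθ01 i x).1]⟩) hone
      have hfirst := hUloc i (fun x => θ i x * w x) (K' ∩ S i) B' ((hθm i).mul hw)
        (hK'.inter (hS i)) (Set.inter_subset_right.trans (hSU i)) (by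
          intro x hx
          by_cases hxK : x ∈ K'
          · have hxS : x ∉ S i := fun h => hx ⟨hxK, h⟩
            simp only [hθS i x hxS, zero_mul]
          · simp only [hsupp x hxK, mul_zero]) p1 (fun φ hφ => ⟨(p2 φ hφ).1, (p2 φ hφ).2.1⟩)
      have hsecond := ih (fun x => (1 - θ i x) * w x) (K' \ V i) B'
        ((measurable_const.sub (hθm i)).mul hw) (hK'.diff (hVo i)) (by
          intro x hx
          have hx1 := hcov hx.1
          simp only [Set.mem_iUnion, Finset.mem_insert, exists_prop] at hx1 ⊢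
          obtain ⟨j, hj, hxj⟩ := hx1
          rcases hj with rfl | hj
          · exact absurd hxj hx.2
          · exact ⟨j, hj, hxj⟩) (by
          intro x hx
          by_cases hxK : x ∈ K'
          · have hxS : x ∈ V i := by
              by_contra h
              exact hx ⟨hxK, h⟩
            simp only [hθV i x hxS, sub_self, zero_mul]
          · simp only [hsupp x hxK, mul_zero]) hB'0 q1 q2
      have hsum : leafLap ω F w =ᵐ[μ]
          fun x => leafLap ω F (fun x => θ i x * w x) x +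
            leafLap ω F (fun x => (1 - θ i x) * w x) x := by
        filter_upwards [hhyp] with x hx
        obtain ⟨φ, hφ, rfl⟩ := hx
        exact leafLap_add_aux ω hφ (fun x => by ring) (p2 φ hφ).1 (q2 φ hφ).1
      refine ⟨(hfirst.1.add hsecond.1).congr hsum.symm, ?_⟩
      rw [integral_congr_ae hsum, integral_add hfirst.1 hsecond.1, hfirst.2, hsecond.2, add_zero]
  obtain ⟨t, ht⟩ := hK.elim_finite_subcover (fun i : K => V i) hVo (by
    intro x hx
    exact Set.mem_iUnion.2 ⟨⟨x, hx⟩, hxV ⟨x, hx⟩⟩)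
  refine claim t w K |B| hw hK ht hsupp (abs_nonneg _) (fun x => (hB x).trans (le_abs_self B)) ?_
  intro φ hφ
  obtain ⟨a, b, c⟩ := hφw φ hφ
  have hBp : B * pullback ω φ 0 ≤ |B| * pullback ω φ 0 :=
    mul_le_mul_of_nonneg_right (le_abs_self B) (pullback_nonneg ω φ 0)
  exact ⟨a, b.trans hBp, c.trans hBp⟩

end Pool.Agent.Helper684.GX.Ergo
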