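import Pool.Agent.Helper684.GX.Ergo.Cur1
import Pool.Agent.Helper684.GX.Ergo.Ddc
import Pool.Agent.Helper684.GX.Ergo.Fin3

attribute [local instance] Pool.Agent.Helper684.GX.Nev.leafInst

/-!
The geometric ergodic theorem for directed harmonic currents.
-/

set_option autoImplicit false

open scoped Manifold
open Metric MeasureTheory Set Filter Topology
open Pool.Agent.Helper684.GX.Nev

namespace Pool.Agent.Helper684.GX.Ergo

variable {E M : Type*} [NormedAddCommGroup E] [NormedSpace ℂ E] [FiniteDimensional ℂ E]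
  [TopologicalSpace M] [T2Space M] [CompactSpace M] [ChartedSpace E M]
  [IsManifold 𝓘(ℂ, E) 1 M] [MeasurableSpace M] [BorelSpace M]

theorem harmonic_measure (ω : PosForm E M) {F : Foliation E M} {T : Form11 E M →ₗ[ℝ] ℝ}
    (hT : IsHarmonicCurrent F T) {μ : Measure M} [IsFiniteMeasure μ]
    (hμ : IsTraceL ω T μ) (hs : μ F.sing = 0) : IsDirectedHarmonic ω F μ where
  finite := measure_lt_top _ _
  sing := hs
  closed f hf := by
    obtain ⟨θ, hθ⟩ := exists_ddc hf
    rw [← hT.closed f θ hf hθ, current_eq ω hT hμ hs θ]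
    have h : (fun (x : M) (v : TangentSpace 𝓘(ℂ, E) x) => ddcForm f x v) =
        fun x v => θ.form x v (J x v) := by
      funext x v
      exact (hθ x v).symm
    rw [h]
    rfl

/-- **Geometric ergodic theorem** for singular holomorphic foliations with arbitrary
singularities. -/
theorem geometric_ergodic_current (ω : PosForm E M) (F : SingularFoliation E M)
    (T : Form11 E M →ₗ[ℝ] ℝ) (hT : IsHarmonicCurrent F.toFoliation T)
    (hext : IsExtremalCurrent F.toFoliation T) (μ : Measure M) [IsProbabilityMeasure μ]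
    (hμ : IsTraceL ω T μ) (hhyp : ∀ᵐ a ∂μ, IsHyperbolic F.toFoliation a) :
    ∀ᵐ a ∂μ, ∀ φ : ℂ → M, F.toFoliation.IsUniversalCovering φ → φ 0 = a →
      ∀ θ : Form11 E M, Tendsto (nevanlinna ω θ φ) (𝓝[<] 1) (𝓝 (T θ)) := by
  have hs : μ F.toFoliation.sing = 0 := by
    rw [measure_eq_zero_iff_ae_notMem]
    filter_upwards [hhyp] with a ha
    obtain ⟨φ, hφ, rfl⟩ := ha
    exact (hφ.tangent.2 0 (mem_ball_self one_pos)).1
  have h := geometric_ergodic ω F μ (harmonic_measure ω hT hμ hs)
    (extremal_measure ω hT hext hμ hs) hhyp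
  filter_upwards [h] with a ha
  intro φ hφ hφ0 θ
  rw [current_eq ω hT hμ hs θ]
  exact ha φ hφ hφ0 θ

/-- the linear map of a current -/
noncomputable def Current.toLin (T : Current E M) : Form11 E M →ₗ[ℝ] ℝ where
  toFun := T.val
  map_add' θ θ' := T.map_add _ _ _ fun _ _ _ => rfl
  map_smul' c θ := T.map_smul c _ _ fun _ _ _ => rfl

/-- the current of a linear map -/
noncomputable def ofLin (T : Form11 E M →ₗ[ℝ] ℝ) : Current E M where
  val := T
  map_add θ θ₁ θ₂ h := by
    have : θ = θ₁ + θ₂ := Form11.form_injective (by funext x u v; exact h x u v)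
    rw [this, _root_.map_add]
  map_smul c θ θ₁ h := by
    have : θ = c • θ₁ := Form11.form_injective (by funext x u v; exact h x u v)
    rw [this, _root_.map_smul, smul_eq_mul]

theorem isHarmonicCurrent_toLin {F : Foliation E M} {T : Current E M}
    (hT : IsDirectedDdcClosed F T) : IsHarmonicCurrent F T.toLin :=
  ⟨hT.pos, hT.directed, hT.closed⟩

theorem isDirectedDdcClosed_ofLin {F : Foliation E M} {T : Form11 E M →ₗ[ℝ] ℝ}
    (hT : IsHarmonicCurrent F T) : IsDirectedDdcClosed F (ofLin T) :=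
  ⟨hT.pos, hT.directed, hT.closed⟩

/-- **Geometric ergodic theorem** for singular holomorphic foliations with arbitrary
singularities. -/
theorem geometric_ergodic_final (ω : PosForm E M) (F : SingularFoliation E M)
    (T : Current E M) (hT : IsDirectedDdcClosed F.toFoliation T)
    (hext : IsExtremalDirected F.toFoliation T) (μ : Measure M) [IsProbabilityMeasure μ]
    (hμ : IsTraceMeasure ω T μ) (hhyp : ∀ᵐ a ∂μ, IsHyperbolic F.toFoliation a) :
    ∀ᵐ a ∂μ, ∀ φ : ℂ → M, F.toFoliation.IsUniversalCovering φ → φ 0 = a →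
      ∀ θ : Form11 E M, Tendsto (nevanlinna ω θ φ) (𝓝[<] 1) (𝓝 (T.val θ)) := by
  refine geometric_ergodic_current ω F T.toLin (isHarmonicCurrent_toLin hT) ?_ μ ?_ hhyp
  · intro T₁ T₂ h₁ h₂ hsum
    obtain ⟨c, hc⟩ := hext (ofLin T₁) (ofLin T₂) (isDirectedDdcClosed_ofLin h₁)
      (isDirectedDdcClosed_ofLin h₂) (fun θ => by
        have := congrArg (fun S : Form11 E M →ₗ[ℝ] ℝ => S θ) hsum
        exact this)
    exact ⟨c, LinearMap.ext fun θ => hc θ⟩
  · intro f
    exact hμ f (Form11.mulFun f ω.toForm11) f.continuous fun _ _ _ => rfl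

end Pool.Agent.Helper684.GX.Ergo
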