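import Pool.Agent.Helper684.GX.Ergo.Box
import Pool.Agent.Helper684.GX.Ergo.M1
import Pool.Agent.Helper684.GX.Ergo.Calc1

attribute [local instance] Pool.Agent.Helper684.GX.Nev.leafInst

set_option autoImplicit false


open scoped Manifold
open Metric MeasureTheory Set Filter Topology
open Pool.Agent.Helper684.GX.Nev

namespace Pool.Agent.Helper684.GX.Ergo

variable {E M : Type*} [NormedAddCommGroup E] [NormedSpace ℂ E] [TopologicalSpace M]
  [ChartedSpace E M] [IsManifold 𝓘(ℂ, E) 1 M]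

theorem exists_box [FiniteDimensional ℂ E] {F : Foliation E M} {x₀ : M} (hx₀ : x₀ ∉ F.sing) :
    ∃ b : Box F, x₀ ∈ b.U := by
  obtain ⟨e, ⟨heC, hsrc⟩, v, hv, hgen⟩ := F.flowBox x₀ hx₀
  obtain ⟨ℓ, hℓ⟩ : ∃ ℓ : E →L[ℂ] ℂ, ℓ v = 1 := SeparatingDual.exists_eq_one hv
  let T : Submodule ℂ E := LinearMap.ker (ℓ : E →ₗ[ℂ] ℂ)
  let L₀ : (ℂ × T) ≃ₗ[ℂ] E :=
    { toFun := fun p => p.1 • v + (p.2 : E)
      map_add' := by
        intro p q
        simp only [Prod.fst_add, Prod.snd_add, Submodule.coe_add, add_smul]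
        abel
      map_smul' := by
        intro a p
        simp only [Prod.smul_fst, Prod.smul_snd, Submodule.coe_smul, RingHom.id_apply, smul_add,
          smul_smul, smul_eq_mul]
      invFun := fun y => (ℓ y, ⟨y - ℓ y • v, by
        show ℓ (y - ℓ y • v) = 0
        rw [map_sub, map_smul, hℓ, smul_eq_mul, mul_one, sub_self]⟩)
      left_inv := by
        rintro ⟨z, t, ht⟩
        have ht' : ℓ t = 0 := ht
        have h1 : ℓ (z • v + t) = z := by
          rw [map_add, map_smul, hℓ, ht', smul_eq_mul, mul_one, add_zero]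
        apply Prod.ext
        · exact h1
        · apply Subtype.ext
          show z • v + t - ℓ (z • v + t) • v = t
          rw [h1, add_sub_cancel_left]
      right_inv := by
        intro y
        show ℓ y • v + (y - ℓ y • v) = y
        rw [add_sub_cancel] }
  let L : (ℂ × T) ≃L[ℂ] E := L₀.toContinuousLinearEquiv
  have hL : ∀ p : ℂ × T, L p = p.1 • v + (p.2 : E) := fun p => rfl
  have hcont : Continuous fun p : ℂ × T => e x₀ + L p := continuous_const.add L.continuous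
  have hnh : (fun p : ℂ × T => e x₀ + L p) ⁻¹' e.target ∈ 𝓝 (0 : ℂ × T) := by
    apply hcont.continuousAt.preimage_mem_nhds
    rw [map_zero, add_zero]
    exact e.open_target.mem_nhds (e.map_source hsrc)
  obtain ⟨R, hR, hRs⟩ := Metric.nhds_basis_closedBall.mem_iff.1 hnh
  refine ⟨⟨e, heC, v, hv, hgen, T, L, hL, e x₀, R, hR, ?_⟩, hsrc, ?_⟩
  · intro p hp
    apply hRs
    have h0 : (0 : ℂ × T) = ((0 : ℂ), (0 : T)) := rfl
    rw [h0, ← closedBall_prod_same]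
    exact hp
  · show L.symm (e x₀ - e x₀) ∈ ball (0 : ℂ) R ×ˢ ball (0 : T) R
    rw [sub_self, map_zero]
    exact ⟨mem_ball_self hR, mem_ball_self hR⟩

namespace Box

variable {F : Foliation E M} (b : Box F)

theorem continuousOn_coord' : ContinuousOn b.coord b.e.source :=
  b.L.symm.continuous.comp_continuousOn (b.e.continuousOn.sub continuousOn_const)

theorem isOpen_U : IsOpen b.U :=
  b.continuousOn_coord'.isOpen_inter_preimage b.e.open_source (isOpen_ball.prod isOpen_ball)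

theorem O_subset : b.O ⊆ closedBall (0 : ℂ) b.R ×ˢ closedBall (0 : b.T) b.R :=
  prod_mono ball_subset_closedBall ball_subset_closedBall

theorem coord_pt {p : ℂ × b.T} (hp : p ∈ closedBall (0 : ℂ) b.R ×ˢ closedBall (0 : b.T) b.R) :
    b.coord (b.pt p) = p := by
  show b.L.symm (b.e (b.e.symm (b.c + b.L p)) - b.c) = p
  rw [b.e.right_inv (b.box p hp), add_sub_cancel_left, b.L.symm_apply_apply]

theorem pt_mem {p : ℂ × b.T} (hp : p ∈ b.O) : b.pt p ∈ b.U := by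
  refine ⟨b.e.map_target (b.box p (b.O_subset hp)), ?_⟩
  show b.coord (b.pt p) ∈ b.O
  rw [b.coord_pt (b.O_subset hp)]
  exact hp

theorem pt_coord {x : M} (hx : x ∈ b.e.source) : b.pt (b.coord x) = x := by
  show b.e.symm (b.c + b.L (b.L.symm (b.e x - b.c))) = x
  rw [b.L.apply_symm_apply, add_sub_cancel, b.e.left_inv hx]

theorem continuousOn_coord : ContinuousOn b.coord b.e.source := b.continuousOn_coord'

theorem continuousOn_pt :
    ContinuousOn b.pt (closedBall (0 : ℂ) b.R ×ˢ closedBall (0 : b.T) b.R) :=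
  b.e.symm.continuousOn.comp (continuous_const.add b.L.continuous).continuousOn
    (fun p hp => b.box p hp)

theorem pt_not_sing {p : ℂ × b.T}
    (hp : p ∈ closedBall (0 : ℂ) b.R ×ˢ closedBall (0 : b.T) b.R) : b.pt p ∉ F.sing := by
  intro h
  exact b.v_ne ((b.gen _ (b.e.map_target (b.box p hp))).1.1 h)

theorem continuousOn_Q (ω : PosForm E M) :
    ContinuousOn (b.Q ω) (closedBall (0 : ℂ) b.R ×ˢ closedBall (0 : b.T) b.R) := by
  have h1 : Continuous fun p : ℂ × b.T => (b.c + b.L p, b.v) :=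
    (continuous_const.add b.L.continuous).prodMk continuous_const
  exact (continuousOn_Qe ω b.mem).comp h1.continuousOn fun p hp => ⟨b.box p hp, mem_univ _⟩

theorem Q_bounds [FiniteDimensional ℂ E] (ω : PosForm E M) : ∃ a A : ℝ, 0 < a ∧
    ∀ p ∈ closedBall (0 : ℂ) b.R ×ˢ closedBall (0 : b.T) b.R, a ≤ b.Q ω p ∧ b.Q ω p ≤ A := by
  have : ProperSpace b.T := FiniteDimensional.proper ℂ b.T
  have hK : IsCompact (closedBall (0 : ℂ) b.R ×ˢ closedBall (0 : b.T) b.R) :=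
    (isCompact_closedBall 0 b.R).prod (isCompact_closedBall 0 b.R)
  have hne : (closedBall (0 : ℂ) b.R ×ˢ closedBall (0 : b.T) b.R).Nonempty :=
    ⟨(0, 0), mem_closedBall_self b.R_pos.le, mem_closedBall_self b.R_pos.le⟩
  obtain ⟨p, hp, hmin⟩ := hK.exists_isMinOn hne (b.continuousOn_Q ω)
  obtain ⟨q, hq, hmax⟩ := hK.exists_isMaxOn hne (b.continuousOn_Q ω)
  exact ⟨b.Q ω p, b.Q ω q, Qe_pos ω b.mem (b.box p hp) b.v_ne,
    fun y hy => ⟨hmin hy, hmax hy⟩⟩

theorem hasDerivAt_line (z₀ : ℂ) (t : b.T) (r : ℝ) (ζ : ℂ) :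
    HasDerivAt (fun ζ : ℂ => b.c + b.L (z₀ + r * ζ, t)) ((r : ℂ) • b.v) ζ := by
  have h1 : (fun ζ : ℂ => b.c + b.L (z₀ + r * ζ, t)) =
      fun ζ : ℂ => b.c + ((z₀ + r * ζ) • b.v + (t : E)) := by
    funext ζ
    rw [b.L_apply]
  rw [h1]
  have h2 : HasDerivAt (fun ζ : ℂ => z₀ + r * ζ) (r : ℂ) ζ := by
    simpa using ((hasDerivAt_id ζ).const_mul (r : ℂ)).const_add z₀
  exact ((h2.smul_const b.v).add_const (t : E)).const_add b.c

theorem line_mem {z₀ : ℂ} {t : b.T} (ht : t ∈ ball (0 : b.T) b.R) {r : ℝ} (hr : 0 < r)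
    (hb : ball z₀ r ⊆ ball (0 : ℂ) b.R) {ζ : ℂ} (hζ : ζ ∈ ball (0 : ℂ) 1) :
    (z₀ + r * ζ, t) ∈ b.O := by
  refine ⟨hb ?_, ht⟩
  rw [mem_ball_iff_norm]
  rw [mem_ball_zero_iff] at hζ
  show ‖z₀ + r * ζ - z₀‖ < r
  rw [add_sub_cancel_left, norm_mul, Complex.norm_real, Real.norm_eq_abs, abs_of_pos hr]
  nlinarith

/-- plaques are tangent discs -/
theorem plaque {z₀ : ℂ} {t : b.T} (ht : t ∈ ball (0 : b.T) b.R) {r : ℝ} (hr : 0 < r)
    (hb : ball z₀ r ⊆ ball (0 : ℂ) b.R) :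
    F.IsTangentDisc (fun ζ : ℂ => b.pt (z₀ + r * ζ, t)) :=
  isTangentDisc_of_curve b.mem b.gen (z := fun ζ : ℂ => b.c + b.L (z₀ + r * ζ, t)) (c := (r : ℂ))
    (fun ζ _ => b.hasDerivAt_line z₀ t r ζ)
    (fun _ hζ => b.box _ (b.O_subset (b.line_mem ht hr hb hζ)))
    (fun _ _ => b.v_ne)

theorem pullback_plaque (ω : PosForm E M) {z₀ : ℂ} {t : b.T} (ht : t ∈ ball (0 : b.T) b.R)
    {r : ℝ} (hr : 0 < r) (hb : ball z₀ r ⊆ ball (0 : ℂ) b.R) {ζ : ℂ}
    (hζ : ζ ∈ ball (0 : ℂ) 1) :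
    pullback ω (fun ζ : ℂ => b.pt (z₀ + r * ζ, t)) ζ = r ^ 2 * b.Q ω (z₀ + r * ζ, t) := by
  have htar : ∀ ζ ∈ ball (0 : ℂ) 1, b.c + b.L (z₀ + r * ζ, t) ∈ b.e.target :=
    fun ζ hζ => b.box _ (b.O_subset (b.line_mem ht hr hb hζ))
  have h1 := pullback_chart (e := b.e) ω ((b.plaque ht hr hb).mdiffAt hζ)
    ⟨b.mem, b.e.map_target (htar ζ hζ)⟩
  rw [h1]
  have h2 : (fun z : ℂ => b.e (b.pt (z₀ + r * z, t))) =ᶠ[𝓝 ζ]
      fun z : ℂ => b.c + b.L (z₀ + r * z, t) := by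
    filter_upwards [isOpen_ball.mem_nhds hζ] with z hz
    exact b.e.right_inv (htar z hz)
  have h3 : deriv (fun z : ℂ => b.e (b.pt (z₀ + r * z, t))) ζ = (r : ℂ) • b.v := by
    rw [h2.deriv_eq]
    exact (b.hasDerivAt_line z₀ t r ζ).deriv
  have h4 : b.e (b.pt (z₀ + r * ζ, t)) = b.c + b.L (z₀ + r * ζ, t) := b.e.right_inv (htar ζ hζ)
  rw [h3, h4, Qe_smul, Complex.norm_real, Real.norm_eq_abs, sq_abs]
  rfl

end Box

end Pool.Agent.Helper684.GX.Ergo
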