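import Pool.Agent.Helper684.GX.Ergo.Defs
import Pool.Agent.Helper684.GX.NevMetric

attribute [local instance] Pool.Agent.Helper684.GX.Nev.leafInst

set_option autoImplicit false


open scoped Manifold
open Metric MeasureTheory Set Filter Topology
open Pool.Agent.Helper684.GX.Nev

namespace Pool.Agent.Helper684.GX.Ergo

variable {E M : Type*} [NormedAddCommGroup E] [NormedSpace ℂ E] [FiniteDimensional ℂ E]
  [TopologicalSpace M] [T2Space M] [CompactSpace M] [ChartedSpace E M] [IsManifold 𝓘(ℂ, E) 1 M]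

/-- value of the form on `(v, Jv)` -/
noncomputable def tq (θ : Form11 E M) (x : M) (v : E) : ℝ := θ.form x v (J x v)

theorem tform_add_right (θ : Form11 E M) (x : M) (u v w : TangentSpace 𝓘(ℂ, E) x) :
    θ.form x u (v + w) = θ.form x u v + θ.form x u w := by
  have h := θ.isForm11At x
  rw [h.antisymm (v + w) u, h.add_left, h.antisymm v u, h.antisymm w u]
  ring

theorem tform_smul_right (θ : Form11 E M) (x : M) (a : ℝ) (v w : TangentSpace 𝓘(ℂ, E) x) :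
    θ.form x v ((a : ℂ) • w) = a * θ.form x v w := by
  have h := θ.isForm11At x
  rw [h.antisymm ((a : ℂ) • w) v, h.smul_left, h.antisymm w v]
  ring

theorem tq_smul (θ : Form11 E M) (x : M) (c : ℂ) (v : E) :
    tq θ x (c • v) = ‖c‖ ^ 2 * tq θ x v := by
  have h := θ.isForm11At x
  unfold tq
  obtain ⟨V, hV⟩ : ∃ V : TangentSpace 𝓘(ℂ, E) x, V = v := ⟨v, rfl⟩
  have h0 : (c • v : E) = ((c.re : ℂ) • V + (c.im : ℂ) • J x V : TangentSpace 𝓘(ℂ, E) x) := by
    rw [hV]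
    show c • v = (c.re : ℂ) • v + (c.im : ℂ) • (Complex.I • v)
    rw [smul_smul, ← add_smul, Complex.re_add_im]
  have h1 : (J x (c • v : E) : TangentSpace 𝓘(ℂ, E) x) =
      (c.re : ℂ) • J x V + ((-c.im : ℝ) : ℂ) • V := by
    rw [hV]
    show Complex.I • (c • v) = (c.re : ℂ) • (Complex.I • v) + ((-c.im : ℝ) : ℂ) • v
    rw [smul_smul, smul_smul, ← add_smul]
    congr 1
    apply Complex.ext <;> simp
  rw [h1]
  have h2 : θ.form x (c • v : E) ((c.re : ℂ) • J x V + ((-c.im : ℝ) : ℂ) • V) =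
      θ.form x ((c.re : ℂ) • V + (c.im : ℂ) • J x V : TangentSpace 𝓘(ℂ, E) x)
        ((c.re : ℂ) • J x V + ((-c.im : ℝ) : ℂ) • V) := by
    rw [← h0]
  rw [h2, h.add_left, tform_add_right, tform_add_right, h.smul_left, h.smul_left, h.smul_left,
    h.smul_left, tform_smul_right, tform_smul_right, tform_smul_right, tform_smul_right]
  have h3 : θ.form x V V = 0 := by
    have := h.antisymm V V
    linarith
  have h4 : θ.form x (J x V) (J x V) = 0 := by
    have := h.antisymm (J x V) (J x V)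
    linarith
  have h5 : θ.form x (J x V) V = - θ.form x V (J x V) := h.antisymm V (J x V)
  have h6 : θ.form x v (J x v) = θ.form x V (J x V) := by rw [hV]
  rw [h3, h4, h5, h6, ← Complex.normSq_eq_norm_sq, Complex.normSq_apply]
  ring

/-- the form read in the chart `e` -/
noncomputable def Qt (θ : Form11 E M) (e : OpenPartialHomeomorph M E) (y η : E) : ℝ :=
  tq θ (e.symm y) (mfderiv 𝓘(ℂ, E) 𝓘(ℂ, E) e.symm y η)

theorem continuousOn_Qt (θ : Form11 E M) {e : OpenPartialHomeomorph M E}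
    (he : e ∈ IsManifold.maximalAtlas 𝓘(ℂ, E) 1 M) :
    ContinuousOn (fun p : E × E => Qt θ e p.1 p.2) (e.target ×ˢ univ) := by
  have h1 := (contMDiffOn_symm_of_mem_maximalAtlas he).continuousOn_tangentMapWithin le_rfl
    e.open_target.uniqueMDiffOn
  have h2 : Continuous fun p : E × E => (tangentBundleModelSpaceHomeomorph 𝓘(ℂ, E)).symm p :=
    (tangentBundleModelSpaceHomeomorph 𝓘(ℂ, E)).symm.continuous
  have h3 := h1.comp h2.continuousOn (s := e.target ×ˢ univ) (fun p hp => hp.1)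
  have h4 := θ.cont.comp_continuousOn h3
  refine h4.congr fun p hp => ?_
  show tq θ (e.symm p.1) (mfderiv 𝓘(ℂ, E) 𝓘(ℂ, E) e.symm p.1 p.2) =
    tq θ (e.symm p.1) (mfderivWithin 𝓘(ℂ, E) 𝓘(ℂ, E) e.symm e.target p.1 p.2)
  rw [mfderivWithin_of_isOpen e.open_target hp.1]

theorem Qt_smul (θ : Form11 E M) (e : OpenPartialHomeomorph M E) (y η : E) (c : ℂ) :
    Qt θ e y (c • η) = ‖c‖ ^ 2 * Qt θ e y η := by
  unfold Qt
  have h : (mfderiv 𝓘(ℂ, E) 𝓘(ℂ, E) e.symm y (c • η) : E) =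
      c • (mfderiv 𝓘(ℂ, E) 𝓘(ℂ, E) e.symm y η : E) :=
    (mfderiv 𝓘(ℂ, E) 𝓘(ℂ, E) e.symm y).map_smul c η
  rw [show tq θ (e.symm y) (mfderiv 𝓘(ℂ, E) 𝓘(ℂ, E) e.symm y (c • η) : E) =
    tq θ (e.symm y) (c • (mfderiv 𝓘(ℂ, E) 𝓘(ℂ, E) e.symm y η : E)) from congrArg _ h]
  exact tq_smul θ _ _ _

theorem chart_param {e : OpenPartialHomeomorph M E} {x : M} (he : IsHolChartAt e x)
    (v : TangentSpace 𝓘(ℂ, E) x) :
    ((mfderiv 𝓘(ℂ, E) 𝓘(ℂ, E) e.symm (e x)) (chartDeriv (E := E) e x v) : E) = v := by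
  have h1 : MDifferentiableAt 𝓘(ℂ, E) 𝓘(ℂ, E) e.symm (e x) :=
    chart_symm_mdiff he.1 (e.map_source he.2)
  have h2 : mfderiv 𝓘(ℂ, E) 𝓘(ℂ, E) (e.symm ∘ e) x =
      (mfderiv 𝓘(ℂ, E) 𝓘(ℂ, E) e.symm (e x)).comp (mfderiv 𝓘(ℂ, E) 𝓘(ℂ, E) e x) :=
    mfderiv_comp x h1 (chart_mdiff he)
  have h3 : (e.symm ∘ e) =ᶠ[𝓝 x] id := by
    filter_upwards [e.open_source.mem_nhds he.2] with y hy
    exact e.left_inv hy
  have h4 : mfderiv 𝓘(ℂ, E) 𝓘(ℂ, E) (e.symm ∘ e) x = mfderiv 𝓘(ℂ, E) 𝓘(ℂ, E) (id : M → M) x :=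
    h3.mfderiv_eq
  rw [h2, mfderiv_id] at h4
  have h5 := congrArg (fun L : E →L[ℂ] E => L v) h4
  exact h5

theorem form_eq_Qt (θ : Form11 E M) {e : OpenPartialHomeomorph M E} {x : M}
    (he : IsHolChartAt e x) (v : TangentSpace 𝓘(ℂ, E) x) :
    θ.form x v (J x v) = Qt θ e (e x) (chartDeriv (E := E) e x v) := by
  unfold Qt
  rw [show tq θ (e.symm (e x)) ((mfderiv 𝓘(ℂ, E) 𝓘(ℂ, E) e.symm (e x)) (chartDeriv (E := E) e x v) : E) =
      tq θ (e.symm (e x)) (v : E) from congrArg _ (chart_param he v), e.left_inv he.2]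
  rfl

theorem form_eq_Qe (ω : PosForm E M) {e : OpenPartialHomeomorph M E} {x : M}
    (he : IsHolChartAt e x) (v : TangentSpace 𝓘(ℂ, E) x) :
    ω.form x v (J x v) = Qe ω e (e x) (chartDeriv (E := E) e x v) := by
  unfold Qe
  rw [show qf ω (e.symm (e x)) ((mfderiv 𝓘(ℂ, E) 𝓘(ℂ, E) e.symm (e x)) (chartDeriv (E := E) e x v) : E) =
      qf ω (e.symm (e x)) (v : E) from congrArg _ (chart_param he v), e.left_inv he.2]
  rfl

theorem exists_cover (ω : PosForm E M) : ∃ (t : Finset M) (r c : M → ℝ), (∀ x, 0 < r x) ∧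
    (∀ x, 0 < c x) ∧
    (∀ x, closedBall (chartAt E x x) (r x) ⊆ (chartAt E x).target) ∧
    (∀ x, ∀ y ∈ closedBall (chartAt E x x) (r x), ∀ η : E,
      c x * ‖η‖ ^ 2 ≤ Qe ω (chartAt E x) y η) ∧
    ∀ z : M, ∃ x ∈ t, z ∈ (chartAt E x).source ∧
      chartAt E x z ∈ closedBall (chartAt E x x) (r x) := by
  have : ProperSpace E := FiniteDimensional.proper ℂ E
  have hr : ∀ x : M, ∃ r > 0, closedBall (chartAt E x x) r ⊆ (chartAt E x).target := fun x =>
    Metric.nhds_basis_closedBall.mem_iff.1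
      ((chartAt E x).open_target.mem_nhds (mem_chart_target E x))
  choose r hr0 hr using hr
  have hc : ∀ x : M, ∃ c > 0, ∀ y ∈ closedBall (chartAt E x x) (r x), ∀ η : E,
      c * ‖η‖ ^ 2 ≤ Qe ω (chartAt E x) y η := fun x =>
    exists_Qe_ge ω (IsManifold.chart_mem_maximalAtlas x) (isCompact_closedBall _ _) (hr x)
  choose c hc0 hc using hc
  obtain ⟨t, ht⟩ := CompactSpace.elim_nhds_subcover
    (fun x : M => (chartAt E x).source ∩ (chartAt E x) ⁻¹' (ball (chartAt E x x) (r x)))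
    (fun x => inter_mem ((chartAt E x).open_source.mem_nhds (mem_chart_source E x))
      (((chartAt E x).continuousAt (mem_chart_source E x)).preimage_mem_nhds
        (ball_mem_nhds _ (hr0 x))))
  refine ⟨t, r, c, hr0, hc0, hr, hc, ?_⟩
  intro z
  have hz : z ∈ (⊤ : Set M) := mem_univ z
  rw [← ht, mem_iUnion₂] at hz
  obtain ⟨x, hx, h1, h2⟩ := hz
  exact ⟨x, hx, h1, ball_subset_closedBall h2⟩

theorem hom_bound {E : Type*} [NormedAddCommGroup E] [NormedSpace ℂ E] {g : E → ℝ}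
    (hg : ∀ (c : ℂ) (η : E), g (c • η) = ‖c‖ ^ 2 * g η) {B : ℝ}
    (hB : ∀ η ∈ sphere (0 : E) 1, |g η| ≤ B) (η : E) : |g η| ≤ B * ‖η‖ ^ 2 := by
  by_cases hη : η = 0
  · have := hg 0 0
    rw [zero_smul] at this
    rw [hη, this]
    simp
  · have hn : ‖η‖ ≠ 0 := norm_ne_zero_iff.2 hη
    have h1 := hB (((‖η‖⁻¹ : ℝ) : ℂ) • η) (by
      rw [mem_sphere_zero_iff_norm, norm_smul, Complex.norm_real, norm_inv, norm_norm,
        inv_mul_cancel₀ hn])
    rw [hg, Complex.norm_real, norm_inv, norm_norm, abs_mul, abs_of_nonneg (by positivity)] at h1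
    calc |g η| = (‖η‖⁻¹ ^ 2 * |g η|) * ‖η‖ ^ 2 := by field_simp
      _ ≤ B * ‖η‖ ^ 2 := by gcongr

theorem countable_of_map {A Y : Type*} [PseudoMetricSpace Y] [SecondCountableTopology Y]
    (F : A → Y) : ∃ D : Set A, D.Countable ∧
      ∀ a, ∀ δ : ℝ, 0 < δ → ∃ a' ∈ D, dist (F a) (F a') < δ := by
  obtain ⟨s, hs, hd⟩ := TopologicalSpace.exists_countable_dense (Set.range F)
  choose g hg using fun y : Set.range F => y.2
  refine ⟨g '' s, hs.image g, ?_⟩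
  intro a δ hδ
  obtain ⟨y, hy, hdist⟩ := hd.exists_dist_lt ⟨F a, a, rfl⟩ hδ
  exact ⟨g y, ⟨y, hy, rfl⟩, by rw [hg]; exact hdist⟩

/-- A continuous `(1,1)`-form is bounded by a multiple of the positive form `ω`. -/
theorem form_bdd (ω : PosForm E M) (θ : Form11 E M) : ∃ C : ℝ, 0 ≤ C ∧
    ∀ (x : M) (v : TangentSpace 𝓘(ℂ, E) x),
      |θ.form x v (J x v)| ≤ C * ω.form x v (J x v) := by
  have : ProperSpace E := FiniteDimensional.proper ℂ E
  obtain ⟨t, r, c, hr, hc, hsub, hQ, hcov⟩ := exists_cover ω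
  have hB : ∀ x : M, ∃ B : ℝ, 0 ≤ B ∧ ∀ y ∈ closedBall (chartAt E x x) (r x), ∀ η : E,
      |Qt θ (chartAt E x) y η| ≤ B * ‖η‖ ^ 2 := by
    intro x
    have hK : IsCompact (closedBall (chartAt E x x) (r x) ×ˢ sphere (0 : E) 1) :=
      (isCompact_closedBall _ _).prod (isCompact_sphere 0 1)
    have hcont : ContinuousOn (fun p : E × E => Qt θ (chartAt E x) p.1 p.2)
        (closedBall (chartAt E x x) (r x) ×ˢ sphere (0 : E) 1) :=
      (continuousOn_Qt θ (IsManifold.chart_mem_maximalAtlas x)).mono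
        (prod_mono (hsub x) (subset_univ _))
    obtain ⟨B, hB⟩ := hK.exists_bound_of_continuousOn hcont
    refine ⟨max B 0, le_max_right _ _, ?_⟩
    intro y hy
    refine hom_bound (fun c η => Qt_smul θ _ y η c) ?_
    intro η hη
    exact (hB (y, η) ⟨hy, hη⟩).trans (le_max_left _ _)
  choose B hB0 hB using hB
  refine ⟨∑ x ∈ t, B x * (c x)⁻¹,
    Finset.sum_nonneg fun x _ => mul_nonneg (hB0 x) (inv_nonneg.2 (hc x).le), ?_⟩
  intro z v
  obtain ⟨x, hx, hz, hzb⟩ := hcov z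
  have he : IsHolChartAt (chartAt E x) z := ⟨IsManifold.chart_mem_maximalAtlas x, hz⟩
  rw [form_eq_Qt θ he v, form_eq_Qe ω he v]
  obtain ⟨η, hη⟩ : ∃ η : E, η = chartDeriv (chartAt E x) z v := ⟨_, rfl⟩
  rw [← hη]
  have h1 := hB x _ hzb η
  have h2 := hQ x _ hzb η
  have hQ0 : 0 ≤ Qe ω (chartAt E x) (chartAt E x z) η :=
    le_trans (mul_nonneg (hc x).le (sq_nonneg _)) h2
  have h3 : ‖η‖ ^ 2 ≤ (c x)⁻¹ * Qe ω (chartAt E x) (chartAt E x z) η := by
    rw [inv_mul_eq_div, le_div_iff₀ (hc x), mul_comm]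
    exact h2
  have h4 : B x * (c x)⁻¹ ≤ ∑ x ∈ t, B x * (c x)⁻¹ :=
    Finset.single_le_sum (f := fun x => B x * (c x)⁻¹)
      (fun x _ => mul_nonneg (hB0 x) (inv_nonneg.2 (hc x).le)) hx
  calc |Qt θ (chartAt E x) (chartAt E x z) η| ≤ B x * ‖η‖ ^ 2 := h1
    _ ≤ B x * ((c x)⁻¹ * Qe ω (chartAt E x) (chartAt E x z) η) :=
        mul_le_mul_of_nonneg_left h3 (hB0 x)
    _ = B x * (c x)⁻¹ * Qe ω (chartAt E x) (chartAt E x z) η := by ring
    _ ≤ _ := mul_le_mul_of_nonneg_right h4 hQ0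

/-- The continuous `(1,1)`-forms are separable, with respect to the sup norm given by `ω`. -/
theorem exists_countable_forms (ω : PosForm E M) : ∃ D : Set (Form11 E M), D.Countable ∧
    ∀ (θ : Form11 E M) (ε : ℝ), 0 < ε → ∃ θ' ∈ D, ∀ (x : M) (v : TangentSpace 𝓘(ℂ, E) x),
      |θ.form x v (J x v) - θ'.form x v (J x v)| ≤ ε * ω.form x v (J x v) := by
  have : ProperSpace E := FiniteDimensional.proper ℂ E
  obtain ⟨t, r, c, hr, hc, hsub, hQ, hcov⟩ := exists_cover ω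
  obtain ⟨K, hK⟩ : ∃ K : M → Set (E × E),
      K = fun x => closedBall (chartAt E x x) (r x) ×ˢ sphere (0 : E) 1 := ⟨_, rfl⟩
  have hKc : ∀ x, CompactSpace (K x) := by
    intro x
    rw [← isCompact_iff_compactSpace, hK]
    exact (isCompact_closedBall _ _).prod (isCompact_sphere 0 1)
  have hcont : ∀ (θ : Form11 E M) (x : M), Continuous
      (fun p : K x => Qt θ (chartAt E x) p.1.1 p.1.2) := by
    intro θ x
    have h1 : ContinuousOn (fun p : E × E => Qt θ (chartAt E x) p.1 p.2) (K x) := by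
      rw [hK]
      exact (continuousOn_Qt θ (IsManifold.chart_mem_maximalAtlas x)).mono
        (prod_mono (hsub x) (subset_univ _))
    exact continuousOn_iff_continuous_domRestrict.1 h1
  obtain ⟨D, hD, hDd⟩ := countable_of_map (Y := ∀ x : t, C(K x, ℝ))
    (fun θ : Form11 E M => fun x : t =>
      (⟨fun p : K x => Qt θ (chartAt E (x : M)) p.1.1 p.1.2, hcont θ x⟩ : C(K x, ℝ)))
  refine ⟨D, hD, ?_⟩
  intro θ ε hε
  obtain ⟨m, hm⟩ : ∃ m, m = ∑ x ∈ t, (c x)⁻¹ + 1 := ⟨_, rfl⟩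
  have hm0 : 0 < m := by
    rw [hm]
    have : 0 ≤ ∑ x ∈ t, (c x)⁻¹ := Finset.sum_nonneg fun x _ => inv_nonneg.2 (hc x).le
    linarith
  obtain ⟨θ', hθ', hdist⟩ := hDd θ (ε / m) (div_pos hε hm0)
  refine ⟨θ', hθ', ?_⟩
  intro z v
  obtain ⟨x, hx, hz, hzb⟩ := hcov z
  have he : IsHolChartAt (chartAt E x) z := ⟨IsManifold.chart_mem_maximalAtlas x, hz⟩
  rw [form_eq_Qt θ he v, form_eq_Qt θ' he v, form_eq_Qe ω he v]
  obtain ⟨η, hη⟩ : ∃ η : E, η = chartDeriv (chartAt E x) z v := ⟨_, rfl⟩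
  rw [← hη]
  have h1 : |Qt θ (chartAt E x) (chartAt E x z) η - Qt θ' (chartAt E x) (chartAt E x z) η| ≤
      ε / m * ‖η‖ ^ 2 := by
    refine hom_bound (g := fun η => Qt θ (chartAt E x) (chartAt E x z) η -
      Qt θ' (chartAt E x) (chartAt E x z) η) ?_ ?_ η
    · intro a η
      show Qt θ (chartAt E x) (chartAt E x z) (a • η) - Qt θ' (chartAt E x) (chartAt E x z) (a • η)
        = ‖a‖ ^ 2 * (Qt θ (chartAt E x) (chartAt E x z) η - Qt θ' (chartAt E x) (chartAt E x z) η)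
      rw [Qt_smul, Qt_smul]
      ring
    · intro η hη
      have hmem : (chartAt E x z, η) ∈ K x := by
        rw [hK]
        exact ⟨hzb, hη⟩
      have h2 := (dist_le_pi_dist (fun x : t =>
        (⟨fun p : K x => Qt θ (chartAt E (x : M)) p.1.1 p.1.2, hcont θ x⟩ : C(K x, ℝ)))
        (fun x : t =>
        (⟨fun p : K x => Qt θ' (chartAt E (x : M)) p.1.1 p.1.2, hcont θ' x⟩ : C(K x, ℝ)))
        ⟨x, hx⟩).trans hdist.le
      have h3 := (ContinuousMap.dist_apply_le_dist ⟨(chartAt E x z, η), hmem⟩).trans h2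
      exact h3
  have h2 := hQ x _ hzb η
  have hQ0 : 0 ≤ Qe ω (chartAt E x) (chartAt E x z) η :=
    le_trans (mul_nonneg (hc x).le (sq_nonneg _)) h2
  have h3 : ‖η‖ ^ 2 ≤ (c x)⁻¹ * Qe ω (chartAt E x) (chartAt E x z) η := by
    rw [inv_mul_eq_div, le_div_iff₀ (hc x), mul_comm]
    exact h2
  have h4 : (c x)⁻¹ ≤ m := by
    have h5 : (c x)⁻¹ ≤ ∑ x ∈ t, (c x)⁻¹ :=
      Finset.single_le_sum (f := fun x => (c x)⁻¹) (fun x _ => inv_nonneg.2 (hc x).le) hx
    rw [hm]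
    linarith
  calc |Qt θ (chartAt E x) (chartAt E x z) η - Qt θ' (chartAt E x) (chartAt E x z) η| ≤
        ε / m * ‖η‖ ^ 2 := h1
    _ ≤ ε / m * ((c x)⁻¹ * Qe ω (chartAt E x) (chartAt E x z) η) :=
        mul_le_mul_of_nonneg_left h3 (div_pos hε hm0).le
    _ ≤ ε / m * (m * Qe ω (chartAt E x) (chartAt E x z) η) :=
        mul_le_mul_of_nonneg_left (mul_le_mul_of_nonneg_right h4 hQ0) (div_pos hε hm0).le
    _ = ε * Qe ω (chartAt E x) (chartAt E x z) η := by field_simp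

end Pool.Agent.Helper684.GX.Ergo
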