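import Pool.Agent.Helper684.GX.Ergo.Defs

attribute [local instance] Pool.Agent.Helper684.GX.Nev.leafInst

/-!
Currents of bidimension `(1,1)` on a compact complex manifold.

The space `Form11 E M` of the continuous real `(1,1)`-forms is a real vector space. Positive
currents of bidimension `(1,1)` are of order `0`: they are the positive linear functionals on
`Form11 E M`.
-/

set_option autoImplicit false

open scoped Manifold
open Metric MeasureTheory
open Pool.Agent.Helper684.GX.Nev

namespace Pool.Agent.Helper684.GX.Ergo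

variable {E M : Type*} [NormedAddCommGroup E] [NormedSpace ℂ E] [TopologicalSpace M]
  [ChartedSpace E M]

section forms

variable [IsManifold 𝓘(ℂ, E) 1 M]

namespace Form11

theorem form_injective : Function.Injective (Form11.form : Form11 E M → _) := by
  rintro ⟨a, _, _⟩ ⟨b, _, _⟩ h
  cases h
  rfl

instance : Zero (Form11 E M) :=
  ⟨{ form := fun _ _ _ => 0
     isForm11At := fun _ => ⟨by simp, by simp, by simp, by simp⟩
     cont := continuous_const }⟩

instance : Add (Form11 E M) :=
  ⟨fun θ θ' =>
    { form := fun x u v => θ.form x u v + θ'.form x u v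
      isForm11At := fun x =>
        { add_left := fun u v w => by
            rw [(θ.isForm11At x).add_left, (θ'.isForm11At x).add_left]; ring
          smul_left := fun a v w => by
            rw [(θ.isForm11At x).smul_left, (θ'.isForm11At x).smul_left]; ring
          antisymm := fun v w => by
            rw [(θ.isForm11At x).antisymm, (θ'.isForm11At x).antisymm]; ring
          inv := fun v w => by
            rw [(θ.isForm11At x).inv, (θ'.isForm11At x).inv] }
      cont := θ.cont.add θ'.cont }⟩

/-- the product of a continuous function and a `(1,1)`-form -/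
def mulFun (f : C(M, ℝ)) (θ : Form11 E M) : Form11 E M where
  form x u v := f x * θ.form x u v
  isForm11At x :=
    { add_left := fun u v w => by
        rw [(θ.isForm11At x).add_left]; ring
      smul_left := fun a v w => by
        rw [(θ.isForm11At x).smul_left]; ring
      antisymm := fun v w => by
        rw [(θ.isForm11At x).antisymm]; ring
      inv := fun v w => by
        rw [(θ.isForm11At x).inv] }
  cont := (f.continuous.comp (FiberBundle.continuous_proj E
    (TangentSpace 𝓘(ℂ, E) (M := M)))).mul θ.cont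

instance : SMul ℝ (Form11 E M) := ⟨fun c θ => mulFun (ContinuousMap.const M c) θ⟩
instance : SMul ℕ (Form11 E M) := ⟨fun c θ => mulFun (ContinuousMap.const M (c : ℝ)) θ⟩
instance : SMul ℤ (Form11 E M) := ⟨fun c θ => mulFun (ContinuousMap.const M (c : ℝ)) θ⟩
instance : Neg (Form11 E M) := ⟨fun θ => mulFun (ContinuousMap.const M (-1)) θ⟩
instance : Sub (Form11 E M) := ⟨fun θ θ' => θ + (-θ')⟩

@[simp] theorem zero_form (x : M) (u v : TangentSpace 𝓘(ℂ, E) x) :
    (0 : Form11 E M).form x u v = 0 := rfl
@[simp] theorem add_form (θ θ' : Form11 E M) (x : M) (u v : TangentSpace 𝓘(ℂ, E) x) :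
    (θ + θ').form x u v = θ.form x u v + θ'.form x u v := rfl
@[simp] theorem mulFun_form (f : C(M, ℝ)) (θ : Form11 E M) (x : M)
    (u v : TangentSpace 𝓘(ℂ, E) x) : (mulFun f θ).form x u v = f x * θ.form x u v := rfl
@[simp] theorem smul_form (c : ℝ) (θ : Form11 E M) (x : M) (u v : TangentSpace 𝓘(ℂ, E) x) :
    (c • θ).form x u v = c * θ.form x u v := rfl
@[simp] theorem neg_form (θ : Form11 E M) (x : M) (u v : TangentSpace 𝓘(ℂ, E) x) :
    (-θ).form x u v = - θ.form x u v := by
  show (-1 : ℝ) * θ.form x u v = _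
  ring
@[simp] theorem sub_form (θ θ' : Form11 E M) (x : M) (u v : TangentSpace 𝓘(ℂ, E) x) :
    (θ - θ').form x u v = θ.form x u v - θ'.form x u v := by
  show θ.form x u v + (-1 : ℝ) * θ'.form x u v = _
  ring

instance : AddCommGroup (Form11 E M) :=
  form_injective.addCommGroup _ rfl (fun _ _ => rfl)
    (fun θ => by funext x u v; exact neg_form θ x u v)
    (fun θ θ' => by funext x u v; exact sub_form θ θ' x u v)
    (fun θ n => by
      funext x u v
      show ((n : ℝ)) * θ.form x u v = (n • θ.form) x u v
      simp [nsmul_eq_mul])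
    (fun θ n => by
      funext x u v
      show ((n : ℝ)) * θ.form x u v = (n • θ.form) x u v
      simp [zsmul_eq_mul])

instance : Module ℝ (Form11 E M) where
  one_smul θ := form_injective (by funext x u v; simp)
  mul_smul a b θ := form_injective (by funext x u v; simp [mul_assoc])
  smul_zero a := form_injective (by funext x u v; simp)
  smul_add a θ θ' := form_injective (by funext x u v; simp [mul_add])
  add_smul a b θ := form_injective (by funext x u v; simp [add_mul])
  zero_smul θ := form_injective (by funext x u v; simp)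

end Form11

/-- A positive `(1,1)`-form, as a real `(1,1)`-form. -/
def _root_.Pool.Agent.Helper684.GX.Nev.PosForm.toForm11 (ω : PosForm E M) : Form11 E M where
  form := ω.form
  isForm11At x := ⟨(ω.isPositiveAt x).add_left, (ω.isPositiveAt x).smul_left,
    (ω.isPositiveAt x).antisymm, (ω.isPositiveAt x).inv⟩
  cont := ω.cont

/-- `T` is a positive `dd^c`-closed current of bidimension `(1,1)` directed by the foliation
`F`. -/
structure IsHarmonicCurrent (F : Foliation E M) (T : Form11 E M →ₗ[ℝ] ℝ) : Prop where
  /-- `T` is positive: `⟨T, θ⟩ ≥ 0` for all positive `(1,1)`-forms `θ`. -/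
  pos : ∀ θ : Form11 E M, (∀ (x : M) (v : TangentSpace 𝓘(ℂ, E) x), 0 ≤ θ.form x v (J x v)) →
    0 ≤ T θ
  /-- `T` is directed by `F`: `⟨T, θ⟩ = 0` for all `(1,1)`-forms `θ` which vanish along the
  leaves. -/
  directed : ∀ θ : Form11 E M, (∀ x, x ∉ F.sing → ∀ v ∈ F.dir x, θ.form x v (J x v) = 0) →
    T θ = 0
  /-- `T` is `dd^c`-closed: `⟨T, dd^c f⟩ = 0` for all smooth functions `f`. -/
  closed : ∀ (f : M → ℝ) (θ : Form11 E M),
    ContMDiff 𝓘(ℝ, E) 𝓘(ℝ, ℝ) ((⊤ : ℕ∞) : WithTop ℕ∞) f →
    (∀ (x : M) (v : TangentSpace 𝓘(ℂ, E) x), θ.form x v (J x v) = ddcForm f x v) → T θ = 0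

/-- `T` is extremal among the positive `dd^c`-closed currents directed by `F`. -/
def IsExtremalCurrent (F : Foliation E M) (T : Form11 E M →ₗ[ℝ] ℝ) : Prop :=
  ∀ T₁ T₂ : Form11 E M →ₗ[ℝ] ℝ, IsHarmonicCurrent F T₁ → IsHarmonicCurrent F T₂ →
    T = T₁ + T₂ → ∃ c : ℝ, T₁ = c • T

/-- `μ` is the trace measure `T ∧ ω` of the current `T`. -/
def IsTraceL [MeasurableSpace M] (ω : PosForm E M) (T : Form11 E M →ₗ[ℝ] ℝ)
    (μ : Measure M) : Prop :=
  ∀ f : C(M, ℝ), T (Form11.mulFun f ω.toForm11) = ∫ x, f x ∂μ

end forms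

end Pool.Agent.Helper684.GX.Ergo
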