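import Pool.Agent.Helper684.GX.Ergo.KDefs

set_option autoImplicit false


open MeasureTheory ProbabilityTheory Metric Set Filter Topology
open scoped ComplexConjugate ENNReal

namespace Pool.Agent.Helper684.GX.Ergo

variable {M : Type*} [MeasurableSpace M]

theorem f1_meas_gT (x : ℝ) : Measurable fun u : ℝ => ENNReal.ofReal (gT x u) := by
  unfold gT
  apply Measurable.ennreal_ofReal
  fun_prop

theorem f1_meas_gK (x : ℝ) : Measurable fun u : ℝ => ENNReal.ofReal (gK x u) := by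
  unfold gK
  apply Measurable.ennreal_ofReal
  apply Measurable.max measurable_const
  apply Measurable.sub measurable_const
  exact Real.measurable_log.comp (measurable_const.sub measurable_id)

theorem f1_gK_le {x u : ℝ} (hx : 0 < x) (hx1 : x < 1) (hu : 0 < u) (hu1 : u ≤ 1) :
    ENNReal.ofReal (gK x u) ≤ 8 * ENNReal.ofReal (gT x u) + ENNReal.ofReal (lK u) := by
  by_cases h : 1 / 2 < u
  · have h1 : gK x u ≤ lK u := by
      unfold gK lK
      rw [if_pos h]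
      have h2 : Real.log (1 - u) ≤ 0 := Real.log_nonpos (by linarith) (by linarith)
      have h3 : Real.log x ≤ 0 := Real.log_nonpos hx.le hx1.le
      apply max_le
      · linarith
      · linarith
    exact (ENNReal.ofReal_le_ofReal h1).trans le_add_self
  · have h1 := gK_le_gT hx hx1 hu (not_lt.mp h)
    have h2 := ENNReal.ofReal_le_ofReal h1
    rw [ENNReal.ofReal_mul (by norm_num), show ENNReal.ofReal 8 = 8 by simp] at h2
    exact h2.trans le_self_add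

theorem f1_up {x : ℝ} (hx : 0 < x) (hx1 : x < 1) (φ : ℂ → ℝ≥0∞) (hφ : Measurable φ) :
    ∫⁻ w, ENNReal.ofReal (gK x (hh 0 w)) * φ w ∂hypVol ≤
      8 * ∫⁻ w, ENNReal.ofReal (gT x (hh 0 w)) * φ w ∂hypVol +
        ∫⁻ w, ENNReal.ofReal (lK (hh 0 w)) * φ w ∂hypVol := by
  have hm : Measurable fun w : ℂ => ENNReal.ofReal (gT x (hh 0 w)) * φ w :=
    ((f1_meas_gT x).comp measurable_hh0).mul hφ
  rw [← lintegral_const_mul _ hm, ← lintegral_add_left (hm.const_mul 8)]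
  apply lintegral_mono_ae
  filter_upwards [cc5] with w hw
  have h0 : (0 : ℂ) ∈ ball (0 : ℂ) 1 := mem_ball_self one_pos
  have h1 := f1_gK_le hx hx1 (hh_pos h0 hw) (hh_le_one h0 hw)
  calc ENNReal.ofReal (gK x (hh 0 w)) * φ w ≤
      (8 * ENNReal.ofReal (gT x (hh 0 w)) + ENNReal.ofReal (lK (hh 0 w))) * φ w := by gcongr
    _ = _ := by rw [add_mul, mul_assoc]

theorem f1_abs1 (a b : ℝ) : ENNReal.ofReal a ≤ ENNReal.ofReal b + ENNReal.ofReal |a - b| := by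
  calc ENNReal.ofReal a ≤ ENNReal.ofReal (b + |a - b|) :=
        ENNReal.ofReal_le_ofReal (by linarith [le_abs_self (a - b)])
    _ ≤ _ := ENNReal.ofReal_add_le

theorem f1_bd1 {x C : ℝ} (hC : ∫⁻ w, ENNReal.ofReal |gK x (hh 0 w) - gT x (hh 0 w)| ∂hypVol ≤ ENNReal.ofReal C)
    (φ : ℂ → ℝ≥0∞) (hφ : Measurable φ) (k : ℕ) (hk : ∀ w, φ w ≤ k) :
    ∫⁻ w, ENNReal.ofReal (gK x (hh 0 w)) * φ w ∂hypVol ≤
      (∫⁻ w, ENNReal.ofReal (gT x (hh 0 w)) * φ w ∂hypVol) + ENNReal.ofReal C * k := by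
  have hm : Measurable fun w : ℂ => ENNReal.ofReal (gT x (hh 0 w)) * φ w :=
    ((f1_meas_gT x).comp measurable_hh0).mul hφ
  calc ∫⁻ w, ENNReal.ofReal (gK x (hh 0 w)) * φ w ∂hypVol
      ≤ ∫⁻ w, (ENNReal.ofReal (gT x (hh 0 w)) * φ w +
          ENNReal.ofReal |gK x (hh 0 w) - gT x (hh 0 w)| * k) ∂hypVol := by
        apply lintegral_mono
        intro w
        calc ENNReal.ofReal (gK x (hh 0 w)) * φ w ≤ (ENNReal.ofReal (gT x (hh 0 w)) +
              ENNReal.ofReal |gK x (hh 0 w) - gT x (hh 0 w)|) * φ w := by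
              gcongr
              exact f1_abs1 _ _
          _ ≤ _ := by
              rw [add_mul]
              exact add_le_add le_rfl (mul_le_mul' le_rfl (hk w))
    _ = (∫⁻ w, ENNReal.ofReal (gT x (hh 0 w)) * φ w ∂hypVol) +
          (∫⁻ w, ENNReal.ofReal |gK x (hh 0 w) - gT x (hh 0 w)| ∂hypVol) * k := by
        rw [lintegral_add_left hm, lintegral_mul_const' _ _ (ENNReal.natCast_ne_top k)]
    _ ≤ _ := by gcongr

theorem f1_bd2 {x C : ℝ} (hC : ∫⁻ w, ENNReal.ofReal |gK x (hh 0 w) - gT x (hh 0 w)| ∂hypVol ≤ ENNReal.ofReal C)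
    (φ : ℂ → ℝ≥0∞) (hφ : Measurable φ) (k : ℕ) (hk : ∀ w, φ w ≤ k) :
    ∫⁻ w, ENNReal.ofReal (gT x (hh 0 w)) * φ w ∂hypVol ≤
      (∫⁻ w, ENNReal.ofReal (gK x (hh 0 w)) * φ w ∂hypVol) + ENNReal.ofReal C * k := by
  have hm : Measurable fun w : ℂ => ENNReal.ofReal (gK x (hh 0 w)) * φ w :=
    ((f1_meas_gK x).comp measurable_hh0).mul hφ
  calc ∫⁻ w, ENNReal.ofReal (gT x (hh 0 w)) * φ w ∂hypVol
      ≤ ∫⁻ w, (ENNReal.ofReal (gK x (hh 0 w)) * φ w +
          ENNReal.ofReal |gK x (hh 0 w) - gT x (hh 0 w)| * k) ∂hypVol := by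
        apply lintegral_mono
        intro w
        calc ENNReal.ofReal (gT x (hh 0 w)) * φ w ≤ (ENNReal.ofReal (gK x (hh 0 w)) +
              ENNReal.ofReal |gK x (hh 0 w) - gT x (hh 0 w)|) * φ w := by
              gcongr
              rw [abs_sub_comm]
              exact f1_abs1 _ _
          _ ≤ _ := by
              rw [add_mul]
              exact add_le_add le_rfl (mul_le_mul' le_rfl (hk w))
    _ = (∫⁻ w, ENNReal.ofReal (gK x (hh 0 w)) * φ w ∂hypVol) +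
          (∫⁻ w, ENNReal.ofReal |gK x (hh 0 w) - gT x (hh 0 w)| ∂hypVol) * k := by
        rw [lintegral_add_left hm, lintegral_mul_const' _ _ (ENNReal.natCast_ne_top k)]
    _ ≤ _ := by gcongr

/-- the real variable part -/
theorem f1_real (a : ℕ → ℝ) (p q : ℕ → ℕ → ℝ) (C B L : ℝ) (lp lq : ℕ → ℝ)
    (hp : ∀ k, Tendsto (fun n : ℕ => p k n / n) atTop (𝓝 (lp k)))
    (hq : ∀ k, Tendsto (fun n : ℕ => q k n / n) atTop (𝓝 (lq k)))
    (hpq : ∀ k, lp k + lq k = L) (hlq : Tendsto lq atTop (𝓝 0)) (hlq0 : ∀ k, 0 ≤ lq k)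
    (h1 : ∀ k n, 1 ≤ n → a n ≤ p k n + C * k + (8 * q k n + B))
    (h2 : ∀ k n, 1 ≤ n → p k n ≤ a n + C * k) :
    Tendsto (fun n : ℕ => a n / n) atTop (𝓝 L) := by
  have hc : ∀ c : ℝ, Tendsto (fun n : ℕ => c / (n : ℝ)) atTop (𝓝 0) := fun c =>
    tendsto_const_div_atTop_nhds_zero_nat c
  rw [tendsto_order]
  constructor
  · intro b hb
    have hev : ∀ᶠ k in atTop, lq k < L - b := (tendsto_order.1 hlq).2 _ (by linarith)
    obtain ⟨k, hk⟩ := hev.exists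
    have ht : Tendsto (fun n : ℕ => p k n / n - (C * k) / n) atTop (𝓝 (lp k - 0)) := (hp k).sub (hc _)
    have hev2 : ∀ᶠ n in atTop, b < p k n / n - (C * k) / n :=
      (tendsto_order.1 ht).1 _ (by have := hpq k; linarith)
    filter_upwards [hev2, eventually_ge_atTop 1] with n hn hn1
    have hn0 : (0 : ℝ) < n := by exact_mod_cast hn1
    have h3 := h2 k n hn1
    refine hn.trans_le ?_
    rw [← sub_div]
    apply div_le_div_of_nonneg_right _ hn0.le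
    linarith
  · intro b hb
    have hev : ∀ᶠ k in atTop, lq k < (b - L) / 8 := (tendsto_order.1 hlq).2 _ (by linarith)
    obtain ⟨k, hk⟩ := hev.exists
    have ht : Tendsto (fun n : ℕ => p k n / n + 8 * (q k n / n) + (C * k + B) / n) atTop
        (𝓝 (lp k + 8 * lq k + 0)) := ((hp k).add ((hq k).const_mul 8)).add (hc _)
    have hev2 : ∀ᶠ n in atTop, p k n / n + 8 * (q k n / n) + (C * k + B) / n < b :=
      (tendsto_order.1 ht).2 _ (by have := hpq k; have := hlq0 k; linarith)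
    filter_upwards [hev2, eventually_ge_atTop 1] with n hn hn1
    have hn0 : (0 : ℝ) < n := by exact_mod_cast hn1
    have h3 := h1 k n hn1
    refine lt_of_le_of_lt ?_ hn
    rw [← mul_div_assoc, ← add_div, ← add_div]
    apply div_le_div_of_nonneg_right _ hn0.le
    linarith

/-- The ergodic theorem for the kernels `gK` (Green functions) from the one for the averaged
kernels `gT`. -/
theorem green_limit (Φ : M → ℂ → M) (hΦ : Measurable fun p : M × ℂ => Φ p.1 p.2)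
    (m : Measure M) [IsFiniteMeasure m] (hm0 : m univ ≠ 0)
    (herg : ∀ f : M → ℝ≥0∞, Measurable f → ∫⁻ x, f x ∂m < ⊤ → ∀ᵐ x ∂m,
      Tendsto (fun n : ℕ => (∫⁻ y, f y ∂(green Φ hΦ n x)).toReal / n) atTop
        (𝓝 (Real.pi * (∫⁻ x, f x ∂m).toReal / (m univ).toReal)))
    (hgf : ∀ n : ℕ, 1 ≤ n → ∀ f : M → ℝ≥0∞, Measurable f → ∫⁻ x, f x ∂m < ⊤ → ∀ᵐ x ∂m,
      ∫⁻ y, f y ∂(green Φ hΦ n x) < ⊤)
    (f : M → ℝ≥0∞) (hf : Measurable f) (hfin : ∫⁻ x, f x ∂m < ⊤)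
    (hloc : ∀ᵐ x ∂m, ∫⁻ w, ENNReal.ofReal (lK (hh 0 w)) * f (Φ x w) ∂hypVol < ⊤) :
    ∀ᵐ x ∂m, (∀ n : ℕ, 1 ≤ n →
        ∫⁻ w, ENNReal.ofReal (gK (1 - Real.exp (-n)) (hh 0 w)) * f (Φ x w) ∂hypVol < ⊤) ∧
      Tendsto (fun n : ℕ =>
        (∫⁻ w, ENNReal.ofReal (gK (1 - Real.exp (-n)) (hh 0 w)) * f (Φ x w) ∂hypVol).toReal / n)
        atTop (𝓝 (Real.pi * (∫⁻ x, f x ∂m).toReal / (m univ).toReal)) := by
  obtain ⟨C, hC⟩ := mass_gK_sub_gT
  let fk : ℕ → M → ℝ≥0∞ := fun k y => min (f y) k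
  let gk : ℕ → M → ℝ≥0∞ := fun k y => f y - min (f y) k
  have hfk : ∀ k, Measurable (fk k) := fun k => hf.min measurable_const
  have hgk : ∀ k, Measurable (gk k) := fun k => hf.sub (hf.min measurable_const)
  have hfkle : ∀ k y, fk k y ≤ f y := fun k y => min_le_left _ _
  have hgkle : ∀ k y, gk k y ≤ f y := fun k y => tsub_le_self
  have hfkk : ∀ k y, fk k y ≤ k := fun k y => min_le_right _ _
  have hadd : ∀ k y, fk k y + gk k y = f y := fun k y => add_tsub_cancel_of_le (min_le_left _ _)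
  have hfkfin : ∀ k, ∫⁻ x, fk k x ∂m < ⊤ := fun k => (lintegral_mono (hfkle k)).trans_lt hfin
  have hgkfin : ∀ k, ∫⁻ x, gk k x ∂m < ⊤ := fun k => (lintegral_mono (hgkle k)).trans_lt hfin
  have hint : ∀ k, ∫⁻ x, fk k x ∂m + ∫⁻ x, gk k x ∂m = ∫⁻ x, f x ∂m := by
    intro k
    have h1 : ∫⁻ x, f x ∂m = ∫⁻ x, (fk k x + gk k x) ∂m := by
      congr 1; funext y; exact (hadd k y).symm
    rw [h1, lintegral_add_left (hfk k)]
  have hgk0 : Tendsto (fun k => ∫⁻ x, gk k x ∂m) atTop (𝓝 0) := by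
    have h1 : Tendsto (fun k => ∫⁻ x, gk k x ∂m) atTop (𝓝 (∫⁻ _, 0 ∂m)) := by
      apply tendsto_lintegral_of_dominated_convergence f hgk
      · intro k; exact Filter.Eventually.of_forall (hgkle k)
      · exact hfin.ne
      · filter_upwards [ae_lt_top hf hfin.ne] with y hy
        obtain ⟨N, hN⟩ := ENNReal.exists_nat_gt hy.ne
        apply tendsto_atTop_of_eventually_const (i₀ := N)
        intro k hk
        have h2 : f y ≤ k := hN.le.trans (by exact_mod_cast hk)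
        simp only [gk]
        rw [min_eq_left h2, tsub_self]
    simpa using h1
  have hmu : 0 < (m univ).toReal := ENNReal.toReal_pos hm0 (measure_ne_top m univ)
  have ae1 : ∀ᵐ x ∂m, ∀ k, Tendsto (fun n : ℕ => (∫⁻ y, fk k y ∂(green Φ hΦ n x)).toReal / n) atTop
        (𝓝 (Real.pi * (∫⁻ x, fk k x ∂m).toReal / (m univ).toReal)) :=
    ae_all_iff.2 fun k => herg (fk k) (hfk k) (hfkfin k)
  have ae2 : ∀ᵐ x ∂m, ∀ k, Tendsto (fun n : ℕ => (∫⁻ y, gk k y ∂(green Φ hΦ n x)).toReal / n) atTop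
        (𝓝 (Real.pi * (∫⁻ x, gk k x ∂m).toReal / (m univ).toReal)) :=
    ae_all_iff.2 fun k => herg (gk k) (hgk k) (hgkfin k)
  have ae3 : ∀ᵐ x ∂m, ∀ (k n : ℕ), 1 ≤ n → ∫⁻ y, fk k y ∂(green Φ hΦ n x) < ⊤ := by
    refine ae_all_iff.2 fun k => ae_all_iff.2 fun n => ?_
    by_cases hn : 1 ≤ n
    · filter_upwards [hgf n hn (fk k) (hfk k) (hfkfin k)] with x hx _
      exact hx
    · exact Filter.Eventually.of_forall fun x h => absurd h hn
  have ae4 : ∀ᵐ x ∂m, ∀ (k n : ℕ), 1 ≤ n → ∫⁻ y, gk k y ∂(green Φ hΦ n x) < ⊤ := by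
    refine ae_all_iff.2 fun k => ae_all_iff.2 fun n => ?_
    by_cases hn : 1 ≤ n
    · filter_upwards [hgf n hn (gk k) (hgk k) (hgkfin k)] with x hx _
      exact hx
    · exact Filter.Eventually.of_forall fun x h => absurd h hn
  filter_upwards [ae1, ae2, ae3, ae4, hloc] with x hx1 hx2 hx3 hx4 hx5
  have hΦx : Measurable (Φ x) := hΦ.comp measurable_prodMk_left
  have hxn : ∀ n : ℕ, 1 ≤ n → 0 < 1 - Real.exp (-(n : ℝ)) ∧ 1 - Real.exp (-(n : ℝ)) < 1 := by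
    intro n hn
    have hn0 : (0 : ℝ) < n := by exact_mod_cast hn
    have h1 : Real.exp (-(n : ℝ)) < 1 := by
      rw [Real.exp_lt_one_iff]; linarith
    have h2 := Real.exp_pos (-(n : ℝ))
    constructor <;> linarith
  have hG : ∀ (n : ℕ) (φ : M → ℝ≥0∞), Measurable φ → ∫⁻ y, φ y ∂(green Φ hΦ n x) =
      ∫⁻ w, ENNReal.ofReal (gT (1 - Real.exp (-n)) (hh 0 w)) * φ (Φ x w) ∂hypVol := by
    intro n φ hφ
    exact lintegral_kerOf hΦ (f1_meas_gT _) hφ x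
  have hA : ∀ (n k : ℕ), ∫⁻ w, ENNReal.ofReal (gK (1 - Real.exp (-n)) (hh 0 w)) * f (Φ x w) ∂hypVol =
      (∫⁻ w, ENNReal.ofReal (gK (1 - Real.exp (-n)) (hh 0 w)) * fk k (Φ x w) ∂hypVol) +
      ∫⁻ w, ENNReal.ofReal (gK (1 - Real.exp (-n)) (hh 0 w)) * gk k (Φ x w) ∂hypVol := by
    intro n k
    have hm1 : Measurable fun w : ℂ => ENNReal.ofReal (gK (1 - Real.exp (-n)) (hh 0 w)) * fk k (Φ x w) :=
      ((f1_meas_gK _).comp measurable_hh0).mul ((hfk k).comp hΦx)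
    rw [← lintegral_add_left hm1]
    apply lintegral_congr
    intro w
    rw [← mul_add, hadd]
  have hup : ∀ (k n : ℕ), 1 ≤ n →
      ∫⁻ w, ENNReal.ofReal (gK (1 - Real.exp (-n)) (hh 0 w)) * f (Φ x w) ∂hypVol ≤
      (∫⁻ y, fk k y ∂(green Φ hΦ n x)) + ENNReal.ofReal C * k + (8 * (∫⁻ y, gk k y ∂(green Φ hΦ n x)) +
        ∫⁻ w, ENNReal.ofReal (lK (hh 0 w)) * f (Φ x w) ∂hypVol) := by
    intro k n hn
    obtain ⟨e1, e2⟩ := hxn n hn
    rw [hA n k, hG n _ (hfk k), hG n _ (hgk k)]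
    apply add_le_add
    · exact f1_bd1 (hC _ e1 e2) (fun w => fk k (Φ x w)) ((hfk k).comp hΦx) k (fun w => hfkk k _)
    · refine (f1_up e1 e2 (fun w => gk k (Φ x w)) ((hgk k).comp hΦx)).trans ?_
      apply add_le_add le_rfl
      apply lintegral_mono
      intro w
      exact mul_le_mul' le_rfl (hgkle k _)
  have hlow : ∀ (k n : ℕ), 1 ≤ n →
      ∫⁻ y, fk k y ∂(green Φ hΦ n x) ≤
      (∫⁻ w, ENNReal.ofReal (gK (1 - Real.exp (-n)) (hh 0 w)) * f (Φ x w) ∂hypVol) + ENNReal.ofReal C * k := by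
    intro k n hn
    obtain ⟨e1, e2⟩ := hxn n hn
    rw [hG n _ (hfk k)]
    refine (f1_bd2 (hC _ e1 e2) (fun w => fk k (Φ x w)) ((hfk k).comp hΦx) k (fun w => hfkk k _)).trans ?_
    apply add_le_add _ le_rfl
    apply lintegral_mono
    intro w
    exact mul_le_mul' le_rfl (hfkle k _)
  have hCk : ∀ k : ℕ, ENNReal.ofReal C * (k : ℝ≥0∞) ≠ ⊤ := fun k =>
    ENNReal.mul_ne_top ENNReal.ofReal_ne_top (ENNReal.natCast_ne_top k)
  have hRfin : ∀ (k n : ℕ), 1 ≤ n → (∫⁻ y, fk k y ∂(green Φ hΦ n x)) + ENNReal.ofReal C * k +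
      (8 * (∫⁻ y, gk k y ∂(green Φ hΦ n x)) +
        ∫⁻ w, ENNReal.ofReal (lK (hh 0 w)) * f (Φ x w) ∂hypVol) ≠ ⊤ := by
    intro k n hn
    exact ENNReal.add_ne_top.2 ⟨ENNReal.add_ne_top.2 ⟨(hx3 k n hn).ne, hCk k⟩,
      ENNReal.add_ne_top.2 ⟨ENNReal.mul_ne_top (by norm_num) (hx4 k n hn).ne, hx5.ne⟩⟩
  have hAfin : ∀ n : ℕ, 1 ≤ n →
      ∫⁻ w, ENNReal.ofReal (gK (1 - Real.exp (-n)) (hh 0 w)) * f (Φ x w) ∂hypVol < ⊤ := by
    intro n hn
    exact (hup 0 n hn).trans_lt (lt_top_iff_ne_top.2 (hRfin 0 n hn))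
  refine ⟨hAfin, ?_⟩
  refine f1_real (fun n => (∫⁻ w, ENNReal.ofReal (gK (1 - Real.exp (-n)) (hh 0 w)) * f (Φ x w) ∂hypVol).toReal)
    (fun k n => (∫⁻ y, fk k y ∂(green Φ hΦ n x)).toReal) (fun k n => (∫⁻ y, gk k y ∂(green Φ hΦ n x)).toReal)
    (ENNReal.ofReal C).toReal (∫⁻ w, ENNReal.ofReal (lK (hh 0 w)) * f (Φ x w) ∂hypVol).toReal _ _ _
    hx1 hx2 ?_ ?_ ?_ ?_ ?_
  · intro k
    rw [← add_div, ← mul_add, ← ENNReal.toReal_add (hfkfin k).ne (hgkfin k).ne, hint k]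
  · have h1 := (ENNReal.tendsto_toReal ENNReal.zero_ne_top).comp hgk0
    have h2 : Tendsto (fun k => Real.pi * (∫⁻ x, gk k x ∂m).toReal / (m univ).toReal) atTop
        (𝓝 (Real.pi * (0 : ℝ≥0∞).toReal / (m univ).toReal)) := (h1.const_mul Real.pi).div_const _
    simpa using h2
  · intro k
    positivity
  · intro k n hn
    have h1 := ENNReal.toReal_mono (hRfin k n hn) (hup k n hn)
    rw [ENNReal.toReal_add (ENNReal.add_ne_top.2 ⟨(hx3 k n hn).ne, hCk k⟩)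
      (ENNReal.add_ne_top.2 ⟨ENNReal.mul_ne_top (by norm_num) (hx4 k n hn).ne, hx5.ne⟩),
      ENNReal.toReal_add (hx3 k n hn).ne (hCk k), ENNReal.toReal_add
        (ENNReal.mul_ne_top (by norm_num) (hx4 k n hn).ne) hx5.ne, ENNReal.toReal_mul, ENNReal.toReal_mul,
      ENNReal.toReal_natCast] at h1
    simpa using h1
  · intro k n hn
    have h1 := ENNReal.toReal_mono (ENNReal.add_ne_top.2 ⟨(hAfin n hn).ne, hCk k⟩) (hlow k n hn)
    rw [ENNReal.toReal_add (hAfin n hn).ne (hCk k), ENNReal.toReal_mul, ENNReal.toReal_natCast] at h1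
    exact h1

end Pool.Agent.Helper684.GX.Ergo
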