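import Pool.Agent.Helper684.GX.Ergo.KDefs
import Pool.Agent.Helper684.GX.Ergo.KA

set_option autoImplicit false


open MeasureTheory ProbabilityTheory Metric Set Filter Topology
open scoped ComplexConjugate ENNReal

namespace Pool.Agent.Helper684.GX.Ergo

variable {M : Type*} [MeasurableSpace M]



/-- radial averages -/
noncomputable def AA (Φ : M → ℂ → M) (k : ℝ → ℝ≥0∞) (f : M → ℝ≥0∞) (x : M) : ℝ≥0∞ :=
  ∫⁻ w, k (hh 0 w) * f (Φ x w) ∂hypVol

theorem AA_meas {Φ : M → ℂ → M} (hΦ : Measurable fun p : M × ℂ => Φ p.1 p.2)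
    {k : ℝ → ℝ≥0∞} (hk : Measurable k) {f : M → ℝ≥0∞} (hf : Measurable f) :
    Measurable (AA Φ k f) := by
  have h1 : Measurable (fun p : M × ℂ => k (hh 0 p.2) * f (Φ p.1 p.2)) :=
    (hk.comp (cc1.comp measurable_snd)).mul (hf.comp hΦ)
  exact h1.lintegral_prod_right'

theorem AA_mono {Φ : M → ℂ → M} {k : ℝ → ℝ≥0∞} {f g : M → ℝ≥0∞} (h : ∀ y, f y ≤ g y) (x : M) :
    AA Φ k f x ≤ AA Φ k g x :=
  lintegral_mono fun _ => mul_le_mul_right (h _) _

theorem AA_AA {Φ : M → ℂ → M} (hΦ : Measurable fun p : M × ℂ => Φ p.1 p.2)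
    {X : Set M}
    (hX : ∀ x ∈ X, ∀ z ∈ ball (0 : ℂ) 1, Φ x z ∈ X ∧ ∀ k : ℝ → ℝ≥0∞, Measurable k →
      ∀ f : M → ℝ≥0∞, Measurable f → ∫⁻ w, k (hh 0 w) * f (Φ (Φ x z) w) ∂hypVol =
        ∫⁻ w, k (hh z w) * f (Φ x w) ∂hypVol)
    {k₁ k₂ : ℝ → ℝ≥0∞} (h₁ : Measurable k₁) (h₂ : Measurable k₂) {f : M → ℝ≥0∞}
    (hf : Measurable f) {x : M} (hx : x ∈ X) :
    AA Φ k₁ (AA Φ k₂ f) x =
      ∫⁻ w, (∫⁻ z, k₁ (hh 0 z) * k₂ (hh z w) ∂hypVol) * f (Φ x w) ∂hypVol := by
  have hfx : Measurable fun w => f (Φ x w) := hf.comp (hΦ.comp measurable_prodMk_left)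
  have hkz : ∀ z, Measurable fun w => k₂ (hh z w) := fun z =>
    h₂.comp (measurable_hh.comp measurable_prodMk_left)
  calc AA Φ k₁ (AA Φ k₂ f) x
      = ∫⁻ z, k₁ (hh 0 z) * ∫⁻ w, k₂ (hh z w) * f (Φ x w) ∂hypVol ∂hypVol := by
        refine lintegral_congr_ae ?_
        filter_upwards [cc5] with z hz
        show k₁ (hh 0 z) * (∫⁻ w, k₂ (hh 0 w) * f (Φ (Φ x z) w) ∂hypVol) = _
        rw [(hX x hx z hz).2 k₂ h₂ f hf]
    _ = ∫⁻ z, ∫⁻ w, k₁ (hh 0 z) * (k₂ (hh z w) * f (Φ x w)) ∂hypVol ∂hypVol := by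
        refine lintegral_congr fun z => ?_
        have hm : Measurable fun w => k₂ (hh z w) * f (Φ x w) := (hkz z).mul hfx
        rw [lintegral_const_mul _ hm]
    _ = ∫⁻ w, ∫⁻ z, k₁ (hh 0 z) * (k₂ (hh z w) * f (Φ x w)) ∂hypVol ∂hypVol := by
        refine lintegral_lintegral_swap (Measurable.aemeasurable ?_)
        exact (h₁.comp (cc1.comp measurable_fst)).mul
          ((h₂.comp measurable_hh).mul (hfx.comp measurable_snd))
    _ = _ := by
        refine lintegral_congr fun w => ?_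
        have h3 : Measurable fun z => k₁ (hh 0 z) * k₂ (hh z w) :=
          (h₁.comp cc1).mul (h₂.comp (cc2 w))
        rw [← lintegral_mul_const _ h3]
        refine lintegral_congr fun z => ?_
        rw [mul_assoc]

theorem meas_kP : Measurable (fun u : ℝ => ENNReal.ofReal (u ^ 2 / Real.pi)) := by
  fun_prop

theorem meas_lK : Measurable lK := by
  unfold lK
  refine Measurable.ite measurableSet_Ioi ?_ measurable_const
  exact (Real.measurable_log.comp (measurable_const.sub measurable_id)).neg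

theorem meas_klK : Measurable (fun u : ℝ => ENNReal.ofReal (lK u)) := meas_lK.ennreal_ofReal

theorem Pop_eq {Φ : M → ℂ → M} (hΦ : Measurable fun p : M × ℂ => Φ p.1 p.2)
    {f : M → ℝ≥0∞} (hf : Measurable f) (x : M) :
    Pop (avg Φ hΦ) f x = AA Φ (fun u => ENNReal.ofReal (u ^ 2 / Real.pi)) f x :=
  lintegral_kerOf hΦ meas_kP hf x

theorem Pop_meas {κ : Kernel M M} {f : M → ℝ≥0∞} (hf : Measurable f) : Measurable (Pop κ f) :=
  hf.lintegral_kernel

theorem Pop_mono {κ : Kernel M M} {f g : M → ℝ≥0∞} (h : ∀ y, f y ≤ g y) (x : M) :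
    Pop κ f x ≤ Pop κ g x := lintegral_mono h

theorem it_meas {κ : Kernel M M} (j : ℕ) {f : M → ℝ≥0∞} (hf : Measurable f) :
    Measurable ((Pop κ)^[j] f) := by
  induction j generalizing f with
  | zero => exact hf
  | succ j ih =>
    rw [Function.iterate_succ_apply]
    exact ih (Pop_meas hf)

theorem it_mono {κ : Kernel M M} (j : ℕ) {f g : M → ℝ≥0∞} (h : ∀ y, f y ≤ g y) (x : M) :
    (Pop κ)^[j] f x ≤ (Pop κ)^[j] g x := by
  induction j generalizing f g with
  | zero => exact h x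
  | succ j ih =>
    rw [Function.iterate_succ_apply, Function.iterate_succ_apply]
    exact ih fun y => Pop_mono h y

/-- monotonicity on `X` -/
theorem Pop_monoX {Φ : M → ℂ → M} (hΦ : Measurable fun p : M × ℂ => Φ p.1 p.2)
    {X : Set M} (hX : ∀ x ∈ X, ∀ z ∈ ball (0 : ℂ) 1, Φ x z ∈ X) {f g : M → ℝ≥0∞}
    (hf : Measurable f) (hg : Measurable g) (h : ∀ y ∈ X, f y ≤ g y) {x : M} (hx : x ∈ X) :
    Pop (avg Φ hΦ) f x ≤ Pop (avg Φ hΦ) g x := by
  rw [Pop_eq hΦ hf, Pop_eq hΦ hg]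
  refine lintegral_mono_ae ?_
  filter_upwards [cc5] with z hz
  exact mul_le_mul_right (h _ (hX x hx z hz)) _

theorem it_monoX {Φ : M → ℂ → M} (hΦ : Measurable fun p : M × ℂ => Φ p.1 p.2)
    {X : Set M} (hX : ∀ x ∈ X, ∀ z ∈ ball (0 : ℂ) 1, Φ x z ∈ X) (j : ℕ) {f g : M → ℝ≥0∞}
    (hf : Measurable f) (hg : Measurable g) (h : ∀ y ∈ X, f y ≤ g y) {x : M} (hx : x ∈ X) :
    (Pop (avg Φ hΦ))^[j] f x ≤ (Pop (avg Φ hΦ))^[j] g x := by
  induction j generalizing f g with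
  | zero => exact h x hx
  | succ j ih =>
    rw [Function.iterate_succ_apply, Function.iterate_succ_apply]
    exact ih (Pop_meas hf) (Pop_meas hg) fun y hy => Pop_monoX hΦ hX hf hg h hy

/-- linearity -/
theorem Pop_lin {κ : Kernel M M} {f g : M → ℝ≥0∞} (hf : Measurable f) (hg : Measurable g)
    (a b : ℝ≥0∞) : Pop κ (fun y => a * f y + b * g y) = fun y => a * Pop κ f y + b * Pop κ g y := by
  funext x
  show ∫⁻ y, (a * f y + b * g y) ∂(κ x) = a * (∫⁻ y, f y ∂(κ x)) + b * ∫⁻ y, g y ∂(κ x)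
  rw [lintegral_add_left (hf.const_mul a), lintegral_const_mul _ hf, lintegral_const_mul _ hg]

theorem it_lin {κ : Kernel M M} (j : ℕ) {f g : M → ℝ≥0∞} (hf : Measurable f) (hg : Measurable g)
    (a b : ℝ≥0∞) : (Pop κ)^[j] (fun y => a * f y + b * g y) =
      fun y => a * (Pop κ)^[j] f y + b * (Pop κ)^[j] g y := by
  induction j generalizing f g with
  | zero => rfl
  | succ j ih =>
    rw [Function.iterate_succ_apply, Pop_lin hf hg, ih (Pop_meas hf) (Pop_meas hg),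
      Function.iterate_succ_apply, Function.iterate_succ_apply]

theorem it_const {κ : Kernel M M} [IsMarkovKernel κ] (j : ℕ) (c : ℝ≥0∞) :
    (Pop κ)^[j] (fun _ => c) = fun _ => c := by
  induction j with
  | zero => rfl
  | succ j ih =>
    rw [Function.iterate_succ_apply]
    have : Pop κ (fun _ => c) = fun _ => c := by
      funext x
      show ∫⁻ _, c ∂(κ x) = c
      rw [lintegral_const, measure_univ, mul_one]
    rw [this, ih]

/-- the one-step inequality -/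
theorem step_ineq (Φ : M → ℂ → M) (hΦ : Measurable fun p : M × ℂ => Φ p.1 p.2)
    (X : Set M)
    (hX : ∀ x ∈ X, ∀ z ∈ ball (0 : ℂ) 1, Φ x z ∈ X ∧ ∀ k : ℝ → ℝ≥0∞, Measurable k →
      ∀ f : M → ℝ≥0∞, Measurable f → ∫⁻ w, k (hh 0 w) * f (Φ (Φ x z) w) ∂hypVol =
        ∫⁻ w, k (hh z w) * f (Φ x w) ∂hypVol)
    {C : ℝ} (hC : 0 ≤ C) (hCl : ∀ w ∈ ball (0 : ℂ) 1,
      ∫⁻ z, ENNReal.ofReal (hh 0 z ^ 2) * ENNReal.ofReal (lK (hh z w)) ∂hypVol ≤
      ENNReal.ofReal (C * hh 0 w ^ 2)) (n : ℕ) (hn : 1 ≤ n) {f : M → ℝ≥0∞} (hf : Measurable f)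
    {x : M} (hx : x ∈ X) :
    AA Φ (thT (1 / n)) f x ≤ ENNReal.ofReal ((1 + 1 / (4 * (n : ℝ)))⁻¹) *
      Pop (avg Φ hΦ) (AA Φ (thT (1 / n)) f) x + ENNReal.ofReal (3 * Real.pi + C) *
        (Pop (avg Φ hΦ) (Pop (avg Φ hΦ) f) x + Pop (avg Φ hΦ) f x) := by
  have hn0 : (0 : ℝ) < n := by exact_mod_cast hn
  have hn1 : (1 : ℝ) / n ≤ 1 := by
    rw [div_le_one hn0]
    exact_mod_cast hn
  have hpi := Real.pi_pos
  set κ := avg Φ hΦ with hκ
  set γ : ℝ≥0∞ := ENNReal.ofReal ((1 + 1 / (4 * (n : ℝ)))⁻¹) with hγ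
  have mT := AA_meas hΦ (measurable_thT (1 / n)) hf
  have mK := AA_meas hΦ (measurable_thK (1 / n)) hf
  have mL := AA_meas hΦ meas_klK hf
  have mP := Pop_meas (κ := κ) hf
  -- (1)
  have e1 : AA Φ (thT (1 / n)) f x = Pop κ (AA Φ (thK (1 / n)) f) x := by
    rw [Pop_eq hΦ mK, AA_AA hΦ hX meas_kP (measurable_thK _) hf hx]
    refine lintegral_congr_ae ?_
    filter_upwards [cc5] with w hw
    rw [conv_thK n hn hw]
  -- (2)
  have e2 : ∀ y, AA Φ (thK (1 / n)) f y ≤ γ * AA Φ (thT (1 / n)) f y +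
      (ENNReal.ofReal (3 * Real.pi) * Pop κ f y + AA Φ (fun u => ENNReal.ofReal (lK u)) f y) := by
    intro y
    have hfy : Measurable fun w => f (Φ y w) := hf.comp (hΦ.comp measurable_prodMk_left)
    have m1 : Measurable fun w => thT (1 / n) (hh 0 w) * f (Φ y w) :=
      ((measurable_thT _).comp cc1).mul hfy
    have m2 : Measurable fun w => ENNReal.ofReal (hh 0 w ^ 2 / Real.pi) * f (Φ y w) :=
      (meas_kP.comp cc1).mul hfy
    have m3 : Measurable fun w => ENNReal.ofReal (lK (hh 0 w)) * f (Φ y w) :=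
      (meas_klK.comp cc1).mul hfy
    rw [Pop_eq hΦ hf]
    unfold AA
    rw [← lintegral_const_mul _ m1, ← lintegral_const_mul _ m2,
      ← lintegral_add_left (m2.const_mul _), ← lintegral_add_left (m1.const_mul _)]
    refine lintegral_mono_ae ?_
    filter_upwards [cc5] with w hw
    have h0 : (0 : ℂ) ∈ ball (0 : ℂ) 1 := mem_ball_self one_pos
    have hu := hh_pos h0 hw
    have hu1 := hh_le_one h0 hw
    have h1 := thK_le (η := 1 / n) (by positivity) hn1 hu hu1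
    have h2 : ENNReal.ofReal ((1 + 1 / (n : ℝ) / 4)⁻¹) = γ := by
      rw [hγ]
      congr 3
      field_simp
    have h3 : ENNReal.ofReal (3 * hh 0 w ^ 2) =
        ENNReal.ofReal (3 * Real.pi) * ENNReal.ofReal (hh 0 w ^ 2 / Real.pi) := by
      rw [← ENNReal.ofReal_mul (by positivity)]
      congr 1
      field_simp
    rw [h2, h3] at h1
    calc thK (1 / n) (hh 0 w) * f (Φ y w) ≤ (γ * thT (1 / n) (hh 0 w) +
          ENNReal.ofReal (3 * Real.pi) * ENNReal.ofReal (hh 0 w ^ 2 / Real.pi) +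
          ENNReal.ofReal (lK (hh 0 w))) * f (Φ y w) := mul_le_mul_left h1 _
      _ = _ := by ring
  -- (3)
  have e3 : Pop κ (AA Φ (fun u => ENNReal.ofReal (lK u)) f) x ≤ ENNReal.ofReal C * Pop κ f x := by
    rw [Pop_eq hΦ mL, AA_AA hΦ hX meas_kP meas_klK hf hx, Pop_eq hΦ hf]
    have hfy : Measurable fun w => f (Φ x w) := hf.comp (hΦ.comp measurable_prodMk_left)
    have m2 : Measurable fun w => ENNReal.ofReal (hh 0 w ^ 2 / Real.pi) * f (Φ x w) :=
      (meas_kP.comp cc1).mul hfy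
    unfold AA
    rw [← lintegral_const_mul _ m2]
    refine lintegral_mono_ae ?_
    filter_upwards [cc5] with w hw
    rw [← mul_assoc]
    refine mul_le_mul_left ?_ _
    have m4 : Measurable fun z => ENNReal.ofReal (hh 0 z ^ 2) * ENNReal.ofReal (lK (hh z w)) :=
      ((cc1.pow_const 2).ennreal_ofReal).mul (meas_klK.comp (cc2 w))
    have h4 : ∀ z, ENNReal.ofReal (hh 0 z ^ 2 / Real.pi) * ENNReal.ofReal (lK (hh z w)) =
        ENNReal.ofReal (1 / Real.pi) *
          (ENNReal.ofReal (hh 0 z ^ 2) * ENNReal.ofReal (lK (hh z w))) := by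
      intro z
      have h5 : ENNReal.ofReal (1 / Real.pi) * ENNReal.ofReal (hh 0 z ^ 2) =
          ENNReal.ofReal (hh 0 z ^ 2 / Real.pi) := by
        rw [← ENNReal.ofReal_mul (by positivity)]
        congr 1
        ring
      rw [← mul_assoc, h5]
    simp_rw [h4]
    rw [lintegral_const_mul _ m4]
    calc ENNReal.ofReal (1 / Real.pi) *
          (∫⁻ z, ENNReal.ofReal (hh 0 z ^ 2) * ENNReal.ofReal (lK (hh z w)) ∂hypVol)
        ≤ ENNReal.ofReal (1 / Real.pi) * ENNReal.ofReal (C * hh 0 w ^ 2) :=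
          mul_le_mul_right (hCl w hw) _
      _ = ENNReal.ofReal C * ENNReal.ofReal (hh 0 w ^ 2 / Real.pi) := by
          rw [← ENNReal.ofReal_mul (by positivity), ← ENNReal.ofReal_mul hC]
          congr 1
          ring
  have e4 : Pop κ (AA Φ (thK (1 / n)) f) x ≤ γ * Pop κ (AA Φ (thT (1 / n)) f) x +
      (ENNReal.ofReal (3 * Real.pi) * Pop κ (Pop κ f) x +
        Pop κ (AA Φ (fun u => ENNReal.ofReal (lK u)) f) x) := by
    refine (Pop_mono e2 x).trans (le_of_eq ?_)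
    have h5 := congrFun (Pop_lin (κ := κ) mT ((mP.const_mul (ENNReal.ofReal (3 * Real.pi))).add mL) γ 1) x
    have h6 := congrFun (Pop_lin (κ := κ) mP mL (ENNReal.ofReal (3 * Real.pi)) 1) x
    simp only [one_mul] at h5 h6
    refine h5.trans ?_
    congr 1
  rw [e1] at *
  calc Pop κ (AA Φ (thK (1 / n)) f) x ≤ γ * Pop κ (AA Φ (thT (1 / n)) f) x +
      (ENNReal.ofReal (3 * Real.pi) * Pop κ (Pop κ f) x +
        Pop κ (AA Φ (fun u => ENNReal.ofReal (lK u)) f) x) := e4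
    _ ≤ γ * Pop κ (AA Φ (thT (1 / n)) f) x +
      (ENNReal.ofReal (3 * Real.pi) * Pop κ (Pop κ f) x + ENNReal.ofReal C * Pop κ f x) := by
        gcongr
    _ ≤ _ := by
        refine add_le_add le_rfl ?_
        rw [mul_add]
        refine add_le_add (mul_le_mul_left ?_ _) (mul_le_mul_left ?_ _)
        · exact ENNReal.ofReal_le_ofReal (by linarith)
        · exact ENNReal.ofReal_le_ofReal (by linarith)

/-- the Green averages are dominated by Abel sums of the averaging operator -/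
theorem green_le_abel (Φ : M → ℂ → M) (hΦ : Measurable fun p : M × ℂ => Φ p.1 p.2)
    (X : Set M)
    (hX : ∀ x ∈ X, ∀ z ∈ ball (0 : ℂ) 1, Φ x z ∈ X ∧ ∀ k : ℝ → ℝ≥0∞, Measurable k →
      ∀ f : M → ℝ≥0∞, Measurable f → ∫⁻ w, k (hh 0 w) * f (Φ (Φ x z) w) ∂hypVol =
        ∫⁻ w, k (hh z w) * f (Φ x w) ∂hypVol) :
    ∃ C : ℝ, ∀ n : ℕ, 1 ≤ n → ∀ f : M → ℝ≥0∞, Measurable f → ∀ x ∈ X,
      ∫⁻ y, f y ∂(green Φ hΦ n x) ≤ ENNReal.ofReal C * ∑' j : ℕ,
        ENNReal.ofReal (((1 + 1 / (4 * (n : ℝ)))⁻¹) ^ j) *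
          ((Pop (avg Φ hΦ))^[j] (fun y => Pop (avg Φ hΦ) (Pop (avg Φ hΦ) f) y +
            Pop (avg Φ hΦ) f y)) x := by
  obtain ⟨C, hC, hCl⟩ := conv_lK
  have hpi := Real.pi_pos
  refine ⟨Real.exp 1 * (3 * Real.pi + C), fun n hn f hf x hx => ?_⟩
  have hn0 : (0 : ℝ) < n := by exact_mod_cast hn
  haveI : IsMarkovKernel (avg Φ hΦ) := avg_isMarkov Φ hΦ
  set κ := avg Φ hΦ with hκ
  set γr : ℝ := (1 + 1 / (4 * (n : ℝ)))⁻¹ with hγr
  have hγ0 : 0 ≤ γr := by positivity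
  have hγ1 : γr < 1 := by
    rw [hγr]
    refine inv_lt_one_of_one_lt₀ ?_
    have : 0 < 1 / (4 * (n : ℝ)) := by positivity
    linarith
  set γ : ℝ≥0∞ := ENNReal.ofReal γr with hγ
  have hγ1' : γ < 1 := by
    rw [hγ, ENNReal.ofReal_lt_one]
    exact hγ1
  set C' : ℝ≥0∞ := ENNReal.ofReal (3 * Real.pi + C) with hC'
  have hXX : ∀ x ∈ X, ∀ z ∈ ball (0 : ℂ) 1, Φ x z ∈ X := fun x hx z hz => (hX x hx z hz).1
  -- the Abel sum
  let H : (M → ℝ≥0∞) → M → ℝ≥0∞ := fun g y => Pop κ (Pop κ g) y + Pop κ g y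
  have hHm : ∀ g, Measurable g → Measurable (H g) := fun g hg =>
    (Pop_meas (Pop_meas hg)).add (Pop_meas hg)
  let S : (M → ℝ≥0∞) → ℝ≥0∞ := fun g => ∑' j : ℕ, γ ^ j * (Pop κ)^[j] (H g) x
  -- iteration
  have iter : ∀ g : M → ℝ≥0∞, Measurable g → ∀ J : ℕ, AA Φ (thT (1 / n)) g x ≤
      (∑ j ∈ Finset.range J, C' * (γ ^ j * (Pop κ)^[j] (H g) x)) +
        γ ^ J * (Pop κ)^[J] (AA Φ (thT (1 / n)) g) x := by
    intro g hg J
    have mT := AA_meas hΦ (measurable_thT (1 / n)) hg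
    induction J with
    | zero => simp
    | succ J ih =>
      refine ih.trans ?_
      rw [Finset.sum_range_succ, add_assoc]
      refine add_le_add le_rfl ?_
      have h1 : (Pop κ)^[J] (AA Φ (thT (1 / n)) g) x ≤ (Pop κ)^[J] (fun y =>
          γ * Pop κ (AA Φ (thT (1 / n)) g) y + C' * H g y) x := by
        refine it_monoX hΦ hXX J mT (((Pop_meas mT).const_mul _).add ((hHm g hg).const_mul _)) ?_ hx
        intro y hy
        exact step_ineq Φ hΦ X hX hC hCl n hn hg hy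
      have h2 := congrFun (it_lin (κ := κ) J (Pop_meas (κ := κ) mT) (hHm g hg) γ C') x
      rw [h2] at h1
      calc γ ^ J * (Pop κ)^[J] (AA Φ (thT (1 / n)) g) x
          ≤ γ ^ J * (γ * (Pop κ)^[J] (Pop κ (AA Φ (thT (1 / n)) g)) x +
            C' * (Pop κ)^[J] (H g) x) := mul_le_mul_right h1 _
        _ = C' * (γ ^ J * (Pop κ)^[J] (H g) x) +
            γ ^ (J + 1) * (Pop κ)^[J + 1] (AA Φ (thT (1 / n)) g) x := by
            rw [Function.iterate_succ_apply]
            ring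
  -- bounded functions
  have bdd : ∀ g : M → ℝ≥0∞, Measurable g → ∀ k : ℕ, (∀ y, g y ≤ k) →
      AA Φ (thT (1 / n)) g x ≤ C' * S g := by
    intro g hg k hk
    set m : ℝ≥0∞ := ∫⁻ w, thT (1 / n) (hh 0 w) ∂hypVol with hm
    have hmt : m < ⊤ := mass_thT n hn
    have h1 : ∀ y, AA Φ (thT (1 / n)) g y ≤ m * k := by
      intro y
      have hmm : Measurable fun w : ℂ => thT (1 / n) (hh 0 w) := (measurable_thT (1 / n)).comp cc1
      rw [hm, ← lintegral_mul_const _ hmm]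
      exact lintegral_mono fun w => mul_le_mul_right (hk _) _
    have h2 : ∀ J : ℕ, AA Φ (thT (1 / n)) g x ≤ C' * S g + γ ^ J * (m * k) := by
      intro J
      refine (iter g hg J).trans (add_le_add ?_ (mul_le_mul_right ?_ _))
      · rw [← Finset.mul_sum]
        exact mul_le_mul_right (ENNReal.sum_le_tsum _) _
      · refine (it_mono J h1 x).trans (le_of_eq ?_)
        rw [it_const]
    have h3 : Tendsto (fun J : ℕ => C' * S g + γ ^ J * (m * k)) atTop (𝓝 (C' * S g + 0 * (m * k))) := by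
      refine Tendsto.add tendsto_const_nhds ?_
      refine ENNReal.Tendsto.mul_const (ENNReal.tendsto_pow_atTop_nhds_zero_of_lt_one hγ1') (Or.inr ?_)
      exact ENNReal.mul_ne_top hmt.ne (ENNReal.natCast_ne_top k)
    rw [zero_mul, add_zero] at h3
    exact ge_of_tendsto' h3 h2
  -- monotonicity of the Abel sum
  have Smono : ∀ g g' : M → ℝ≥0∞, (∀ y, g y ≤ g' y) → S g ≤ S g' := by
    intro g g' h
    refine ENNReal.tsum_le_tsum fun j => mul_le_mul_right (it_mono j (fun y => ?_) x) _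
    exact add_le_add (Pop_mono (fun z => Pop_mono h z) y) (Pop_mono h y)
  -- general functions
  have gen : AA Φ (thT (1 / n)) f x ≤ C' * S f := by
    have h1 : AA Φ (thT (1 / n)) f x = ⨆ k : ℕ, AA Φ (thT (1 / n)) (fun y => min (f y) k) x := by
      unfold AA
      rw [← lintegral_iSup]
      · refine lintegral_congr fun w => ?_
        rw [← ENNReal.mul_iSup]
        congr 1
        refine le_antisymm ?_ (iSup_le fun k => min_le_left _ _)
        rcases eq_or_ne (f (Φ x w)) ⊤ with h | h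
        · have h8 : ∀ k : ℕ, (k : ℝ≥0∞) ≤ (fun y => min (f y) (k : ℝ≥0∞)) (Φ x w) := by
            intro k
            show (k : ℝ≥0∞) ≤ min (f (Φ x w)) k
            rw [h]
            exact le_min le_top le_rfl
          rw [h, ← ENNReal.iSup_natCast]
          exact iSup_mono h8
        · obtain ⟨k, hk⟩ := ENNReal.exists_nat_gt h
          refine le_iSup_of_le k ?_
          show f (Φ x w) ≤ min (f (Φ x w)) k
          rw [min_eq_left hk.le]
      · intro k
        exact ((measurable_thT (1 / n)).comp cc1).mul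
          (((hf.min measurable_const)).comp (hΦ.comp measurable_prodMk_left))
      · intro k k' hkk w
        refine mul_le_mul_right (min_le_min le_rfl ?_) _
        exact_mod_cast hkk
    rw [h1]
    refine iSup_le fun k => ?_
    refine (bdd _ (hf.min measurable_const) k (fun y => min_le_right _ _)).trans ?_
    exact mul_le_mul_right (Smono _ _ fun y => min_le_left _ _) _
  -- conclusion
  have mg : Measurable (fun u : ℝ => ENNReal.ofReal (gT (1 - Real.exp (-n)) u)) := by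
    unfold gT
    fun_prop
  have h1 : ∫⁻ y, f y ∂(green Φ hΦ n x) =
      ∫⁻ w, ENNReal.ofReal (gT (1 - Real.exp (-n)) (hh 0 w)) * f (Φ x w) ∂hypVol :=
    lintegral_kerOf hΦ mg hf x
  rw [h1]
  have h2 : ∫⁻ w, ENNReal.ofReal (gT (1 - Real.exp (-n)) (hh 0 w)) * f (Φ x w) ∂hypVol ≤
      ENNReal.ofReal (Real.exp 1) * AA Φ (thT (1 / n)) f x := by
    have hfy : Measurable fun w => f (Φ x w) := hf.comp (hΦ.comp measurable_prodMk_left)
    have m1 : Measurable fun w => thT (1 / n) (hh 0 w) * f (Φ x w) :=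
      ((measurable_thT _).comp cc1).mul hfy
    unfold AA
    rw [← lintegral_const_mul _ m1]
    refine lintegral_mono_ae ?_
    filter_upwards [cc5] with w hw
    have h0 : (0 : ℂ) ∈ ball (0 : ℂ) 1 := mem_ball_self one_pos
    rw [← mul_assoc]
    exact mul_le_mul_left (gT_le_thT n hn (hh_pos h0 hw) (hh_le_one h0 hw)) _
  refine h2.trans ((mul_le_mul_right gen _).trans (le_of_eq ?_))
  rw [← mul_assoc, hC', ← ENNReal.ofReal_mul (Real.exp_pos 1).le]
  congr 1
  refine tsum_congr fun j => ?_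
  rw [hγ, ENNReal.ofReal_pow hγ0]

end Pool.Agent.Helper684.GX.Ergo
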