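import Pool.Agent.Helper684.GX.Ergo.Rebase
import Pool.Agent.Helper684.GX.Ergo.Mean
import Pool.Agent.Helper684.GX.Ergo.Point
import Pool.Agent.Helper684.GX.Ergo.KB
import Pool.Agent.Helper684.GX.Ergo.KC
import Pool.Agent.Helper684.GX.Ergo.FLim
import Pool.Agent.Helper684.GX.Ergo.FAbel
import Pool.Agent.Helper684.GX.Ergo.FPar

attribute [local instance] Pool.Agent.Helper684.GX.Nev.leafInst

/-!
The ergodic theorem for the Green kernels along the leaves.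
-/

set_option autoImplicit false

open scoped Manifold ENNReal
open Metric MeasureTheory ProbabilityTheory Set Filter Topology
open Pool.Agent.Helper684.GX.Nev

namespace Pool.Agent.Helper684.GX.Ergo

variable {E M : Type*} [NormedAddCommGroup E] [NormedSpace ℂ E] [TopologicalSpace M]
  [ChartedSpace E M] [IsManifold 𝓘(ℂ, E) 1 M] [MeasurableSpace M]

/-- the ergodic theorem for the averaged Green kernels -/
theorem green_ergodic {F : Foliation E M} {Φ : M → ℂ → M}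
    (hΦ : Measurable fun p : M × ℂ => Φ p.1 p.2)
    (hcov : ∀ x, (∃ φ : ℂ → M, F.IsUniversalCovering φ ∧ φ 0 = x) →
      F.IsUniversalCovering (Φ x) ∧ Φ x 0 = x)
    (m : Measure M) [IsFiniteMeasure m] (hm0 : m univ ≠ 0)
    (hhyp : ∀ᵐ x ∂m, ∃ φ : ℂ → M, F.IsUniversalCovering φ ∧ φ 0 = x)
    (hinv : m.bind (avg Φ hΦ) = m)
    (herg : ∀ A : Set M, MeasurableSet A →
      (∀ᵐ x ∂m, avg Φ hΦ x A = A.indicator (fun _ => (1 : ℝ≥0∞)) x) → m A = 0 ∨ m Aᶜ = 0) :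
    (∀ f : M → ℝ≥0∞, Measurable f → ∫⁻ x, f x ∂m < ⊤ → ∀ᵐ x ∂m,
      Tendsto (fun n : ℕ => (∫⁻ y, f y ∂(green Φ hΦ n x)).toReal / n) atTop
        (𝓝 (Real.pi * (∫⁻ x, f x ∂m).toReal / (m univ).toReal))) ∧
    ∀ n : ℕ, 1 ≤ n → ∀ f : M → ℝ≥0∞, Measurable f → ∫⁻ x, f x ∂m < ⊤ → ∀ᵐ x ∂m,
      ∫⁻ y, f y ∂(green Φ hΦ n x) < ⊤ := by
  haveI : IsMarkovKernel (avg Φ hΦ) := avg_isMarkov Φ hΦ
  set X : Set M := {x | ∃ φ : ℂ → M, F.IsUniversalCovering φ ∧ φ 0 = x} with hX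
  have hXr : ∀ x ∈ X, ∀ z ∈ ball (0 : ℂ) 1, Φ x z ∈ X ∧ ∀ k : ℝ → ℝ≥0∞, Measurable k →
      ∀ f : M → ℝ≥0∞, Measurable f → ∫⁻ w, k (hh 0 w) * f (Φ (Φ x z) w) ∂hypVol =
        ∫⁻ w, k (hh z w) * f (Φ x w) ∂hypVol := fun x hx z hz => rebase hΦ hcov hx hz
  obtain ⟨C1, hC1⟩ := green_coboundary Φ hΦ X (fun x hx z hz => (hXr x hx z hz).2)
  obtain ⟨C2, hC2⟩ := green_le_abel Φ hΦ X hXr
  constructor
  · intro f hf hfin
    refine pointwise_ergodic (avg Φ hΦ) m hm0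
      (fun f hf => ⟨measurable_Pop _ hf, lintegral_Pop _ m hinv hf⟩)
      (fun f hf hfin a => hopf_maximal _ m hinv hf hfin a)
      (fun f hf hfi c hc ε hε => dense_coboundary _ m hinv herg f hf hfi c hc ε hε)
      (green Φ hΦ) (fun n hn => ae_of_all _ fun x => green_univ Φ hΦ n hn x)
      ⟨C1, fun n hn g hg B hB => ?_⟩ ⟨C2, fun n hn f hf => ?_⟩ f hf hfin
    · filter_upwards [hhyp] with x hx
      exact hC1 n hn g hg B hB x hx
    · filter_upwards [hhyp] with x hx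
      exact hC2 n hn f hf x hx
  · intro n hn f hf hfin
    filter_upwards [hhyp, abel_finite (avg Φ hΦ) m hinv C2 n hn f hf hfin] with x hx hx2
    exact (hC2 n hn f hf x hx).trans_lt hx2

/-- the ergodic theorem for the Green kernels, with continuous parameter -/
theorem green_radial {F : Foliation E M} {Φ : M → ℂ → M}
    (hΦ : Measurable fun p : M × ℂ => Φ p.1 p.2)
    (hcov : ∀ x, (∃ φ : ℂ → M, F.IsUniversalCovering φ ∧ φ 0 = x) →
      F.IsUniversalCovering (Φ x) ∧ Φ x 0 = x)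
    (m : Measure M) [IsFiniteMeasure m] (hm0 : m univ ≠ 0)
    (hhyp : ∀ᵐ x ∂m, ∃ φ : ℂ → M, F.IsUniversalCovering φ ∧ φ 0 = x)
    (hinv : m.bind (avg Φ hΦ) = m)
    (herg : ∀ A : Set M, MeasurableSet A →
      (∀ᵐ x ∂m, avg Φ hΦ x A = A.indicator (fun _ => (1 : ℝ≥0∞)) x) → m A = 0 ∨ m Aᶜ = 0)
    (f : M → ℝ≥0∞) (hf : Measurable f) (hfin : ∫⁻ x, f x ∂m < ⊤)
    (hloc : ∀ᵐ x ∂m, ∫⁻ w, ENNReal.ofReal (lK (hh 0 w)) * f (Φ x w) ∂hypVol < ⊤) :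
    ∀ᵐ x ∂m, Tendsto (fun r : ℝ =>
      (∫⁻ w, ENNReal.ofReal (gK (r ^ 2) (hh 0 w)) * f (Φ x w) ∂hypVol).toReal /
        (- Real.log (1 - r ^ 2))) (𝓝[<] 1)
        (𝓝 (Real.pi * (∫⁻ x, f x ∂m).toReal / (m univ).toReal)) := by
  obtain ⟨h1, h2⟩ := green_ergodic hΦ hcov m hm0 hhyp hinv herg
  filter_upwards [green_limit Φ hΦ m hm0 h1 h2 f hf hfin hloc] with x hx
  refine tendsto_continuous_param
    (fun t => ∫⁻ w, ENNReal.ofReal (gK t (hh 0 w)) * f (Φ x w) ∂hypVol) ?_ _ hx.1 hx.2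
  intro s hs t ht hst
  refine lintegral_mono fun w => ?_
  refine mul_le_mul_left (ENNReal.ofReal_le_ofReal ?_) _
  unfold gK
  exact max_le_max le_rfl (sub_le_sub_right (Real.log_le_log hs.1 hst) _)

end Pool.Agent.Helper684.GX.Ergo
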