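import Pool.Agent.Helper684.GX.Ergo.Lap
set_option autoImplicit false

open MeasureTheory Metric Set Filter Topology

namespace Pool.Agent.Helper684.GX.Ergo


theorem contDiff_fderiv_apply_aux {n m : WithTop ℕ∞} {U : ℂ → ℝ} (hU : ContDiff ℝ n U) (hmn : m + 1 ≤ n)
    (v : ℂ) : ContDiff ℝ m (fun z => fderiv ℝ U z v) :=
  (hU.fderiv_right hmn).clm_apply contDiff_const

theorem continuous_lap {U : ℂ → ℝ} (hU : ContDiff ℝ 2 U) : Continuous (lap U) := by
  have h1 : ∀ v : ℂ, Continuous (fun z => fderiv ℝ (fun z => fderiv ℝ U z v) z v) := by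
    intro v
    have h2 : ContDiff ℝ 1 (fun z => fderiv ℝ U z v) :=
      contDiff_fderiv_apply_aux hU (by norm_num) v
    have h3 : ContDiff ℝ 0 (fun z => fderiv ℝ (fun z => fderiv ℝ U z v) z v) :=
      contDiff_fderiv_apply_aux h2 (by norm_num) v
    exact h3.continuous
  exact (h1 1).add (h1 Complex.I)

theorem hasCompactSupport_fderiv_apply {U : ℂ → ℝ} (hU : HasCompactSupport U) (v : ℂ) :
    HasCompactSupport (fun z => fderiv ℝ U z v) := by
  have := HasCompactSupport.fderiv (𝕜 := ℝ) hU
  exact this.comp_left (g := fun L : ℂ →L[ℝ] ℝ => L v) (by simp)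

theorem hasCompactSupport_lap {U : ℂ → ℝ} (hU : HasCompactSupport U) :
    HasCompactSupport (lap U) := by
  have h : ∀ v : ℂ, HasCompactSupport (fun z => fderiv ℝ (fun z => fderiv ℝ U z v) z v) :=
    fun v => hasCompactSupport_fderiv_apply (hasCompactSupport_fderiv_apply hU v) v
  exact (h 1).add (h Complex.I)

theorem exists_bound_lap {U : ℂ → ℝ} (hU : ContDiff ℝ 2 U) (hc : HasCompactSupport U) :
    ∃ C : ℝ, ∀ z, |lap U z| ≤ C := by
  obtain ⟨C, hC⟩ := (hasCompactSupport_lap hc).exists_bound_of_continuous (continuous_lap hU)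
  exact ⟨C, fun z => by simpa [Real.norm_eq_abs] using hC z⟩

/-- product with a transversal function -/
theorem lap_mul_const (a : ℂ → ℝ) (ha : ContDiff ℝ 2 a) (c : ℝ) (z : ℂ) :
    lap (fun z => a z * c) z = lap a z * c := by
  have h1 : ∀ v : ℂ, (fun z => fderiv ℝ (fun z => a z * c) z v) = fun z => fderiv ℝ a z v * c := by
    intro v
    ext z
    rw [fderiv_mul_const ((ha.differentiable (by norm_num)) z)]
    simp [mul_comm]
  have h2 : ∀ v : ℂ, fderiv ℝ (fun z => fderiv ℝ a z v * c) z v
      = fderiv ℝ (fun z => fderiv ℝ a z v) z v * c := by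
    intro v
    have h3 : ContDiff ℝ 1 (fun z => fderiv ℝ a z v) :=
      contDiff_fderiv_apply_aux ha (by norm_num) v
    rw [fderiv_mul_const ((h3.differentiable (by norm_num)) z)]
    simp [mul_comm]
  unfold lap
  rw [h1, h1, h2, h2]
  ring

theorem leaf_step {F : Type*} [NormedAddCommGroup F] [NormedSpace ℝ F] [FiniteDimensional ℝ F]
    [MeasurableSpace F] [BorelSpace F] (ν : Measure (ℂ × F)) [IsFiniteMeasure ν]
    {R : ℝ}
    (hν : ∀ f : ℂ × F → ℝ, ContDiff ℝ ((⊤ : ℕ∞) : WithTop ℕ∞) f → HasCompactSupport f →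
      tsupport f ⊆ ball (0 : ℂ) R ×ˢ ball (0 : F) R →
      ∫ p, lap (fun z => f (z, p.2)) p.1 ∂ν = 0)
    (a : ℂ → ℝ) (ha : ContDiff ℝ ((⊤ : ℕ∞) : WithTop ℕ∞) a) (hac : HasCompactSupport a)
    (hat : tsupport a ⊆ ball 0 R) (b : F → ℝ) (hb : Measurable b) {C : ℝ}
    (hbC : ∀ t, |b t| ≤ C) (hb0 : ∀ t, t ∉ ball (0 : F) R → b t = 0) :
    ∫ p, lap a p.1 * b p.2 ∂ν = 0 := by
  have ha2 : ContDiff ℝ 2 a := ha.of_le (WithTop.coe_le_coe.2 le_top)
  obtain ⟨M, hM⟩ := exists_bound_lap ha2 hac
  have hgm : Measurable (lap a) := (continuous_lap ha2).measurable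
  set ν' : Measure (F × ℂ) := ν.map Prod.swap with hν'
  have _hfin : IsFiniteMeasure ν' := by rw [hν']; infer_instance
  have hdis : Measure.compProd ν'.fst ν'.condKernel = ν' := ν'.disintegrate ν'.condKernel
  set h : F → ℝ := fun t => ∫ z, lap a z ∂(ν'.condKernel t) with hh
  have hC0 : 0 ≤ C := le_trans (abs_nonneg _) (hbC 0)
  have hM0 : 0 ≤ M := le_trans (abs_nonneg _) (hM 0)
  have key : ∀ b : F → ℝ, Measurable b → ∀ C : ℝ, (∀ t, |b t| ≤ C) →
      ∫ p, lap a p.1 * b p.2 ∂ν = ∫ t, b t * h t ∂ν'.fst := by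
    intro b hb C hbC
    have e1 : ∫ p, lap a p.1 * b p.2 ∂ν = ∫ q, lap a q.2 * b q.1 ∂ν' := by
      rw [hν', integral_map measurable_swap.aemeasurable]
      · rfl
      · exact ((hgm.comp measurable_snd).mul (hb.comp measurable_fst)).aestronglyMeasurable
    have hint : Integrable (fun q : F × ℂ => lap a q.2 * b q.1) (Measure.compProd ν'.fst ν'.condKernel) := by
      rw [hdis]
      refine Integrable.of_bound
        ((hgm.comp measurable_snd).mul (hb.comp measurable_fst)).aestronglyMeasurable (M * C) ?_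
      refine Eventually.of_forall (fun q => ?_)
      rw [norm_mul]
      exact mul_le_mul (hM _) (hbC _) (abs_nonneg _) (le_trans (abs_nonneg _) (hM q.2))
    rw [e1]
    conv_lhs => rw [← hdis]
    rw [Measure.integral_compProd hint]
    refine integral_congr_ae (Eventually.of_forall (fun t => ?_))
    simp only [hh]
    rw [integral_mul_const, mul_comm]
  have hhm : StronglyMeasurable h := by
    have := StronglyMeasurable.integral_kernel_prod_right' (κ := ν'.condKernel)
      (f := fun q : F × ℂ => lap a q.2) (hgm.comp measurable_snd).stronglyMeasurable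
    exact this
  have hhb : ∀ t, ‖h t‖ ≤ M := by
    intro t
    refine le_trans (norm_integral_le_of_norm_le_const (C := M)
      (Eventually.of_forall (fun z => by simpa [Real.norm_eq_abs] using hM z))) ?_
    simp
  have hhi : Integrable h ν'.fst :=
    Integrable.of_bound hhm.aestronglyMeasurable M (Eventually.of_forall hhb)
  have hae : ∀ᵐ t ∂ν'.fst, t ∈ ball (0 : F) R → h t = 0 := by
    refine isOpen_ball.ae_eq_zero_of_integral_contDiff_smul_eq_zero
      (hhi.locallyIntegrable.locallyIntegrableOn _) ?_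
    intro g hg hgc hgt
    obtain ⟨C', hC'⟩ := hgc.exists_bound_of_continuous hg.continuous
    have hz := key g hg.continuous.measurable C' (fun t => by simpa [Real.norm_eq_abs] using hC' t)
    simp only [smul_eq_mul]
    rw [← hz]
    have hf := hν (fun p => a p.1 * g p.2)
      ((ha.comp contDiff_fst).mul (hg.comp contDiff_snd)) ?_ ?_
    · rw [← hf]
      refine integral_congr_ae (Eventually.of_forall (fun p => ?_))
      simp only
      rw [lap_mul_const a ha2]
    · refine HasCompactSupport.intro (hac.isCompact.prod hgc.isCompact) ?_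
      intro p hp
      simp only [mem_prod, not_and_or] at hp
      rcases hp with hp | hp
      · simp [image_eq_zero_of_notMem_tsupport hp]
      · simp [image_eq_zero_of_notMem_tsupport hp]
    · have hcl : IsClosed (tsupport a ×ˢ tsupport g) :=
        (isClosed_tsupport a).prod (isClosed_tsupport g)
      refine subset_trans (closure_minimal ?_ hcl) (prod_mono hat hgt)
      intro p hp
      simp only [Function.mem_support, ne_eq, mul_eq_zero, not_or] at hp
      exact ⟨subset_tsupport a hp.1, subset_tsupport g hp.2⟩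
  rw [key b hb C hbC]
  refine integral_eq_zero_of_ae ?_
  filter_upwards [hae] with t ht
  by_cases h0 : t ∈ ball (0 : F) R
  · simp [ht h0]
  · simp [hb0 t h0]

/-- Green's identity in one direction -/
theorem ibp_dir {u g : ℂ → ℝ} (hu : ContDiff ℝ 2 u) (huc : HasCompactSupport u)
    (hg : ContDiff ℝ 2 g) (v : ℂ) :
    ∫ c, u c * fderiv ℝ (fun z => fderiv ℝ g z v) c v =
      ∫ c, fderiv ℝ (fun z => fderiv ℝ u z v) c v * g c := by
  have hu1 : ContDiff ℝ 1 (fun z => fderiv ℝ u z v) := contDiff_fderiv_apply_aux hu (by norm_num) v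
  have hg1 : ContDiff ℝ 1 (fun z => fderiv ℝ g z v) := contDiff_fderiv_apply_aux hg (by norm_num) v
  have hu2 : ContDiff ℝ 0 (fun z => fderiv ℝ (fun z => fderiv ℝ u z v) z v) :=
    contDiff_fderiv_apply_aux hu1 (by norm_num) v
  have hg2 : ContDiff ℝ 0 (fun z => fderiv ℝ (fun z => fderiv ℝ g z v) z v) :=
    contDiff_fderiv_apply_aux hg1 (by norm_num) v
  have huc1 := hasCompactSupport_fderiv_apply huc v
  have huc2 := hasCompactSupport_fderiv_apply huc1 v
  have hI : ∀ (f g : ℂ → ℝ), Continuous f → Continuous g → HasCompactSupport f →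
      Integrable (fun c => f c * g c) := by
    intro f g hf hg hfc
    exact (hf.mul hg).integrable_of_hasCompactSupport (hfc.mul_right)
  rw [integral_mul_fderiv_eq_neg_fderiv_mul_of_integrable
    (hI _ _ hu1.continuous hg1.continuous huc1) (hI _ _ hu.continuous hg2.continuous huc)
    (hI _ _ hu.continuous hg1.continuous huc)
    (fun x _ => (hu.differentiable (by norm_num)) x)
    (fun x _ => (hg1.differentiable (by norm_num)) x)]
  rw [integral_mul_fderiv_eq_neg_fderiv_mul_of_integrable
    (hI _ _ hu2.continuous hg.continuous huc2) (hI _ _ hu1.continuous hg1.continuous huc1)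
    (hI _ _ hu1.continuous hg.continuous huc1)
    (fun x _ => (hu1.differentiable (by norm_num)) x)
    (fun x _ => (hg.differentiable (by norm_num)) x)]
  ring

theorem green_lap {u g : ℂ → ℝ} (hu : ContDiff ℝ 2 u) (huc : HasCompactSupport u)
    (hg : ContDiff ℝ 2 g) :
    ∫ c, u c * lap g c = ∫ c, lap u c * g c := by
  have hI : ∀ (f g : ℂ → ℝ), Continuous f → Continuous g → HasCompactSupport f →
      Integrable (fun c => f c * g c) := by
    intro f g hf hg hfc
    exact (hf.mul hg).integrable_of_hasCompactSupport (hfc.mul_right)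
  have hc2 : ∀ (f : ℂ → ℝ), ContDiff ℝ 2 f → ∀ v : ℂ,
      Continuous (fun z => fderiv ℝ (fun z => fderiv ℝ f z v) z v) := by
    intro f hf v
    have h1 : ContDiff ℝ 1 (fun z => fderiv ℝ f z v) := contDiff_fderiv_apply_aux hf (by norm_num) v
    have h2 : ContDiff ℝ 0 (fun z => fderiv ℝ (fun z => fderiv ℝ f z v) z v) :=
      contDiff_fderiv_apply_aux h1 (by norm_num) v
    exact h2.continuous
  have hs2 : ∀ v : ℂ, HasCompactSupport (fun z => fderiv ℝ (fun z => fderiv ℝ u z v) z v) :=
    fun v => hasCompactSupport_fderiv_apply (hasCompactSupport_fderiv_apply huc v) v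
  unfold lap
  simp only [mul_add, add_mul]
  rw [integral_add (hI _ _ hu.continuous (hc2 g hg 1) huc)
      (hI _ _ hu.continuous (hc2 g hg Complex.I) huc),
    integral_add (hI _ _ (hc2 u hu 1) hg.continuous (hs2 1))
      (hI _ _ (hc2 u hu Complex.I) hg.continuous (hs2 Complex.I)),
    ibp_dir hu huc hg 1, ibp_dir hu huc hg Complex.I]

theorem lap_comp_sub_right (g : ℂ → ℝ) (c z : ℂ) :
    lap (fun z => g (z - c)) z = lap g (z - c) := by
  have h1 : ∀ (f : ℂ → ℝ) (v : ℂ), (fun z => fderiv ℝ (fun z => f (z - c)) z v)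
      = fun z => fderiv ℝ f (z - c) v := by
    intro f v
    ext z
    rw [fderiv_comp_sub]
  unfold lap
  rw [h1, h1]
  have h2 := congrFun (h1 (fun z => fderiv ℝ g z 1) 1) z
  have h3 := congrFun (h1 (fun z => fderiv ℝ g z Complex.I) Complex.I) z
  exact congrArg₂ (· + ·) h2 h3

theorem lap_comp_sub_left (g : ℂ → ℝ) (c z : ℂ) :
    lap (fun c => g (z - c)) c = lap g (z - c) := by
  have h1 : ∀ (f : ℂ → ℝ) (v : ℂ), (fun c => fderiv ℝ (fun c => f (z - c)) c v)
      = fun c => - fderiv ℝ f (z - c) v := by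
    intro f v
    ext c
    have e1 : (fun c : ℂ => f (z - c)) = fun c : ℂ => (f ∘ (ContinuousLinearEquiv.neg ℝ (M := ℂ))) (c - z) := by
      ext c; simp
    have e2 : fderiv ℝ (fun c : ℂ => f (z - c)) c =
        fderiv ℝ (f ∘ (ContinuousLinearEquiv.neg ℝ (M := ℂ))) (c - z) := by
      rw [e1]
      exact fderiv_comp_sub z
    rw [e2, ContinuousLinearEquiv.comp_right_fderiv]
    simp
  have h4 : ∀ (f : ℂ → ℝ) (v : ℂ), fderiv ℝ (fun c => - f (z - c)) c v
      = fderiv ℝ f (z - c) v := by
    intro f v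
    have h5 : fderiv ℝ (fun c => f (z - c)) c v = - fderiv ℝ f (z - c) v := congrFun (h1 f v) c
    rw [fderiv_fun_neg]
    simp [h5]
  unfold lap
  rw [h1, h1, h4 (fun z => fderiv ℝ g z 1), h4 (fun z => fderiv ℝ g z Complex.I)]

/-- A measure on a product box which annihilates the leafwise Laplacians of all smooth compactly
supported functions also annihilates the leafwise Laplacians of functions which are only Borel in
the transversal direction. -/
theorem leaf_test {F : Type*} [NormedAddCommGroup F] [NormedSpace ℝ F] [FiniteDimensional ℝ F]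
    [MeasurableSpace F] [BorelSpace F] (ν : Measure (ℂ × F)) [IsFiniteMeasure ν]
    {R : ℝ} (hR : 0 < R) (hO : ν (ball (0 : ℂ) R ×ˢ ball (0 : F) R)ᶜ = 0)
    (hν : ∀ f : ℂ × F → ℝ, ContDiff ℝ ((⊤ : ℕ∞) : WithTop ℕ∞) f → HasCompactSupport f →
      tsupport f ⊆ ball (0 : ℂ) R ×ˢ ball (0 : F) R →
      ∫ p, lap (fun z => f (z, p.2)) p.1 ∂ν = 0)
    (w : ℂ × F → ℝ) (hw : Measurable w) {K : Set (ℂ × F)} (hK : IsCompact K)
    (hKO : K ⊆ ball (0 : ℂ) R ×ˢ ball (0 : F) R) (hwK : ∀ p ∉ K, w p = 0) {B : ℝ}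
    (hB : ∀ p, |w p| ≤ B) (T : Set F) (hT : ∀ᵐ p ∂ν, p.2 ∈ T)
    (hsm : ∀ t ∈ T, ContDiff ℝ 2 (fun z => w (z, t)))
    (hL : ∀ t ∈ T, ∀ z, |lap (fun z => w (z, t)) z| ≤ B) :
    Integrable (fun p : ℂ × F => lap (fun z => w (z, p.2)) p.1) ν ∧
      ∫ p, lap (fun z => w (z, p.2)) p.1 ∂ν = 0 := by
  set K₁ : Set ℂ := Prod.fst '' K with hK₁
  have hK₁c : IsCompact K₁ := hK.image continuous_fst
  have hK₁b : K₁ ⊆ ball (0 : ℂ) R := by
    rintro _ ⟨p, hp, rfl⟩
    exact (hKO hp).1
  have hw1 : ∀ c ∉ K₁, ∀ t, w (c, t) = 0 := by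
    intro c hc t
    apply hwK
    intro h
    exact hc ⟨_, h, rfl⟩
  obtain ⟨δ, hδ, hδK⟩ := hK₁c.exists_cthickening_subset_open isOpen_ball hK₁b
  -- the mollifiers
  let φ : ℕ → ContDiffBump (0 : ℂ) := fun n =>
    { rIn := δ / (2 * (n + 2)), rOut := δ / (n + 2),
      rIn_pos := by positivity,
      rIn_lt_rOut := by
        apply div_lt_div_of_pos_left hδ (by positivity)
        have : (0 : ℝ) ≤ n := Nat.cast_nonneg n
        linarith }
  let ρ : ℕ → ℂ → ℝ := fun n => (φ n).normed volume
  have hρs : ∀ n, ContDiff ℝ ((⊤ : ℕ∞) : WithTop ℕ∞) (ρ n) := fun n => (φ n).contDiff_normed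
  have hρ2 : ∀ n, ContDiff ℝ 2 (ρ n) := fun n => (hρs n).of_le (WithTop.coe_le_coe.2 le_top)
  have hρc : ∀ n, HasCompactSupport (ρ n) := fun n => (φ n).hasCompactSupport_normed
  have hρt : ∀ n, tsupport (ρ n) = closedBall 0 (δ / (n + 2)) := fun n => (φ n).tsupport_normed_eq
  have hρ0 : ∀ n z, 0 ≤ ρ n z := fun n z => (φ n).nonneg_normed z
  have hρ1 : ∀ n, ∫ z, ρ n z = 1 := fun n => (φ n).integral_normed
  have hrOut : Tendsto (fun n => (φ n).rOut) atTop (𝓝 0) := by
    have h1 : Tendsto (fun n : ℕ => δ / ((n : ℝ) + 2)) atTop (𝓝 0) := by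
      apply Tendsto.div_atTop tendsto_const_nhds
      exact tendsto_atTop_add_const_right _ _ tendsto_natCast_atTop_atTop
    exact h1
  -- the smeared Laplacian
  let H : ℕ → ℂ × F → ℝ := fun n p => ∫ c, lap (ρ n) (p.1 - c) * w (c, p.2)
  have hlm : ∀ n, Continuous (lap (ρ n)) := fun n => continuous_lap (hρ2 n)
  have hjm : ∀ n, Measurable (fun q : (ℂ × F) × ℂ => lap (ρ n) (q.1.1 - q.2) * w (q.2, q.1.2)) := by
    intro n
    refine ((hlm n).measurable.comp ((measurable_fst.comp measurable_fst).sub measurable_snd)).mul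
      (hw.comp (measurable_snd.prodMk (measurable_snd.comp measurable_fst)))
  have hB0 : 0 ≤ B := le_trans (abs_nonneg _) (hB (0, 0))
  have hji : ∀ n, Integrable
      (fun q : (ℂ × F) × ℂ => lap (ρ n) (q.1.1 - q.2) * w (q.2, q.1.2)) (ν.prod volume) := by
    intro n
    obtain ⟨M, hM⟩ := exists_bound_lap (hρ2 n) (hρc n)
    have hM0 : 0 ≤ M := le_trans (abs_nonneg _) (hM 0)
    have hd : Integrable (fun q : (ℂ × F) × ℂ => (1 : ℝ) * (K₁.indicator (fun _ => M * B) q.2))
        (ν.prod volume) := by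
      refine Integrable.mul_prod (f := fun _ : ℂ × F => (1 : ℝ))
        (g := K₁.indicator (fun _ => M * B)) (integrable_const 1) ?_
      rw [integrable_indicator_iff hK₁c.measurableSet]
      exact integrableOn_const hK₁c.measure_lt_top.ne
    refine hd.mono' (hjm n).aestronglyMeasurable (Eventually.of_forall (fun q => ?_))
    rw [norm_mul, one_mul]
    by_cases hq : q.2 ∈ K₁
    · rw [indicator_of_mem hq]
      exact mul_le_mul (hM _) (hB _) (abs_nonneg _) hM0
    · rw [indicator_of_notMem hq, hw1 _ hq]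
      simp
  have hHm : ∀ n, StronglyMeasurable (H n) := by
    intro n
    exact (hjm n).stronglyMeasurable.integral_prod_right
  have hH0 : ∀ n, ∫ p, H n p ∂ν = 0 := by
    intro n
    have e1 : ∫ p, H n p ∂ν = ∫ c, ∫ p, lap (ρ n) (p.1 - c) * w (c, p.2) ∂ν := by
      simp only [H]
      exact integral_integral_swap (hji n)
    rw [e1]
    refine integral_eq_zero_of_ae (Eventually.of_forall (fun c => ?_))
    by_cases hc : c ∈ K₁
    · have h1 := leaf_step ν hν (fun z => ρ n (z - c))
        ((hρs n).comp (contDiff_id.sub contDiff_const)) ?_ ?_ (fun t => w (c, t))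
        (hw.comp (measurable_const.prodMk measurable_id)) (C := B) (fun t => hB _) ?_
      · simp only [Pi.zero_apply]
        rw [← h1]
        refine integral_congr_ae (Eventually.of_forall (fun p => ?_))
        simp only
        rw [lap_comp_sub_right]
      · exact (hρc n).comp_homeomorph (Homeomorph.subRight c)
      · have h2 : tsupport (fun z => ρ n (z - c)) ⊆ closedBall c (δ / (n + 2)) := by
          refine closure_minimal ?_ isClosed_closedBall
          intro z hz
          have h3 : z - c ∈ tsupport (ρ n) := subset_tsupport _ (by simpa using hz)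
          rw [hρt] at h3
          simpa [dist_eq_norm] using h3
        refine h2.trans (subset_trans ?_ hδK)
        intro z hz
        refine mem_cthickening_of_dist_le z c δ K₁ hc (le_trans (mem_closedBall.1 hz) ?_)
        apply div_le_self hδ.le
        have : (0 : ℝ) ≤ n := Nat.cast_nonneg n
        linarith
      · intro t ht
        apply hwK
        intro h
        exact ht (hKO h).2
    · simp [hw1 c hc]
  -- on good leaves
  have hgood : ∀ p : ℂ × F, p.2 ∈ T → ∀ n, H n p =
      ∫ c, ρ n (p.1 - c) * lap (fun z => w (z, p.2)) c := by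
    intro p hp n
    have hu : ContDiff ℝ 2 (fun z => w (z, p.2)) := hsm _ hp
    have huc : HasCompactSupport (fun z => w (z, p.2)) :=
      HasCompactSupport.intro hK₁c (fun z hz => hw1 z hz _)
    have hg : ContDiff ℝ 2 (fun c => ρ n (p.1 - c)) := (hρ2 n).comp (contDiff_const.sub contDiff_id)
    have := green_lap hu huc hg
    simp only [H]
    rw [show (fun c => lap (ρ n) (p.1 - c) * w (c, p.2)) =
      fun c => w (c, p.2) * lap (fun c => ρ n (p.1 - c)) c from by
        ext c; rw [lap_comp_sub_left, mul_comm]]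
    rw [this]
    refine integral_congr_ae (Eventually.of_forall (fun c => ?_))
    simp only
    ring
  have hlim : ∀ p : ℂ × F, p.2 ∈ T →
      Tendsto (fun n => H n p) atTop (𝓝 (lap (fun z => w (z, p.2)) p.1)) := by
    intro p hp
    have hu : ContDiff ℝ 2 (fun z => w (z, p.2)) := hsm _ hp
    have h1 := ContDiffBump.convolution_tendsto_right_of_continuous (μ := (volume : Measure ℂ))
      hrOut (continuous_lap hu) p.1
    refine h1.congr (fun n => ?_)
    rw [hgood p hp n, MeasureTheory.convolution_eq_swap]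
    rfl
  have hbd : ∀ p : ℂ × F, p.2 ∈ T → ∀ n, ‖H n p‖ ≤ B := by
    intro p hp n
    rw [hgood p hp n]
    have hi : Integrable (fun c => ρ n (p.1 - c)) :=
      ((φ n).integrable_normed).comp_sub_left p.1
    calc ‖∫ c, ρ n (p.1 - c) * lap (fun z => w (z, p.2)) c‖
        ≤ ∫ c, ρ n (p.1 - c) * B := by
          refine norm_integral_le_of_norm_le (hi.mul_const B) (Eventually.of_forall (fun c => ?_))
          rw [norm_mul, Real.norm_of_nonneg (hρ0 n _)]
          exact mul_le_mul_of_nonneg_left (hL _ hp _) (hρ0 n _)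
      _ = B := by
          rw [integral_mul_const, integral_sub_left_eq_self (ρ n) volume p.1, hρ1 n, one_mul]
  have hTH : ∀ᵐ p ∂ν, Tendsto (fun n => H n p) atTop (𝓝 (lap (fun z => w (z, p.2)) p.1)) :=
    hT.mono (fun p hp => hlim p hp)
  have hasm : AEStronglyMeasurable (fun p : ℂ × F => lap (fun z => w (z, p.2)) p.1) ν :=
    aestronglyMeasurable_of_tendsto_ae atTop (fun n => (hHm n).aestronglyMeasurable) hTH
  refine ⟨Integrable.of_bound hasm B (hT.mono (fun p hp => by
    simpa [Real.norm_eq_abs] using hL _ hp p.1)), ?_⟩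
  have h1 : Tendsto (fun n => ∫ p, H n p ∂ν) atTop
      (𝓝 (∫ p, lap (fun z => w (z, p.2)) p.1 ∂ν)) := by
    refine tendsto_integral_of_dominated_convergence (fun _ => B)
      (fun n => (hHm n).aestronglyMeasurable) (integrable_const B) ?_ hTH
    intro n
    exact hT.mono (fun p hp => hbd p hp n)
  have h2 : Tendsto (fun n => ∫ p, H n p ∂ν) atTop (𝓝 0) := by
    simp only [hH0]
    exact tendsto_const_nhds
  exact tendsto_nhds_unique h1 h2

end Pool.Agent.Helper684.GX.Ergo
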