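import Mathlib
set_option autoImplicit false

open MeasureTheory ProbabilityTheory Set Filter Topology
open scoped ENNReal

namespace Pool.Agent.Helper684.GX.Ergo

variable {Ω : Type*} [MeasurableSpace Ω]

/-- the Markov operator of a kernel, on nonnegative functions -/
noncomputable def Pop (κ : Kernel Ω Ω) (f : Ω → ℝ≥0∞) (x : Ω) : ℝ≥0∞ := ∫⁻ y, f y ∂(κ x)

theorem measurable_Pop (κ : Kernel Ω Ω) {f : Ω → ℝ≥0∞} (hf : Measurable f) :
    Measurable (Pop κ f) := by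
  exact hf.lintegral_kernel

theorem lintegral_Pop (κ : Kernel Ω Ω) (m : Measure Ω) (hinv : m.bind κ = m) {f : Ω → ℝ≥0∞}
    (hf : Measurable f) : ∫⁻ x, Pop κ f x ∂m = ∫⁻ x, f x ∂m := by
  conv_rhs => rw [← hinv]
  rw [Measure.lintegral_bind κ.aemeasurable hf.aemeasurable]
  rfl

theorem measurable_Pop_iter (κ : Kernel Ω Ω) {f : Ω → ℝ≥0∞} (hf : Measurable f) (j : ℕ) :
    Measurable ((Pop κ)^[j] f) := by
  induction j with
  | zero => exact hf
  | succ j ih => rw [Function.iterate_succ_apply']; exact measurable_Pop κ ih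

theorem lintegral_Pop_iter (κ : Kernel Ω Ω) (m : Measure Ω) (hinv : m.bind κ = m)
    {f : Ω → ℝ≥0∞} (hf : Measurable f) (j : ℕ) :
    ∫⁻ x, ((Pop κ)^[j] f) x ∂m = ∫⁻ x, f x ∂m := by
  induction j with
  | zero => rfl
  | succ j ih =>
    rw [Function.iterate_succ_apply', lintegral_Pop κ m hinv (measurable_Pop_iter κ hf j), ih]

/-- finite sums -/
noncomputable def Tsum (κ : Kernel Ω Ω) (f : Ω → ℝ≥0∞) (k : ℕ) (x : Ω) : ℝ≥0∞ :=
  ∑ j ∈ Finset.range k, ((Pop κ)^[j] f) x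

theorem measurable_Tsum (κ : Kernel Ω Ω) {f : Ω → ℝ≥0∞} (hf : Measurable f) (k : ℕ) :
    Measurable (Tsum κ f k) := by
  unfold Tsum
  exact Finset.measurable_fun_sum _ (fun j _ => measurable_Pop_iter κ hf j)

theorem Tsum_succ (κ : Kernel Ω Ω) {f : Ω → ℝ≥0∞} (hf : Measurable f) (k : ℕ) (x : Ω) :
    Tsum κ f (k + 1) x = f x + Pop κ (Tsum κ f k) x := by
  have h : Pop κ (Tsum κ f k) x = ∑ j ∈ Finset.range k, Pop κ ((Pop κ)^[j] f) x :=
    lintegral_finsetSum _ (fun j _ => measurable_Pop_iter κ hf j)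
  rw [h]
  unfold Tsum
  rw [Finset.sum_range_succ', add_comm]
  congr 1
  apply Finset.sum_congr rfl
  intro j _
  rw [Function.iterate_succ_apply']

theorem Tsum_mono (κ : Kernel Ω Ω) (f : Ω → ℝ≥0∞) (x : Ω) : Monotone fun k => Tsum κ f k x := by
  intro a b hab
  exact Finset.sum_le_sum_of_subset (Finset.range_mono hab)

theorem lintegral_Tsum_ne_top (κ : Kernel Ω Ω) (m : Measure Ω) (hinv : m.bind κ = m)
    {f : Ω → ℝ≥0∞} (hf : Measurable f) (hfin : ∫⁻ x, f x ∂m < ⊤) (k : ℕ) :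
    ∫⁻ x, Tsum κ f k x ∂m ≠ ⊤ := by
  unfold Tsum
  rw [lintegral_finsetSum _ (fun j _ => measurable_Pop_iter κ hf j)]
  apply (ENNReal.sum_lt_top.2 _).ne
  intro j _
  rw [lintegral_Pop_iter κ m hinv hf j]
  exact hfin

/-- truncated maximal function -/
noncomputable def Mx (κ : Kernel Ω Ω) (f : Ω → ℝ≥0∞) (a : ℝ≥0∞) (N : ℕ) (x : Ω) : ℝ≥0∞ :=
  (Finset.range (N + 1)).sup fun k => Tsum κ f k x - a * k

theorem measurable_Mx (κ : Kernel Ω Ω) {f : Ω → ℝ≥0∞} (hf : Measurable f) (a : ℝ≥0∞) (N : ℕ) :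
    Measurable (Mx κ f a N) := by
  have h : Mx κ f a N = fun x => ⨆ k ∈ Finset.range (N + 1), (Tsum κ f k x - a * k) := by
    funext x
    unfold Mx
    rw [Finset.sup_eq_iSup]
  rw [h]
  exact Measurable.iSup fun k => Measurable.iSup fun _ => (measurable_Tsum κ hf k).sub_const _

theorem Mx_le (κ : Kernel Ω Ω) (f : Ω → ℝ≥0∞) (a : ℝ≥0∞) (N : ℕ) (x : Ω) :
    Mx κ f a N x ≤ Tsum κ f N x := by
  unfold Mx
  apply Finset.sup_le
  intro k hk
  exact tsub_le_self.trans (Tsum_mono κ f x (Nat.lt_succ_iff.1 (Finset.mem_range.1 hk)))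

theorem le_Mx (κ : Kernel Ω Ω) (f : Ω → ℝ≥0∞) (a : ℝ≥0∞) {N k : ℕ} (hk : k ≤ N) (x : Ω) :
    Tsum κ f k x - a * k ≤ Mx κ f a N x := by
  unfold Mx
  exact Finset.le_sup (f := fun k => Tsum κ f k x - a * k)
    (Finset.mem_range.2 (Nat.lt_succ_of_le hk))

theorem Mx_mono (κ : Kernel Ω Ω) (f : Ω → ℝ≥0∞) (a : ℝ≥0∞) (x : Ω) :
    Monotone fun N => Mx κ f a N x := by
  intro M N h
  unfold Mx
  exact Finset.sup_mono (Finset.range_mono (by omega))

/-- the pointwise inequality on `{Mx > 0}` -/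
theorem Mx_key (κ : Kernel Ω Ω) [IsMarkovKernel κ] {f : Ω → ℝ≥0∞} (hf : Measurable f)
    (a : ℝ≥0∞) (N : ℕ) (x : Ω) (hx : 0 < Mx κ f a N x) :
    a + Mx κ f a N x ≤ f x + Pop κ (Mx κ f a N) x := by
  obtain ⟨k, hk, hke⟩ := Finset.exists_mem_eq_sup (Finset.range (N + 1)) ⟨0, by simp⟩
    (fun k => Tsum κ f k x - a * k)
  have hM : Mx κ f a N x = Tsum κ f k x - a * k := hke
  rw [hM] at hx ⊢
  have hkN : k ≤ N := Nat.lt_succ_iff.1 (Finset.mem_range.1 hk)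
  have hlt : a * k < Tsum κ f k x := tsub_pos_iff_lt.1 hx
  rcases k with _ | k
  · simp [Tsum] at hlt
  · have ha : a * ((k + 1 : ℕ) : ℝ≥0∞) = a * k + a := by push_cast; ring
    have hfin : a * ((k + 1 : ℕ) : ℝ≥0∞) ≠ ⊤ := (lt_of_lt_of_le hlt le_top).ne
    have h1 : a * (k : ℝ≥0∞) ≠ ⊤ := by
      intro h; rw [ha, h] at hfin; simp at hfin
    have h2 : a + (Tsum κ f (k + 1) x - a * ((k + 1 : ℕ) : ℝ≥0∞))
        ≤ Tsum κ f (k + 1) x - a * k := by
      have ha' : a ≠ ⊤ := by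
        intro h; rw [ha, h] at hfin; simp at hfin
      refine ENNReal.le_sub_of_add_le_left h1 ?_
      rw [← add_assoc, ← ha, add_tsub_cancel_of_le hlt.le]
    refine h2.trans ?_
    rw [Tsum_succ κ hf]
    have h3 : f x + Pop κ (Tsum κ f k) x - a * k ≤ f x + (Pop κ (Tsum κ f k) x - a * k) :=
      add_tsub_le_assoc
    refine h3.trans ?_
    gcongr
    rw [tsub_le_iff_right]
    unfold Pop
    calc ∫⁻ y, Tsum κ f k y ∂(κ x)
        ≤ ∫⁻ y, (Mx κ f a N y + a * k) ∂(κ x) := by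
          apply lintegral_mono
          intro y
          have := le_Mx κ f a (show k ≤ N by omega) y
          exact tsub_le_iff_right.1 this
      _ = ∫⁻ y, Mx κ f a N y ∂(κ x) + a * k := by
          rw [lintegral_add_right _ measurable_const, lintegral_const, measure_univ, mul_one]

theorem Mx_ineq (κ : Kernel Ω Ω) [IsMarkovKernel κ] (m : Measure Ω) [IsFiniteMeasure m]
    (hinv : m.bind κ = m) {f : Ω → ℝ≥0∞} (hf : Measurable f) (hfin : ∫⁻ x, f x ∂m < ⊤)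
    (a : ℝ≥0∞) (N : ℕ) : a * m {x | 0 < Mx κ f a N x} ≤ ∫⁻ x, f x ∂m := by
  have hmeas := measurable_Mx κ hf a N
  have hE : MeasurableSet {x | 0 < Mx κ f a N x} := measurableSet_lt measurable_const hmeas
  have hMfin : ∫⁻ x, Mx κ f a N x ∂m ≠ ⊤ :=
    ((lintegral_mono (Mx_le κ f a N)).trans_lt
      (lt_top_iff_ne_top.2 (lintegral_Tsum_ne_top κ m hinv hf hfin N))).ne
  have h1 : a * m {x | 0 < Mx κ f a N x} + ∫⁻ x, Mx κ f a N x ∂m
      ≤ ∫⁻ x, f x ∂m + ∫⁻ x, Mx κ f a N x ∂m := by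
    have h2 : ∫⁻ x, Mx κ f a N x ∂m = ∫⁻ x in {x | 0 < Mx κ f a N x}, Mx κ f a N x ∂m := by
      rw [← lintegral_indicator hE]
      congr 1
      funext x
      by_cases hx : 0 < Mx κ f a N x
      · rw [Set.indicator_of_mem (show x ∈ {x | 0 < Mx κ f a N x} from hx)]
      · rw [Set.indicator_of_notMem (show x ∉ {x | 0 < Mx κ f a N x} from hx)]
        exact nonpos_iff_eq_zero.1 (not_lt.1 hx)
    calc a * m {x | 0 < Mx κ f a N x} + ∫⁻ x, Mx κ f a N x ∂m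
        = ∫⁻ x in {x | 0 < Mx κ f a N x}, (a + Mx κ f a N x) ∂m := by
          rw [lintegral_add_left measurable_const, setLIntegral_const, ← h2]
      _ ≤ ∫⁻ x in {x | 0 < Mx κ f a N x}, (f x + Pop κ (Mx κ f a N) x) ∂m := by
          apply setLIntegral_mono' hE
          intro x hx
          exact Mx_key κ hf a N x hx
      _ ≤ ∫⁻ x, (f x + Pop κ (Mx κ f a N) x) ∂m := setLIntegral_le_lintegral _ _
      _ = ∫⁻ x, f x ∂m + ∫⁻ x, Mx κ f a N x ∂m := by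
          rw [lintegral_add_left hf, lintegral_Pop κ m hinv hmeas]
  exact (ENNReal.add_le_add_iff_right hMfin).1 h1

/-- Hopf's maximal ergodic inequality -/
theorem hopf_maximal (κ : Kernel Ω Ω) [IsMarkovKernel κ] (m : Measure Ω) [IsFiniteMeasure m]
    (hinv : m.bind κ = m) {f : Ω → ℝ≥0∞} (hf : Measurable f) (hfin : ∫⁻ x, f x ∂m < ⊤)
    (a : ℝ≥0∞) :
    a * m {x | ∃ N : ℕ, 0 < N ∧ a * N < ∑ j ∈ Finset.range N, ((Pop κ)^[j] f) x} ≤
      ∫⁻ x, f x ∂m := by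
  have hsub : {x | ∃ N : ℕ, 0 < N ∧ a * N < ∑ j ∈ Finset.range N, ((Pop κ)^[j] f) x}
      ⊆ ⋃ N : ℕ, {x | 0 < Mx κ f a N x} := by
    rintro x ⟨N, _, hN⟩
    refine Set.mem_iUnion.2 ⟨N, ?_⟩
    exact lt_of_lt_of_le (tsub_pos_iff_lt.2 hN) (le_Mx κ f a le_rfl x)
  have hmono : Monotone fun N : ℕ => {x | 0 < Mx κ f a N x} := by
    intro M N h x hx
    exact lt_of_lt_of_le hx (Mx_mono κ f a x h)
  calc _ ≤ a * m (⋃ N : ℕ, {x | 0 < Mx κ f a N x}) := by gcongr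
    _ = ⨆ N : ℕ, a * m {x | 0 < Mx κ f a N x} := by
        rw [hmono.measure_iUnion, ENNReal.mul_iSup]
    _ ≤ _ := iSup_le fun N => Mx_ineq κ m hinv hf hfin a N

end Pool.Agent.Helper684.GX.Ergo
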