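import Pool.Agent.Helper684.GX.Ergo.Ker
import Pool.Agent.Helper684.GX.Ergo.Hopf
import Pool.Agent.Helper684.GX.Ergo.HypAll

/-!
The averaging kernel and the Green kernels.
-/

set_option autoImplicit false

open MeasureTheory ProbabilityTheory Metric Set Filter Topology
open scoped ComplexConjugate ENNReal

namespace Pool.Agent.Helper684.GX.Ergo

variable {M : Type*} [MeasurableSpace M]

/-- the averaging kernel -/
noncomputable def avg (Φ : M → ℂ → M) (hΦ : Measurable fun p : M × ℂ => Φ p.1 p.2) :
    Kernel M M :=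
  kerOf Φ hΦ (fun u => ENNReal.ofReal (u ^ 2 / Real.pi))

/-- the Green averages -/
noncomputable def green (Φ : M → ℂ → M) (hΦ : Measurable fun p : M × ℂ => Φ p.1 p.2) (n : ℕ) :
    Kernel M M :=
  kerOf Φ hΦ (fun u => ENNReal.ofReal (gT (1 - Real.exp (-n)) u))

end Pool.Agent.Helper684.GX.Ergo
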