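import Pool.Agent.Helper684.GX.Ergo.HypMob

/-!
The kernel on `M` obtained from a family of discs and a radial kernel on the unit disc.
-/

set_option autoImplicit false

open MeasureTheory ProbabilityTheory Metric Set Filter Topology
open scoped ComplexConjugate ENNReal

namespace Pool.Agent.Helper684.GX.Ergo

instance : SFinite hypVol := by unfold hypVol; infer_instance

/-- the radial measure `k(1-|w|²) dvol(w)` on the unit disc -/
noncomputable def radVol (k : ℝ → ℝ≥0∞) : Measure ℂ := hypVol.withDensity (fun w => k (hh 0 w))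

instance (k : ℝ → ℝ≥0∞) : SFinite (radVol k) := by unfold radVol; infer_instance

variable {M : Type*} [MeasurableSpace M]

theorem measurable_map_family (Φ : M → ℂ → M) (hΦ : Measurable fun p : M × ℂ => Φ p.1 p.2)
    (ν : Measure ℂ) [SFinite ν] : Measurable fun x => ν.map (Φ x) := by
  refine Measure.measurable_of_measurable_coe _ fun s hs => ?_
  have h1 : ∀ x : M, (ν.map (Φ x)) s =
      ν (Prod.mk x ⁻¹' ((fun p : M × ℂ => Φ p.1 p.2) ⁻¹' s)) := by
    intro x
    have h2 : Measurable (Φ x) := hΦ.comp measurable_prodMk_left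
    exact Measure.map_apply h2 hs
  have h3 := measurable_measure_prodMk_left (ν := ν) (hΦ hs)
  exact (funext h1 : (fun x => (ν.map (Φ x)) s) = _) ▸ h3

/-- the kernel `x ↦ (Φ x)_* (k(1-|w|²) dvol(w))` -/
noncomputable def kerOf (Φ : M → ℂ → M)
    (hΦ : Measurable fun p : M × ℂ => Φ p.1 p.2) (k : ℝ → ℝ≥0∞) : Kernel M M where
  toFun x := (radVol k).map (Φ x)
  measurable' := measurable_map_family Φ hΦ (radVol k)

theorem measurable_hh0 : Measurable fun w : ℂ => hh 0 w := cc1

theorem lintegral_radVol {k : ℝ → ℝ≥0∞} (hk : Measurable k) {g : ℂ → ℝ≥0∞} (hg : Measurable g) :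
    ∫⁻ w, g w ∂(radVol k) = ∫⁻ w, k (hh 0 w) * g w ∂hypVol :=
  lintegral_withDensity_eq_lintegral_mul _ (hk.comp measurable_hh0) hg

theorem kerOf_apply (Φ : M → ℂ → M) (hΦ : Measurable fun p : M × ℂ => Φ p.1 p.2)
    (k : ℝ → ℝ≥0∞) (x : M) : kerOf Φ hΦ k x = (radVol k).map (Φ x) := rfl

theorem lintegral_kerOf {Φ : M → ℂ → M} (hΦ : Measurable fun p : M × ℂ => Φ p.1 p.2)
    {k : ℝ → ℝ≥0∞} (hk : Measurable k) {f : M → ℝ≥0∞} (hf : Measurable f) (x : M) :
    ∫⁻ y, f y ∂(kerOf Φ hΦ k x) = ∫⁻ w, k (hh 0 w) * f (Φ x w) ∂hypVol := by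
  have h1 : Measurable (Φ x) := hΦ.comp measurable_prodMk_left
  rw [kerOf_apply, lintegral_map hf h1]
  exact lintegral_radVol hk (hf.comp h1)

end Pool.Agent.Helper684.GX.Ergo
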