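import Pool.Agent.Helper684.GX.Ergo.KDefs
import Pool.Agent.Helper684.GX.Ergo.Cover

attribute [local instance] Pool.Agent.Helper684.GX.Nev.leafInst

set_option autoImplicit false


open scoped Manifold ComplexConjugate ENNReal
open Metric MeasureTheory Set Filter Topology
open Pool.Agent.Helper684.GX.Nev

namespace Pool.Agent.Helper684.GX.Ergo

variable {E M : Type*} [NormedAddCommGroup E] [NormedSpace ℂ E] [TopologicalSpace M]
  [ChartedSpace E M] [IsManifold 𝓘(ℂ, E) 1 M]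

theorem rebase_mob_zero (z : ℂ) : mob z 0 = z := by
  unfold mob
  simp

theorem rebase_aux [MeasurableSpace M] {F : Foliation E M} {Φ : M → ℂ → M}
    (hcov : ∀ x, (∃ φ : ℂ → M, F.IsUniversalCovering φ ∧ φ 0 = x) →
      F.IsUniversalCovering (Φ x) ∧ Φ x 0 = x)
    {φ : ℂ → M} (hφ : F.IsUniversalCovering φ) {z : ℂ} (hz : z ∈ ball (0 : ℂ) 1) :
    (∃ ψ : ℂ → M, F.IsUniversalCovering ψ ∧ ψ 0 = φ z) ∧
    ∃ c : ℂ, ‖c‖ = 1 ∧ ∀ w ∈ ball (0 : ℂ) 1, Φ (φ z) w = φ (mob z (c * w)) := by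
  have hψ := universalCovering_mob hφ hz
  have h0 : (fun w => φ (mob z w)) 0 = φ z := by
    show φ (mob z 0) = φ z
    rw [rebase_mob_zero]
  obtain ⟨hU, hU0⟩ := hcov (φ z) ⟨_, hψ, h0⟩
  obtain ⟨c, hc, h⟩ := universalCovering_unique hψ hU (h0.trans hU0.symm)
  exact ⟨⟨_, hψ, h0⟩, c, hc, h⟩

/-- changing the base point in the integrals of radial kernels -/
theorem rebase [MeasurableSpace M] {F : Foliation E M} {Φ : M → ℂ → M}
    (hΦ : Measurable fun p : M × ℂ => Φ p.1 p.2)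
    (hcov : ∀ x, (∃ φ : ℂ → M, F.IsUniversalCovering φ ∧ φ 0 = x) →
      F.IsUniversalCovering (Φ x) ∧ Φ x 0 = x)
    {x : M} (hx : ∃ φ : ℂ → M, F.IsUniversalCovering φ ∧ φ 0 = x) {z : ℂ}
    (hz : z ∈ ball (0 : ℂ) 1) :
    (∃ φ : ℂ → M, F.IsUniversalCovering φ ∧ φ 0 = Φ x z) ∧
      ∀ k : ℝ → ℝ≥0∞, Measurable k → ∀ f : M → ℝ≥0∞, Measurable f →
        ∫⁻ w, k (hh 0 w) * f (Φ (Φ x z) w) ∂hypVol = ∫⁻ w, k (hh z w) * f (Φ x w) ∂hypVol := by
  obtain ⟨hU, _⟩ := hcov x hx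
  obtain ⟨h1, c, hc, hcw⟩ := rebase_aux hcov hU hz
  refine ⟨h1, fun k hk f hf => ?_⟩
  have hT : MeasurePreserving (fun w : ℂ => mob z (c * w)) hypVol hypVol :=
    (measurePreserving_mob hz).comp (measurePreserving_rot hc)
  have hhz : Measurable (fun w => hh z w) := by
    have : (fun w => hh z w) = fun w => hh w z := by
      funext w; exact hh_comm z w
    rw [this]
    exact cc2 z
  have hg : Measurable (fun w => k (hh z w) * f (Φ x w)) :=
    (hk.comp hhz).mul (hf.comp (hΦ.comp measurable_prodMk_left))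
  rw [← hT.lintegral_comp hg]
  apply lintegral_congr_ae
  filter_upwards [cc5] with w hw
  have hcwb : c * w ∈ ball (0 : ℂ) 1 := by
    rw [mem_ball_zero_iff] at hw ⊢
    rw [norm_mul, hc, one_mul]
    exact hw
  have h2 : hh z (mob z (c * w)) = hh 0 w := by
    have h3 := hh_mob hz (mem_ball_self one_pos : (0 : ℂ) ∈ ball (0 : ℂ) 1) hcwb
    rw [rebase_mob_zero] at h3
    rw [h3, hh_zero_left, hh_zero_left, norm_mul, hc, one_mul]
  rw [h2, hcw w hw]

/-- the same with an arbitrary universal covering -/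
theorem rebase' [MeasurableSpace M] {F : Foliation E M} {Φ : M → ℂ → M}
    (hΦ : Measurable fun p : M × ℂ => Φ p.1 p.2)
    (hcov : ∀ x, (∃ φ : ℂ → M, F.IsUniversalCovering φ ∧ φ 0 = x) →
      F.IsUniversalCovering (Φ x) ∧ Φ x 0 = x)
    {φ : ℂ → M} (hφ : F.IsUniversalCovering φ) {z : ℂ} (hz : z ∈ ball (0 : ℂ) 1) :
    ∃ c : ℂ, ‖c‖ = 1 ∧ ∀ w ∈ ball (0 : ℂ) 1, Φ (φ z) w = φ (mob z (c * w)) := by
  exact (rebase_aux hcov hφ hz).2

end Pool.Agent.Helper684.GX.Ergo
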